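import Mathlib
import Pool.Agent.H204R3.CM.Alt

/-!
# Products of forms over two families of blocks, and their alternations
-/

set_option linter.unusedSectionVars false

namespace Pool.Agent.K9h17.H

open Equiv Pool.Agent.H204R3.CM

noncomputable section

section gen

variable {R W : Type*} [CommRing R] [AddCommGroup W] [Module R W]

/-- The product of forms over blocks of the same type. -/
def prodM {α β : Type*} [Fintype α] [DecidableEq α] [DecidableEq β]
    (B : α → MultilinearMap R (fun _ : β => W) R) :
    MultilinearMap R (fun _ : α × β => W) R where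
  toFun v := ∏ s, B s (fun ε => v (s, ε))
  map_update_add' := by
    intro inst v a x y
    have hinst : inst = instDecidableEqProd := Subsingleton.elim _ _
    subst hinst
    obtain ⟨s, ε⟩ := a
    have h1 : ∀ z : W, (fun ε' => Function.update v (s, ε) z (s, ε')) =
        Function.update (fun ε' => v (s, ε')) ε z := by
      intro z
      funext ε'
      by_cases h : ε' = ε
      · subst h; simp
      · rw [Function.update_of_ne h, Function.update_of_ne]
        intro h2
        exact h (Prod.mk.inj h2).2
    have h2 : ∀ (z : W) (s' : α), s' ≠ s →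
        (fun ε' => Function.update v (s, ε) z (s', ε')) = fun ε' => v (s', ε') := by
      intro z s' hs
      funext ε'
      rw [Function.update_of_ne]
      intro h3
      exact hs (Prod.mk.inj h3).1
    have h3 : ∀ z : W, ∏ s', B s' (fun ε' => Function.update v (s, ε) z (s', ε')) =
        B s (Function.update (fun ε' => v (s, ε')) ε z) *
          ∏ s' ∈ Finset.univ.erase s, B s' (fun ε' => v (s', ε')) := by
      intro z
      rw [← Finset.mul_prod_erase _ _ (Finset.mem_univ s), h1]
      congr 1
      exact Finset.prod_congr rfl fun s' hs' => by rw [h2 z s' (Finset.ne_of_mem_erase hs')]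
    rw [h3, h3, h3, MultilinearMap.map_update_add, add_mul]
  map_update_smul' := by
    intro inst v a c x
    have hinst : inst = instDecidableEqProd := Subsingleton.elim _ _
    subst hinst
    obtain ⟨s, ε⟩ := a
    have h1 : ∀ z : W, (fun ε' => Function.update v (s, ε) z (s, ε')) =
        Function.update (fun ε' => v (s, ε')) ε z := by
      intro z
      funext ε'
      by_cases h : ε' = ε
      · subst h; simp
      · rw [Function.update_of_ne h, Function.update_of_ne]
        intro h2
        exact h (Prod.mk.inj h2).2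
    have h2 : ∀ (z : W) (s' : α), s' ≠ s →
        (fun ε' => Function.update v (s, ε) z (s', ε')) = fun ε' => v (s', ε') := by
      intro z s' hs
      funext ε'
      rw [Function.update_of_ne]
      intro h3
      exact hs (Prod.mk.inj h3).1
    have h3 : ∀ z : W, ∏ s', B s' (fun ε' => Function.update v (s, ε) z (s', ε')) =
        B s (Function.update (fun ε' => v (s, ε')) ε z) *
          ∏ s' ∈ Finset.univ.erase s, B s' (fun ε' => v (s', ε')) := by
      intro z
      rw [← Finset.mul_prod_erase _ _ (Finset.mem_univ s), h1]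
      congr 1
      exact Finset.prod_congr rfl fun s' hs' => by rw [h2 z s' (Finset.ne_of_mem_erase hs')]
    rw [h3, h3, MultilinearMap.map_update_smul, smul_eq_mul, smul_eq_mul, mul_assoc]

theorem prodM_apply {α β : Type*} [Fintype α] [DecidableEq α] [DecidableEq β]
    (B : α → MultilinearMap R (fun _ : β => W) R) (v : α × β → W) :
    prodM B v = ∏ s, B s (fun ε => v (s, ε)) := rfl

end gen

variable {R W : Type*} [Field R] [CharZero R] [AddCommGroup W] [Module R W]
  {α β α' β' κ : Type*} [Fintype α] [DecidableEq α] [Fintype β] [DecidableEq β]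
  [Fintype α'] [DecidableEq α'] [Fintype β'] [DecidableEq β'] [Fintype κ] [DecidableEq κ]

/-- The product of the functions `b l` and `b' j` over the blocks. -/
def PP (e : (α × β) ⊕ (α' × β') ≃ κ) (b : α → ((β → W) → R)) (b' : α' → ((β' → W) → R)) :
    (κ → W) → R :=
  fun v => (∏ l, b l (fun ε => v (e (Sum.inl (l, ε))))) *
    ∏ j, b' j (fun k => v (e (Sum.inr (j, k))))

/-- The permutation of the blocks. -/
def rho (e : (α × β) ⊕ (α' × β') ≃ κ) (τ : α → Perm β) (τ' : α' → Perm β') : Perm κ :=
  e.permCongr (Equiv.Perm.sumCongr (prodCongrRight τ) (prodCongrRight τ'))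

theorem rho_inl (e : (α × β) ⊕ (α' × β') ≃ κ) (τ : α → Perm β) (τ' : α' → Perm β') (l : α)
    (ε : β) : rho e τ τ' (e (Sum.inl (l, ε))) = e (Sum.inl (l, τ l ε)) := by
  unfold rho
  rw [Equiv.permCongr_apply, Equiv.symm_apply_apply]
  rfl

theorem rho_inr (e : (α × β) ⊕ (α' × β') ≃ κ) (τ : α → Perm β) (τ' : α' → Perm β') (j : α')
    (k : β') : rho e τ τ' (e (Sum.inr (j, k))) = e (Sum.inr (j, τ' j k)) := by
  unfold rho
  rw [Equiv.permCongr_apply, Equiv.symm_apply_apply]
  rfl

theorem sign_rho (e : (α × β) ⊕ (α' × β') ≃ κ) (τ : α → Perm β) (τ' : α' → Perm β') :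
    Perm.sign (rho e τ τ') = (∏ l, Perm.sign (τ l)) * ∏ j, Perm.sign (τ' j) := by
  unfold rho
  rw [Perm.sign_permCongr, Perm.sign_sumCongr, Perm.sign_prodCongrRight,
    Perm.sign_prodCongrRight]

/-- The alternation of a product depends only on the alternations of the factors. -/
theorem altFun_PP (e : (α × β) ⊕ (α' × β') ≃ κ) (b : α → ((β → W) → R))
    (b' : α' → ((β' → W) → R)) :
    altFun (R := R) (PP e (fun l => altFun (R := R) (b l)) fun j => altFun (R := R) (b' j)) =
      ((Fintype.card (α → Perm β) : R) * (Fintype.card (α' → Perm β') : R)) •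
        altFun (R := R) (PP e b b') := by
  funext v
  have h1 : ∀ σ : Perm κ, PP e (fun l => altFun (R := R) (b l))
      (fun j => altFun (R := R) (b' j)) (fun l => v (σ l)) =
      ∑ τ : α → Perm β, ∑ τ' : α' → Perm β', ((Perm.sign (rho e τ τ') : ℤ) : R) *
        PP e b b' (fun l => v (σ (rho e τ τ' l))) := by
    intro σ
    unfold PP
    have h2 : ∀ l, altFun (R := R) (b l) (fun ε => v (σ (e (Sum.inl (l, ε))))) =
        ∑ τ : Perm β, ((Perm.sign τ : ℤ) : R) * b l (fun ε => v (σ (e (Sum.inl (l, τ ε))))) :=
      fun l => rfl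
    have h3 : ∀ j, altFun (R := R) (b' j) (fun k => v (σ (e (Sum.inr (j, k))))) =
        ∑ τ : Perm β', ((Perm.sign τ : ℤ) : R) * b' j (fun k => v (σ (e (Sum.inr (j, τ k))))) :=
      fun j => rfl
    rw [Finset.prod_congr rfl fun l _ => h2 l, Finset.prod_congr rfl fun j _ => h3 j,
      Finset.prod_univ_sum, Finset.prod_univ_sum, Fintype.piFinset_univ, Fintype.piFinset_univ,
      Finset.sum_mul_sum]
    refine Finset.sum_congr rfl fun τ _ => Finset.sum_congr rfl fun τ' _ => ?_
    simp only [rho_inl, rho_inr]
    rw [Finset.prod_mul_distrib, Finset.prod_mul_distrib, sign_rho]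
    push_cast
    ring
  change ∑ σ : Perm κ, ((Perm.sign σ : ℤ) : R) * PP e (fun l => altFun (R := R) (b l))
      (fun j => altFun (R := R) (b' j)) (fun l => v (σ l)) = _
  rw [Finset.sum_congr rfl fun σ _ => by rw [h1 σ, Finset.mul_sum]]
  rw [Finset.sum_comm]
  have h4 : ∀ (τ : α → Perm β) (τ' : α' → Perm β'), ∑ σ : Perm κ, ((Perm.sign σ : ℤ) : R) *
      (((Perm.sign (rho e τ τ') : ℤ) : R) * PP e b b' (fun l => v (σ (rho e τ τ' l)))) =
      altFun (R := R) (PP e b b') v := by
    intro τ τ'
    refine Fintype.sum_equiv (Equiv.mulRight (rho e τ τ')) _ _ ?_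
    intro σ
    rw [Equiv.coe_mulRight, map_mul]
    push_cast
    rw [mul_assoc]
    rfl
  have h5 : ∀ τ : α → Perm β, ∑ σ : Perm κ, ((Perm.sign σ : ℤ) : R) *
      ∑ τ' : α' → Perm β', ((Perm.sign (rho e τ τ') : ℤ) : R) *
        PP e b b' (fun l => v (σ (rho e τ τ' l))) =
      (Fintype.card (α' → Perm β') : R) * altFun (R := R) (PP e b b') v := by
    intro τ
    simp only [Finset.mul_sum]
    rw [Finset.sum_comm, Finset.sum_congr rfl fun τ' _ => h4 τ τ', Finset.sum_const,
      Finset.card_univ, nsmul_eq_mul]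
  rw [Finset.sum_congr rfl fun τ _ => h5 τ, Finset.sum_const, Finset.card_univ, nsmul_eq_mul,
    Pi.smul_apply, smul_eq_mul, mul_assoc]

/-- Expansion in the second family. -/
theorem PP_expand (e : (α × β) ⊕ (α' × β') ≃ κ) (b : α → ((β → W) → R)) {T : Type*} [Fintype T]
    (c : α' → T → R) (b' : α' → T → ((β' → W) → R)) :
    PP e b (fun j => ∑ t, c j t • b' j t) =
      ∑ p : α' → T, (∏ j, c j (p j)) • PP e b (fun j => b' j (p j)) := by
  classical
  funext v
  unfold PP
  rw [Finset.sum_apply]
  have h1 : ∀ j, (∑ t, c j t • b' j t) (fun k => v (e (Sum.inr (j, k)))) =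
      ∑ t, c j t * b' j t (fun k => v (e (Sum.inr (j, k)))) := by
    intro j
    rw [Finset.sum_apply]
    rfl
  rw [Finset.prod_congr rfl fun j _ => h1 j, Finset.prod_univ_sum, Fintype.piFinset_univ,
    Finset.mul_sum]
  refine Finset.sum_congr rfl fun p _ => ?_
  rw [Finset.prod_mul_distrib, Pi.smul_apply, smul_eq_mul]
  ring

/-- Products of multilinear maps are multilinear. -/
theorem PP_multi (e : (α × β) ⊕ (α' × β') ≃ κ) (B : α → MultilinearMap R (fun _ : β => W) R)
    (B' : α' → MultilinearMap R (fun _ : β' => W) R) :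
    ∃ M : MultilinearMap R (fun _ : κ => W) R, ∀ v, M v = PP e (fun l => B l) (fun j => B' j) v :=
  ⟨((LinearMap.mul' R R).compMultilinearMap ((prodM B).domCoprod (prodM B'))).domDomCongr e,
    fun _ => rfl⟩

end

end Pool.Agent.K9h17.H
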