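import Mathlib
import Pool.Agent.Y90.Defs
import Pool.Agent.H204R3.CM.Defs

/-!
# The classes generated by Hodge classes of degree two and by Weil classes
-/

namespace Pool.Agent.K9h17.H

open Module Pool.Agent.Y90
open Pool.Agent.H204R3.CM (IsHodge)

/-- `w ∈ H^d(X, ℚ)` is a *Weil class* of the field `ℚ[a]`: it is a Hodge class, and the endomorphism
`a` may be moved in `w` from each variable to each other variable. (This means that `w` belongs to
the subspace `Λ^d_{ℚ[a]} H^1(X, ℚ)` of `H^d(X, ℚ)`.) -/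
def IsWeilClass (X : AV) (a : Module.End ℚ X.H) {d : ℕ} (w : X.H [⋀^Fin d]→ₗ[ℚ] ℚ) : Prop :=
  IsHodge X.per w ∧ ∀ (v : Fin d → X.H) (k l : Fin d),
    w (Function.update v k (a (v k))) = w (Function.update v l (a (v l)))

/-- Homomorphisms `X ^ n → X`. -/
def IsHomPow (X : AV) {n : ℕ} (h : (Fin n → X.H) →ₗ[ℚ] X.H) : Prop :=
  ∃ Ψ : (Fin n → X.T) →ₗ[ℂ] X.T, ∀ v, Ψ (X.per.compLeft (Fin n) v) = X.per (h v)

/-- The span, in `H^{2m}(X ^ n, ℚ)`, of the wedge products of `r` Hodge classes `B l` of degree two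
and `s` pull-backs of Weil classes `w j` of degree `d` along homomorphisms `h j : X ^ n → X`, where
`2 r + d s = 2 m`. (The variables are distributed to the factors by the bijection `e`.) -/
def weilSpan (X : AV) (a : Module.End ℚ X.H) (d n m : ℕ) :
    Submodule ℚ ((Fin n → X.H) [⋀^Fin m × Fin 2]→ₗ[ℚ] ℚ) :=
  Submodule.span ℚ {g | ∃ (r s : ℕ) (e : (Fin r × Fin 2) ⊕ (Fin s × Fin d) ≃ Fin m × Fin 2)
    (B : Fin r → (Fin n → X.H) [⋀^Fin 2]→ₗ[ℚ] ℚ) (w : Fin s → X.H [⋀^Fin d]→ₗ[ℚ] ℚ)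
    (h : Fin s → (Fin n → X.H) →ₗ[ℚ] X.H),
    (∀ l, IsHodge (X.per.compLeft (Fin n)) (B l)) ∧
    (∀ j, IsWeilClass X a (w j) ∧ IsHomPow X (h j)) ∧
    ∀ v, g v = ∑ σ : Equiv.Perm (Fin m × Fin 2), ((Equiv.Perm.sign σ : ℤ) : ℚ) *
      ((∏ l, B l (fun ε => v (σ (e (Sum.inl (l, ε)))))) *
        ∏ j, w j (fun k => h j (v (σ (e (Sum.inr (j, k)))))))}

end Pool.Agent.K9h17.H
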