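import Mathlib
import Pool.Agent.K9h17.H.Blk
import Pool.Agent.K9h17.H.StmW

/-!
# Alternating forms in the span of the products of blocks
-/

set_option linter.unusedSectionVars false

namespace Pool.Agent.K9h17.H

open Equiv Module Pool.Agent.Y90 Pool.Agent.H204R3.CM

noncomputable section

section pol

variable {R : Type*} [CommRing R] {ι : Type*} [Fintype ι] [DecidableEq ι] {X W : Type*}
  [AddCommGroup X] [Module R X] [AddCommGroup W] [Module R W]

/-- The polarization formula. -/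
theorem polar_sum' (M : MultilinearMap R (fun _ : ι => X) W) (x : ι → X) :
    ∑ t : Finset ι, (-1 : ℤ) ^ t.card • M (fun _ => ∑ i ∈ tᶜ, x i) =
      ∑ τ : Equiv.Perm ι, M (fun k => x (τ k)) := by
  have h1 : ∀ t : Finset ι, M (fun _ => ∑ i ∈ tᶜ, x i) =
      ∑ p : ι → ι, if (∀ k, p k ∈ tᶜ) then M (fun k => x (p k)) else 0 := by
    intro t
    rw [MultilinearMap.map_sum_finset M (fun _ j => x j) (fun _ => tᶜ), ← Finset.sum_filter]
    refine Finset.sum_congr ?_ fun _ _ => rfl
    ext p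
    simp [Fintype.mem_piFinset]
  simp only [h1, Finset.smul_sum]
  rw [Finset.sum_comm]
  have h2 : ∀ p : ι → ι, (∑ t : Finset ι, (-1 : ℤ) ^ t.card •
      if (∀ k, p k ∈ tᶜ) then M (fun k => x (p k)) else 0) =
      if Function.Bijective p then M (fun k => x (p k)) else 0 := by
    intro p
    have h3 : ∀ t : Finset ι, ((-1 : ℤ) ^ t.card •
        if (∀ k, p k ∈ tᶜ) then M (fun k => x (p k)) else 0) =
        (if t ∈ (Finset.univ.image p)ᶜ.powerset then (-1 : ℤ) ^ t.card else 0) •
          M (fun k => x (p k)) := by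
      intro t
      have h4 : (∀ k, p k ∈ tᶜ) ↔ t ∈ (Finset.univ.image p)ᶜ.powerset := by
        rw [Finset.mem_powerset]
        constructor
        · intro h i hi
          rw [Finset.mem_compl, Finset.mem_image]
          rintro ⟨k, -, rfl⟩
          exact Finset.mem_compl.1 (h k) hi
        · intro h k
          rw [Finset.mem_compl]
          intro hk
          exact Finset.mem_compl.1 (h hk) (Finset.mem_image_of_mem p (Finset.mem_univ k))
      by_cases h5 : t ∈ (Finset.univ.image p)ᶜ.powerset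
      · rw [if_pos (h4.2 h5), if_pos h5]
      · rw [if_neg (fun h => h5 (h4.1 h)), if_neg h5, smul_zero, zero_smul]
    rw [Finset.sum_congr rfl fun t _ => h3 t, ← Finset.sum_smul, ← Finset.sum_filter,
      Finset.filter_mem_eq_inter, Finset.univ_inter, Finset.sum_powerset_neg_one_pow_card]
    by_cases h6 : Function.Bijective p
    · rw [if_pos h6, if_pos, one_smul]
      rw [Finset.compl_eq_empty_iff, Finset.image_univ_of_surjective h6.2]
    · rw [if_neg h6, if_neg, zero_smul]
      rw [Finset.compl_eq_empty_iff]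
      intro h7
      apply h6
      rw [← Finite.surjective_iff_bijective]
      intro i
      have h8 : i ∈ Finset.univ.image p := by rw [h7]; exact Finset.mem_univ i
      obtain ⟨k, -, hk⟩ := Finset.mem_image.1 h8
      exact ⟨k, hk⟩
  rw [Finset.sum_congr rfl fun p _ => h2 p, ← Finset.sum_filter]
  symm
  refine Finset.sum_bij (fun (τ : Equiv.Perm ι) _ => (τ : ι → ι)) ?_ ?_ ?_ ?_
  · intro τ _
    exact Finset.mem_filter.2 ⟨Finset.mem_univ _, τ.bijective⟩
  · intro τ _ τ' _ h
    exact DFunLike.coe_injective h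
  · intro p hp
    exact ⟨Equiv.ofBijective p (Finset.mem_filter.1 hp).2, Finset.mem_univ _, rfl⟩
  · intro τ _
    rfl

end pol

variable {H W : Type} [AddCommGroup H] [Module ℚ H] [AddCommGroup W] [Module ℚ W]

/-- The alternation of a mixed pull-back is a combination of pull-backs. -/
theorem altFun_mix {d : ℕ} (w : H [⋀^Fin d]→ₗ[ℚ] ℚ) (g : Fin d → (W →ₗ[ℚ] H)) :
    altFun (R := ℚ) (fun v : Fin d → W => w (fun k => g k (v k))) =
      ∑ t : Finset (Fin d), ((-1 : ℚ) ^ t.card) •
        fun v : Fin d → W => w (fun k => (∑ i ∈ tᶜ, g i) (v k)) := by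
  funext v
  let M : MultilinearMap ℚ (fun _ : Fin d => (W →ₗ[ℚ] H)) ℚ :=
    w.toMultilinearMap.compLinearMap fun k => LinearMap.applyₗ (v k)
  have hM : ∀ x : Fin d → (W →ₗ[ℚ] H), M x = w (fun k => x k (v k)) := fun x => rfl
  have h1 := polar_sum' M g
  rw [Finset.sum_apply]
  have h2 : ∀ t : Finset (Fin d), (((-1 : ℚ) ^ t.card) •
        fun v : Fin d → W => w (fun k => (∑ i ∈ tᶜ, g i) (v k))) v =
      (-1 : ℤ) ^ t.card • M (fun _ => ∑ i ∈ tᶜ, g i) := by
    intro t
    rw [hM, Pi.smul_apply, smul_eq_mul, zsmul_eq_mul]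
    push_cast
    rfl
  rw [Finset.sum_congr rfl fun t _ => h2 t, h1]
  change ∑ σ : Perm (Fin d), ((Perm.sign σ : ℤ) : ℚ) * w (fun k => g k (v (σ k))) = _
  refine Fintype.sum_equiv (Equiv.inv (Perm (Fin d))) _ _ fun σ => ?_
  rw [hM]
  have h3 : (fun k => g k (v (σ k))) = (fun k => g (σ⁻¹ k) (v k)) ∘ σ := by
    funext k
    change _ = g (σ⁻¹ (σ k)) (v (σ k))
    rw [show σ⁻¹ (σ k) = k from σ.symm_apply_apply k]
  rw [h3, w.map_perm, Units.smul_def, zsmul_eq_mul, ← mul_assoc, ← Int.cast_mul, ← Units.val_mul,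
    Int.units_mul_self, Units.val_one, Int.cast_one, one_mul]
  rfl

theorem altFun_eq {κ : Type} [Fintype κ] [DecidableEq κ] (β : MultilinearMap ℚ (fun _ : κ => W) ℚ) :
    altFun (R := ℚ) (fun v => β v) = fun v => MultilinearMap.alternatization β v := by
  funext v
  change ∑ σ : Perm κ, ((Perm.sign σ : ℤ) : ℚ) * β (fun l => v (σ l)) = _
  rw [MultilinearMap.alternatization_apply]
  refine Finset.sum_congr rfl fun σ _ => ?_
  rw [Units.smul_def, zsmul_eq_mul]
  rfl

variable {X : AV} {a : Module.End ℚ X.H} {d n m : ℕ}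

/-- The products of Hodge tensors of degree two and of mixed pull-backs of Weil classes. -/
def GT (X : AV) (a : Module.End ℚ X.H) (d n : ℕ) (κ : Type) : Set ((κ → Fin n → X.H) → ℚ) :=
  {G | ∃ (r s : ℕ) (e : (Fin r × Fin 2) ⊕ (Fin s × Fin d) ≃ κ)
    (β : Fin r → MultilinearMap ℚ (fun _ : Fin 2 => Fin n → X.H) ℚ)
    (w : Fin s → X.H [⋀^Fin d]→ₗ[ℚ] ℚ) (g : Fin s → Fin d → ((Fin n → X.H) →ₗ[ℚ] X.H)),
    (∀ l, IsHodge (X.per.compLeft (Fin n)) (MultilinearMap.alternatization (β l))) ∧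
    (∀ j, IsWeilClass X a (w j)) ∧ (∀ j k, IsHomPow X (g j k)) ∧
    G = PP e (fun l v => β l v) (fun j v => w j (fun k => g j k (v k)))}

theorem isHomPow_sum {ι : Type} (s : Finset ι) (g : ι → ((Fin n → X.H) →ₗ[ℚ] X.H))
    (hg : ∀ i, IsHomPow X (g i)) : IsHomPow X (∑ i ∈ s, g i) := by
  choose Ψ hΨ using hg
  refine ⟨∑ i ∈ s, Ψ i, fun v => ?_⟩
  rw [LinearMap.sum_apply, LinearMap.sum_apply, map_sum]
  exact Finset.sum_congr rfl fun i _ => hΨ i v

/-- **The final step.** -/
theorem mem_weilSpan (f : (Fin n → X.H) [⋀^Fin m × Fin 2]→ₗ[ℚ] ℚ)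
    (hf : (fun v => f v) ∈ Submodule.span ℚ (GT X a d n (Fin m × Fin 2))) :
    f ∈ weilSpan X a d n m := by
  classical
  let K : ((Fin n → X.H) [⋀^Fin m × Fin 2]→ₗ[ℚ] ℚ) →ₗ[ℚ] ((Fin m × Fin 2 → Fin n → X.H) → ℚ) :=
    { toFun := fun g v => g v
      map_add' := fun _ _ => rfl
      map_smul' := fun _ _ => rfl }
  have hKinj : Function.Injective K := fun g g' h => AlternatingMap.ext fun v => congrFun h v
  have hgen : ∀ (r s : ℕ) (e : (Fin r × Fin 2) ⊕ (Fin s × Fin d) ≃ Fin m × Fin 2)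
      (β : Fin r → MultilinearMap ℚ (fun _ : Fin 2 => Fin n → X.H) ℚ)
      (w : Fin s → X.H [⋀^Fin d]→ₗ[ℚ] ℚ) (g : Fin s → ((Fin n → X.H) →ₗ[ℚ] X.H)),
      (∀ l, IsHodge (X.per.compLeft (Fin n)) (MultilinearMap.alternatization (β l))) →
      (∀ j, IsWeilClass X a (w j)) → (∀ j, IsHomPow X (g j)) →
      altFun (R := ℚ) (PP e (fun l v => MultilinearMap.alternatization (β l) v)
        (fun j v => w j (fun k => g j (v k)))) ∈ (weilSpan X a d n m).map K := by
    intro r s e β w g h1 h2 h3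
    obtain ⟨M, hM⟩ := PP_multi e
      (fun l => (MultilinearMap.alternatization (β l)).toMultilinearMap)
      (fun j => (w j).toMultilinearMap.compLinearMap fun _ => g j)
    refine ⟨MultilinearMap.alternatization M, Submodule.subset_span
      ⟨r, s, e, fun l => MultilinearMap.alternatization (β l), w, g, h1,
        fun j => ⟨h2 j, h3 j⟩, fun v => ?_⟩, ?_⟩
    · have h4 := congrFun (altFun_eq M) v
      rw [← h4]
      change ∑ σ : Perm (Fin m × Fin 2), ((Perm.sign σ : ℤ) : ℚ) * M (fun l => v (σ l)) = _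
      refine Finset.sum_congr rfl fun σ _ => ?_
      rw [hM]
      rfl
    · change (fun v => MultilinearMap.alternatization M v) = _
      rw [← altFun_eq]
      congr 1
      funext v
      rw [hM]
      rfl
  have hsub : altFun (R := ℚ) '' (GT X a d n (Fin m × Fin 2)) ⊆ (weilSpan X a d n m).map K := by
    rintro _ ⟨_, ⟨r, s, e, β, w, g, h1, h2, h3, rfl⟩, rfl⟩
    have h4 := altFun_PP (R := ℚ) e (fun l v => β l v) (fun j v => w j (fun k => g j k (v k)))
    have hc : ((Fintype.card (Fin r → Perm (Fin 2)) : ℚ) *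
        (Fintype.card (Fin s → Perm (Fin d)) : ℚ)) ≠ 0 :=
      mul_ne_zero (Nat.cast_ne_zero.2 Fintype.card_ne_zero) (Nat.cast_ne_zero.2 Fintype.card_ne_zero)
    have h5 : altFun (R := ℚ) (PP e (fun l v => β l v) (fun j v => w j (fun k => g j k (v k)))) =
        ((Fintype.card (Fin r → Perm (Fin 2)) : ℚ) *
          (Fintype.card (Fin s → Perm (Fin d)) : ℚ))⁻¹ •
        altFun (R := ℚ) (PP e (fun l => altFun (R := ℚ) (fun v => β l v))
          fun j => altFun (R := ℚ) (fun v => w j (fun k => g j k (v k)))) := by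
      rw [h4, smul_smul, inv_mul_cancel₀ hc, one_smul]
    rw [h5]
    refine Submodule.smul_mem _ _ ?_
    have h6 : (fun j => altFun (R := ℚ) (fun v : Fin d → Fin n → X.H =>
        w j (fun k => g j k (v k)))) = fun j => ∑ t : Finset (Fin d), ((-1 : ℚ) ^ t.card) •
        fun v : Fin d → Fin n → X.H => w j (fun k => (∑ i ∈ tᶜ, g j i) (v k)) :=
      funext fun j => altFun_mix (w j) (g j)
    have h7 : (fun l => altFun (R := ℚ) (fun v => β l v)) =
        fun l v => MultilinearMap.alternatization (β l) v := funext fun l => altFun_eq (β l)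
    rw [h6, h7, PP_expand e _ (fun _ (t : Finset (Fin d)) => (-1 : ℚ) ^ t.card)
      (fun j t v => w j (fun k => (∑ i ∈ tᶜ, g j i) (v k))), map_sum]
    refine Submodule.sum_mem _ fun p _ => ?_
    rw [map_smul]
    exact Submodule.smul_mem _ _ (hgen r s e β w (fun j => ∑ i ∈ (p j)ᶜ, g j i) h1 h2
      fun j => isHomPow_sum _ _ (h3 j))
  have hA : altFun (R := ℚ) (fun v => f v) ∈ Submodule.map (altFun (R := ℚ))
      (Submodule.span ℚ (GT X a d n (Fin m × Fin 2))) := Submodule.mem_map_of_mem hf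
  rw [Submodule.map_span, altFun_alt] at hA
  have h1 : ((Fintype.card (Fin m × Fin 2)).factorial : ℚ) • (fun v => f v) ∈
      (weilSpan X a d n m).map K := Submodule.span_le.2 hsub hA
  have hne : ((Fintype.card (Fin m × Fin 2)).factorial : ℚ) ≠ 0 :=
    Nat.cast_ne_zero.2 (Nat.factorial_ne_zero _)
  have h2 : (fun v => f v) ∈ (weilSpan X a d n m).map K := by
    have h3 := Submodule.smul_mem _ (((Fintype.card (Fin m × Fin 2)).factorial : ℚ))⁻¹ h1
    rwa [smul_smul, inv_mul_cancel₀ hne, one_smul] at h3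
  obtain ⟨f', hf', hff⟩ := h2
  have h3 : f' = f := hKinj hff
  rw [← h3]
  exact hf'

end

end Pool.Agent.K9h17.H
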