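import Mathlib
import Pool.Agent.N183.U5.Stm
import Pool.Agent.N183.U5.Stm2
import Pool.Agent.K9h17.H.StmW

/-!
# The ring generated by classes of degree two and by Weil classes on simple factors
-/

namespace Pool.Agent.K9h17.H

open Module Polynomial Pool.Agent.Y90
open Pool.Agent.R915 (IsSimple)
open Pool.Agent.N183.U5 (MaxField CentreGen)
open Pool.Agent.H204R3.CM (IsHodge)

/-- The simple abelian variety `Y` is of type IV: the centre `ℚ[φ]` of its endomorphism algebra is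
totally imaginary. -/
def IsTypeIV (Y : AV) : Prop :=
  ∃ φ : Module.End ℚ Y.H, CentreGen Y φ ∧ ∀ s : ℂ, aeval s (minpoly ℚ φ) = 0 → s.im ≠ 0

/-- All relative signatures of the simple abelian variety `Y` are `(p, p)`, where `p` is odd or two,
and `Y` is not of type III: there is a maximal subfield `ℚ[a]` of the endomorphism algebra, of degree
`dim(Y) / p`, all of whose embeddings `s` have the multiplicity `p` on the tangent space (`Ψ` is the
tangent map of `a`), and either `ℚ[a]` is totally real (types I and II) or `Y` is of type IV. (For the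
types I and II the condition on the multiplicities is automatic, and `p` is the relative dimension
`dim(Y) / [ℚ[a] : ℚ]`.) -/
def IsBalanced (Y : AV) : Prop :=
  ∃ (a : Module.End ℚ Y.H) (Ψ : Module.End ℂ Y.T) (p : ℕ), MaxField Y a ∧
    (∀ v, Ψ (Y.per v) = Y.per (a v)) ∧ (Odd p ∨ p = 2) ∧
    (∀ s : ℂ, aeval s (minpoly ℚ a) = 0 → finrank ℂ (Ψ.eigenspace s) = p) ∧
    (minpoly ℚ a).natDegree * (2 * p) = finrank ℚ Y.H ∧
    ((∀ s : ℂ, aeval s (minpoly ℚ a) = 0 → s.im = 0) ∨ IsTypeIV Y)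

/-- The ring generated by classes of divisors and by Weil classes: the smallest system of cohomology
classes `f ∈ H^κ(X, ℚ)` of the abelian variety `X` which contains the classes of degree zero, the Hodge
classes of degree two and the pull-backs, along homomorphisms `h : X → Y`, of the Weil classes
(`IsWeilClass`), of degree `d = 2 dim(Y) / [ℚ[a] : ℚ]`, of maximal subfields `ℚ[a]` of the endomorphism
algebras of simple abelian varieties `Y` of type IV, and which is stable under linear combinations and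
cup products. (If `h ≠ 0` then `Y` is a simple factor of `X`.) -/
inductive WeilGen (X : AV) : (κ : Type) → (X.H [⋀^κ]→ₗ[ℚ] ℚ) → Prop
  /-- classes of degree zero -/
  | unit {κ : Type} [IsEmpty κ] (f : X.H [⋀^κ]→ₗ[ℚ] ℚ) : WeilGen X κ f
  /-- Hodge classes of degree two -/
  | divisor {κ : Type} (hκ : Nat.card κ = 2) (f : X.H [⋀^κ]→ₗ[ℚ] ℚ)
      (hf : IsHodge X.per f) : WeilGen X κ f
  /-- pull-backs of Weil classes -/
  | weil {Y : AV} (hY : IsSimple Y) (hIV : IsTypeIV Y) (a : Module.End ℚ Y.H)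
      (ha : MaxField Y a) {d : ℕ}
      (hd : (minpoly ℚ a).natDegree * d = finrank ℚ Y.H) (w : Y.H [⋀^Fin d]→ₗ[ℚ] ℚ)
      (hw : IsWeilClass Y a w) (h : X.H →ₗ[ℚ] Y.H) (hh : IsHom X Y h) :
      WeilGen X (Fin d) (w.compLinearMap h)
  | zero (κ : Type) : WeilGen X κ 0
  | add {κ : Type} (f g : X.H [⋀^κ]→ₗ[ℚ] ℚ) (hf : WeilGen X κ f) (hg : WeilGen X κ g) :
      WeilGen X κ (f + g)
  | smul {κ : Type} (c : ℚ) (f : X.H [⋀^κ]→ₗ[ℚ] ℚ) (hf : WeilGen X κ f) : WeilGen X κ (c • f)
  /-- renaming of the variables -/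
  | reindex {κ κ' : Type} (e : κ ≃ κ') (f : X.H [⋀^κ]→ₗ[ℚ] ℚ) (hf : WeilGen X κ f) :
      WeilGen X κ' (f.domDomCongr e)
  /-- cup products (up to a factor) -/
  | cup {κ κ' : Type} [Fintype κ] [DecidableEq κ] [Fintype κ'] [DecidableEq κ']
      (f : X.H [⋀^κ]→ₗ[ℚ] ℚ) (g : X.H [⋀^κ']→ₗ[ℚ] ℚ) (hf : WeilGen X κ f) (hg : WeilGen X κ' g)
      (h : X.H [⋀^κ ⊕ κ']→ₗ[ℚ] ℚ)
      (hh : ∀ v : κ ⊕ κ' → X.H, h v = ∑ σ : Equiv.Perm (κ ⊕ κ'), ((Equiv.Perm.sign σ : ℤ) : ℚ) *
        (f (fun k => v (σ (Sum.inl k))) * g (fun k => v (σ (Sum.inr k))))) :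
      WeilGen X (κ ⊕ κ') h

end Pool.Agent.K9h17.H
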