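import Mathlib
import Pool.Agent.Y90.Asm
import Pool.Agent.K9h17.G.T2
import Pool.Agent.K9h17.H.Fin
import Pool.Agent.K9h17.H.StmB

/-!
# The complex span of the ring generated by classes of degree two and Weil classes
-/

set_option linter.unusedSectionVars false

namespace Pool.Agent.K9h17.H

open Matrix Module Pool.Agent.W437.HC Pool.Agent.W437.HD Pool.Agent.W548.Odd Pool.Agent.TH504.CB
open Pool.Agent.Y90
open Pool.Agent.R915 (IsSimple)
open Pool.Agent.N183.U5 (MaxField CentreGen)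
open Pool.Agent.H204R3.CM (IsHodge altFun)
open Pool.Agent.H204R3.SP (Kills bil2 IsTate)

noncomputable section

section rc

variable (X : AV)

/-- The complex span of the ring. -/
def RB (κ : Type) : Submodule ℂ ((κ → X.H) → ℂ) :=
  Submodule.span ℂ {g | ∃ r, WeilGen X κ r ∧ g = fun v => ((r v : ℚ) : ℂ)}

variable {X}

theorem RB_of {κ : Type} {r : X.H [⋀^κ]→ₗ[ℚ] ℚ} (h : WeilGen X κ r) :
    (fun v => ((r v : ℚ) : ℂ)) ∈ RB X κ := Submodule.subset_span ⟨r, h, rfl⟩

theorem RB_reindex {κ κ' : Type} (e : κ ≃ κ') {g : (κ → X.H) → ℂ} (hg : g ∈ RB X κ) :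
    (fun v => g (fun k => v (e k))) ∈ RB X κ' := by
  unfold RB at hg
  induction hg using Submodule.span_induction with
  | mem g hg =>
    obtain ⟨r, hr, rfl⟩ := hg
    exact RB_of (hr.reindex e)
  | zero => exact Submodule.zero_mem _
  | add x y _ _ hx hy => exact Submodule.add_mem _ hx hy
  | smul c x _ hx => exact Submodule.smul_mem _ c hx

theorem RB_mul {κ κ' : Type} [Fintype κ] [DecidableEq κ] [Fintype κ'] [DecidableEq κ']
    {g : (κ → X.H) → ℂ} {g' : (κ' → X.H) → ℂ} (hg : g ∈ RB X κ) (hg' : g' ∈ RB X κ') :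
    mulA g g' ∈ RB X (κ ⊕ κ') := by
  unfold RB at hg
  induction hg using Submodule.span_induction with
  | mem g hg =>
    obtain ⟨r, hr, rfl⟩ := hg
    unfold RB at hg'
    induction hg' using Submodule.span_induction with
    | mem g' hg' =>
      obtain ⟨r', hr', rfl⟩ := hg'
      let h : X.H [⋀^κ ⊕ κ']→ₗ[ℚ] ℚ := MultilinearMap.alternatization
        (prd r.toMultilinearMap r'.toMultilinearMap)
      have hh : ∀ v : κ ⊕ κ' → X.H, h v = ∑ σ : Equiv.Perm (κ ⊕ κ'),
          ((Equiv.Perm.sign σ : ℤ) : ℚ) *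
            (r (fun k => v (σ (Sum.inl k))) * r' (fun k => v (σ (Sum.inr k)))) := by
        intro v
        rw [MultilinearMap.alternatization_apply]
        refine Finset.sum_congr rfl fun σ _ => ?_
        rw [MultilinearMap.domDomCongr_apply, prd_apply, Units.smul_def, zsmul_eq_mul]
        rfl
      have h1 := RB_of (WeilGen.cup r r' hr hr' h hh)
      have h2 : (fun v => ((h v : ℚ) : ℂ)) =
          mulA (fun v => ((r v : ℚ) : ℂ)) (fun v => ((r' v : ℚ) : ℂ)) := by
        funext v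
        rw [hh]
        unfold mulA
        push_cast
        rfl
      rwa [h2] at h1
    | zero =>
      have h2 : mulA (fun v => ((r v : ℚ) : ℂ)) (0 : (κ' → X.H) → ℂ) = 0 := by
        funext v
        simp [mulA]
      rw [h2]
      exact Submodule.zero_mem _
    | add x y _ _ hx hy =>
      have h2 : mulA (fun v => ((r v : ℚ) : ℂ)) (x + y) = mulA (fun v => ((r v : ℚ) : ℂ)) x +
          mulA (fun v => ((r v : ℚ) : ℂ)) y := by
        funext v
        simp only [mulA, Pi.add_apply, mul_add, Finset.sum_add_distrib]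
      rw [h2]
      exact Submodule.add_mem _ hx hy
    | smul c x _ hx =>
      have h2 : mulA (fun v => ((r v : ℚ) : ℂ)) (c • x) =
          c • mulA (fun v => ((r v : ℚ) : ℂ)) x := by
        funext v
        simp only [mulA, Pi.smul_apply, smul_eq_mul, Finset.mul_sum]
        refine Finset.sum_congr rfl fun σ _ => by ring
      rw [h2]
      exact Submodule.smul_mem _ _ hx
  | zero =>
    have h2 : mulA (0 : (κ → X.H) → ℂ) g' = 0 := by
      funext v
      simp [mulA]
    rw [h2]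
    exact Submodule.zero_mem _
  | add x y _ _ hx hy =>
    have h2 : mulA (x + y) g' = mulA x g' + mulA y g' := by
      funext v
      simp only [mulA, Pi.add_apply, add_mul, mul_add, Finset.sum_add_distrib]
    rw [h2]
    exact Submodule.add_mem _ hx hy
  | smul c x _ hx =>
    have h2 : mulA (c • x) g' = c • mulA x g' := by
      funext v
      simp only [mulA, Pi.smul_apply, smul_eq_mul, Finset.mul_sum]
      refine Finset.sum_congr rfl fun σ _ => by ring
    rw [h2]
    exact Submodule.smul_mem _ _ hx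

/-- The alternation of a mixed pull-back of a Weil class. -/
theorem RB_weil {κ : Type} [Fintype κ] [DecidableEq κ] {d : ℕ} (e : Fin d ≃ κ) {Y : AV}
    (hY : IsSimple Y) (hIV : IsTypeIV Y) {a : Module.End ℚ Y.H} (ha : MaxField Y a)
    (hd : (minpoly ℚ a).natDegree * d = finrank ℚ Y.H) {w : Y.H [⋀^Fin d]→ₗ[ℚ] ℚ}
    (hw : IsWeilClass Y a w) (g : Fin d → (X.H →ₗ[ℚ] Y.H)) (hg : ∀ k, IsHom X Y (g k)) :
    altFun (R := ℂ) (fun v : κ → X.H => ((w (fun k => g k (v (e k))) : ℚ) : ℂ)) ∈ RB X κ := by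
  classical
  have hsum : ∀ t : Finset (Fin d), IsHom X Y (∑ i ∈ t, g i) := by
    intro t
    choose Ψ hΨ using hg
    refine ⟨∑ i ∈ t, Ψ i, fun v => ?_⟩
    rw [LinearMap.sum_apply, LinearMap.sum_apply, map_sum]
    exact Finset.sum_congr rfl fun i _ => hΨ i v
  have h1 : (fun v : Fin d → X.H => altFun (R := ℂ)
      (fun v : Fin d → X.H => ((w (fun k => g k (v k)) : ℚ) : ℂ)) v) ∈ RB X (Fin d) := by
    have h2 : (fun v : Fin d → X.H => altFun (R := ℂ)
        (fun v : Fin d → X.H => ((w (fun k => g k (v k)) : ℚ) : ℂ)) v) =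
        ∑ t : Finset (Fin d), ((-1 : ℂ) ^ t.card) •
          fun v : Fin d → X.H => ((w.compLinearMap (∑ i ∈ tᶜ, g i) v : ℚ) : ℂ) := by
      funext v
      have h3 := congrFun (altFun_mix w g) v
      have h4 : altFun (R := ℂ) (fun v : Fin d → X.H => ((w (fun k => g k (v k)) : ℚ) : ℂ)) v =
          ((altFun (R := ℚ) (fun v : Fin d → X.H => w (fun k => g k (v k))) v : ℚ) : ℂ) := by
        change ∑ σ : Equiv.Perm (Fin d), ((Equiv.Perm.sign σ : ℤ) : ℂ) *
          ((w (fun k => g k (v (σ k))) : ℚ) : ℂ) = ((∑ σ : Equiv.Perm (Fin d),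
            ((Equiv.Perm.sign σ : ℤ) : ℚ) * w (fun k => g k (v (σ k))) : ℚ) : ℂ)
        push_cast
        rfl
      rw [h4, h3, Finset.sum_apply, Finset.sum_apply, Rat.cast_sum]
      refine Finset.sum_congr rfl fun t _ => ?_
      rw [Pi.smul_apply, Pi.smul_apply, smul_eq_mul, smul_eq_mul, Rat.cast_mul, Rat.cast_pow,
        Rat.cast_neg, Rat.cast_one]
      rfl
    rw [h2]
    exact Submodule.sum_mem _ fun t _ => Submodule.smul_mem _ _
      (RB_of (WeilGen.weil hY hIV a ha hd w hw _ (hsum _)))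
  have h2 := RB_reindex e h1
  refine (congrArg (· ∈ RB X κ) ?_).mp h2
  funext v
  change ∑ σ : Equiv.Perm (Fin d), ((Equiv.Perm.sign σ : ℤ) : ℂ) *
    ((w (fun k => g k (v (e (σ k)))) : ℚ) : ℂ) = ∑ σ : Equiv.Perm κ,
      ((Equiv.Perm.sign σ : ℤ) : ℂ) * ((w (fun k => g k (v (σ (e k)))) : ℚ) : ℂ)
  refine Fintype.sum_equiv (Equiv.permCongr e) _ _ fun σ => ?_
  rw [Equiv.Perm.sign_permCongr]
  simp only [Equiv.permCongr_apply, Equiv.symm_apply_apply]

end rc

section alt

variable {G : ℕ} {Z : Matrix (Fin G) (Fin G) ℂ} (h : PM Z)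

/-- The system of the forms whose alternations belong to the ring. -/
def NB (κ : Type) [Finite κ] :
    Submodule ℂ (MultilinearMap ℂ (fun _ : κ => Fin G ⊕ Fin G → ℂ) ℂ) where
  carrier := {F | ∀ (_ : Fintype κ) (_ : DecidableEq κ), altQ F ∈ RB (AVZ h) κ}
  add_mem' := by
    intro F F' hF hF' i1 i2
    have h1 : altQ (F + F') = altQ F + altQ F' := by
      funext v
      simp only [altQ, _root_.add_apply, mul_add, Finset.sum_add_distrib, Pi.add_apply]
    rw [h1]
    exact Submodule.add_mem _ (hF i1 i2) (hF' i1 i2)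
  zero_mem' := by
    intro i1 i2
    have h1 : altQ (0 : MultilinearMap ℂ (fun _ : κ => Fin G ⊕ Fin G → ℂ) ℂ) = 0 := by
      funext v
      simp only [altQ, _root_.zero_apply, mul_zero, Finset.sum_const_zero, Pi.zero_apply]
    rw [h1]
    exact Submodule.zero_mem _
  smul_mem' := by
    intro c F hF i1 i2
    have h1 : altQ (c • F) = c • altQ F := by
      funext v
      simp only [altQ, _root_.smul_apply, smul_eq_mul, Pi.smul_apply, Finset.mul_sum]
      refine Finset.sum_congr rfl fun σ _ => by ring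
    rw [h1]
    exact Submodule.smul_mem _ _ (hF i1 i2)

theorem clo_NB : Clo (NB h) := by
  constructor
  · intro κ _ _ F i1 i2
    have h1 : altQ F = F 0 • (fun _ => (((1 : ℚ)) : ℂ)) := by
      funext v
      unfold altQ
      rw [Fintype.sum_unique, Pi.smul_apply, smul_eq_mul]
      have h2 : (fun k => Y90.cv (v ((default : Equiv.Perm κ) k))) =
          (0 : κ → Fin G ⊕ Fin G → ℂ) := by
        funext k
        exact isEmptyElim k
      rw [h2, Subsingleton.elim (default : Equiv.Perm κ) 1, Equiv.Perm.sign_one]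
      push_cast
      ring
    rw [h1]
    refine Submodule.smul_mem _ _ ?_
    exact RB_of (X := AVZ h) (WeilGen.unit (AlternatingMap.constOfIsEmpty ℚ (AVZ h).H κ 1))
  · intro κ κ' κ'' _ _ _ e φ φ' ψ hφ hφ' hψ i1 i2
    let j1 : Fintype κ := Fintype.ofFinite κ
    let j2 : Fintype κ' := Fintype.ofFinite κ'
    let k1 : DecidableEq κ := Classical.decEq κ
    let k2 : DecidableEq κ' := Classical.decEq κ'
    have h1 := RB_reindex e (RB_mul (hφ j1 k1) (hφ' j2 k2))
    have h2 : altQ ψ = ((Fintype.card (Equiv.Perm κ) : ℂ) *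
        (Fintype.card (Equiv.Perm κ') : ℂ))⁻¹ •
        fun v : κ'' → (AVZ h).H => mulA (X := AVZ h) (altQ φ) (altQ φ') (fun k => v (e k)) := by
      funext v
      rw [Pi.smul_apply, smul_eq_mul, mulA_altQ, ← mul_assoc, inv_mul_cancel₀, one_mul]
      · unfold altQ
        rw [← Equiv.sum_comp (Equiv.permCongr e) (fun σ : Equiv.Perm κ'' =>
          ((Equiv.Perm.sign σ : ℤ) : ℂ) * ψ (fun k => Y90.cv (v (σ k))))]
        refine Finset.sum_congr rfl fun σ _ => ?_
        rw [Equiv.Perm.sign_permCongr, hψ]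
        simp only [Equiv.permCongr_apply, Equiv.symm_apply_apply]
      · refine mul_ne_zero ?_ ?_ <;> exact_mod_cast Fintype.card_ne_zero
    rw [h2]
    exact Submodule.smul_mem _ _ h1

/-- Invariant forms of degree two. -/
theorem pair_NB {b : (Fin G ⊕ Fin G → ℂ) →ₗ[ℂ] (Fin G ⊕ Fin G → ℂ) →ₗ[ℂ] ℂ}
    (hb : Pool.Agent.K9h17.G.KB Z b) : bil2 b ∈ NB h (Fin 2) := by
  intro i1 i2
  obtain rfl : i1 = Fin.fintype 2 := Subsingleton.elim _ _
  obtain rfl : i2 = instDecidableEqFin 2 := Subsingleton.elim _ _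
  obtain ⟨m, c, l, hl⟩ := altQ_expand (bil2 b)
  have h1 : altQ (bil2 b) =
      ∑ j, c j • fun v : Fin 2 → (AVZ h).H => ((ratA (bil2 b) (l j) v : ℚ) : ℂ) := by
    funext v
    rw [hl v, Finset.sum_apply]
    rfl
  rw [h1]
  refine Submodule.sum_mem _ fun j _ => Submodule.smul_mem _ _ ?_
  refine RB_of (X := AVZ h) (WeilGen.divisor (X := AVZ h) (κ := Fin 2) (Nat.card_fin 2) _
    (h.cht.hodge_rat gal_LZ DZ_mem (fun X hX => act_of_kills fun v => ?_) (l j)))
  rw [Fin.sum_univ_two]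
  exact hb X hX (v 0) (v 1)

/-- The mixed pull-backs of Weil classes. -/
def WM (X : AV) (κ : Type) : Set ((κ → X.H) → ℂ) :=
  {g | ∃ (Y : AV) (a : Module.End ℚ Y.H) (d : ℕ) (w : Y.H [⋀^Fin d]→ₗ[ℚ] ℚ) (e : Fin d ≃ κ)
    (h : Fin d → (X.H →ₗ[ℚ] Y.H)), IsSimple Y ∧ IsTypeIV Y ∧ MaxField Y a ∧
    (minpoly ℚ a).natDegree * d = finrank ℚ Y.H ∧ IsWeilClass Y a w ∧ (∀ k, IsHom X Y (h k)) ∧
    g = fun v => ((w (fun k => h k (v (e k))) : ℚ) : ℂ)}

theorem altQ_eq {κ : Type} [Fintype κ] [DecidableEq κ]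
    (F : MultilinearMap ℂ (fun _ : κ => Fin G ⊕ Fin G → ℂ) ℂ) :
    altQ F = altFun (R := ℂ) (fun v : κ → (AVZ h).H => F (fun k => Y90.cv (v k))) := rfl

/-- Combinations of mixed pull-backs of Weil classes. -/
theorem NB_of {κ : Type} [Finite κ] {F : MultilinearMap ℂ (fun _ : κ => Fin G ⊕ Fin G → ℂ) ℂ}
    (hF : (fun v : κ → (AVZ h).H => F (fun k => Y90.cv (v k))) ∈
      Submodule.span ℂ (WM (AVZ h) κ)) : F ∈ NB h κ := by
  intro i1 i2
  rw [altQ_eq h F]
  have h1 : Submodule.map (altFun (R := ℂ)) (Submodule.span ℂ (WM (AVZ h) κ)) ≤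
      RB (AVZ h) κ := by
    rw [Submodule.map_span, Submodule.span_le]
    rintro _ ⟨_, ⟨Y, a, d, w, e, g, h1, hIV, h2, h3, h4, h5, rfl⟩, rfl⟩
    exact RB_weil e h1 hIV h2 h3 h4 g h5
  exact h1 (Submodule.mem_map_of_mem hF)

end alt

end

end Pool.Agent.K9h17.H
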