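import Mathlib
import Pool.Agent.K9h17.C.Low
import Pool.Agent.K9h17.G.Glob
import Pool.Agent.W437.HD.Gen
import Pool.Agent.N183.TS.Self

/-!
# Rational forms that are combinations of products of pairs
-/

set_option linter.unusedSectionVars false

namespace Pool.Agent.K9h17.H

open Matrix Module Pool.Agent.W437.HC Pool.Agent.W437.HD Pool.Agent.W548.Odd
open Pool.Agent.H204R3.SP Pool.Agent.H204R3.GP Pool.Agent.Y90 Pool.Agent.Y224.TS
open Pool.Agent.N183.TS Pool.Agent.N183.U5 Pool.Agent.K9h17.G Pool.Agent.K9h17.C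

noncomputable section

variable {G : ℕ} {Z : Matrix (Fin G) (Fin G) ℂ}

/-- The rational expansion of an invariant bilinear form. -/
theorem kb_rat {β : (Fin G ⊕ Fin G → ℂ) →ₗ[ℂ] (Fin G ⊕ Fin G → ℂ) →ₗ[ℂ] ℂ} (hβ : KB Z β) :
    ∃ (m : ℕ) (c : Fin m → ℂ) (r : Fin m → (Fin 2 → Fin G ⊕ Fin G) → ℚ),
      (∀ j, IsH (DZ Z) (r j)) ∧ ∀ i i', β (Pi.single i 1) (Pi.single i' 1) =
        ∑ j, c j * ((r j ![i, i'] : ℚ) : ℂ) := by
  classical
  have h0 : ∀ X ∈ LZ Z, act X (CF (bil2 β)) = 0 := by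
    intro X hX
    refine act_of_kills fun v => ?_
    rw [Fin.sum_univ_two, bil2_apply, bil2_apply, Function.update_self, Function.update_self,
      Function.update_of_ne (by decide), Function.update_of_ne (by decide)]
    exact hβ X hX (v 0) (v 1)
  obtain ⟨m, c, l, hl⟩ := rat_expand (bil2 β)
  refine ⟨m, c, fun j I => l j (CF (bil2 β) I), fun j => kill_lam gal_LZ h0 (l j) _ DZ_mem,
    fun i i' => ?_⟩
  have h1 := hl fun k => Pi.single (![i, i'] k) 1
  have h2 : (fun k => Y90.cv ((Pi.single (![i, i'] k) 1 : Fin G ⊕ Fin G → ℚ))) =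
      fun k : Fin 2 => (Pi.single (![i, i'] k) 1 : Fin G ⊕ Fin G → ℂ) := by
    funext k
    rw [single_cv]
  rw [h2] at h1
  have h3 : bil2 β (fun k : Fin 2 => (Pi.single (![i, i'] k) 1 : Fin G ⊕ Fin G → ℂ)) =
      β (Pi.single i 1) (Pi.single i' 1) := by
    rw [bil2_apply]
    rfl
  rw [h3] at h1
  rw [h1]
  refine Finset.sum_congr rfl fun j _ => ?_
  congr 3

/-- The generators of `MS`. -/
def MG (Z : Matrix (Fin G) (Fin G) ℂ) (m : ℕ) : Set ((Fin m × Fin 2 → Fin G ⊕ Fin G) → ℚ) :=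
  {F | ∃ (e : Equiv.Perm (Fin m × Fin 2)) (b : Fin m → (Fin 2 → Fin G ⊕ Fin G) → ℚ),
    (∀ s, IsH (DZ Z) (b s)) ∧ F = fun I => ∏ s, b s ![I (e (s, 0)), I (e (s, 1))]}

theorem np_coef {m : ℕ} {φ : MultilinearMap ℂ (fun _ : Fin m × Fin 2 => Fin G ⊕ Fin G → ℂ) ℂ}
    (h : φ ∈ NP (KB Z) (Fin m × Fin 2)) :
    CF φ ∈ Submodule.span ℂ {g : ((Fin m × Fin 2 → Fin G ⊕ Fin G) → ℂ) |
      ∃ s ∈ MG Z m, g = fun x => algebraMap ℚ ℂ (s x)} := by
  classical
  unfold NP at h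
  induction h using Submodule.span_induction with
  | mem φ hφ =>
    obtain ⟨A, iA, e, B, hB, hφ⟩ := hφ
    have hc : Fintype.card A = Fintype.card (Fin m) := by
      have h1 := Fintype.card_congr e
      rw [Fintype.card_prod, Fintype.card_prod, Fintype.card_fin, Fintype.card_fin] at h1
      rw [Fintype.card_fin]
      omega
    let f : A ≃ Fin m := Fintype.equivOfCardEq hc
    let e' : Equiv.Perm (Fin m × Fin 2) := (Equiv.prodCongr f.symm (Equiv.refl _)).trans e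
    have h1 : ∀ l : Fin m, ∃ (n : ℕ) (c : Fin n → ℂ) (r : Fin n → (Fin 2 → Fin G ⊕ Fin G) → ℚ),
      (∀ j, IsH (DZ Z) (r j)) ∧ ∀ i i', B (f.symm l) (Pi.single i 1) (Pi.single i' 1) =
        ∑ j, c j * ((r j ![i, i'] : ℚ) : ℂ) := fun l => kb_rat (hB _)
    choose n c r hr hr' using h1
    have h2 : CF φ = ∑ p ∈ Fintype.piFinset (fun l : Fin m => (Finset.univ : Finset (Fin (n l)))),
        (∏ l, c l (p l)) • fun I : Fin m × Fin 2 → Fin G ⊕ Fin G =>
          algebraMap ℚ ℂ (∏ l, r l (p l) ![I (e' (l, 0)), I (e' (l, 1))]) := by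
      funext I
      rw [Finset.sum_apply]
      change φ (fun k => Pi.single (I k) 1) = _
      rw [hφ, ← Equiv.prod_comp f.symm (fun a => B a (Pi.single (I (e (a, 0))) 1)
        (Pi.single (I (e (a, 1))) 1))]
      have h3 : ∀ l : Fin m, B (f.symm l) (Pi.single (I (e (f.symm l, 0))) 1)
          (Pi.single (I (e (f.symm l, 1))) 1) =
          ∑ j, c l j * ((r l j ![I (e' (l, 0)), I (e' (l, 1))] : ℚ) : ℂ) := fun l => hr' l _ _
      rw [Finset.prod_congr rfl fun l _ => h3 l, Finset.prod_univ_sum]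
      refine Finset.sum_congr rfl fun p _ => ?_
      rw [Pi.smul_apply, smul_eq_mul, map_prod, ← Finset.prod_mul_distrib]
      rfl
    rw [h2]
    refine Submodule.sum_mem _ fun p _ => Submodule.smul_mem _ _ (Submodule.subset_span
      ⟨_, ⟨e', fun l => r l (p l), fun l => hr l (p l), rfl⟩, rfl⟩)
  | zero => exact Submodule.zero_mem _
  | add x y _ _ hx hy => exact Submodule.add_mem _ hx hy
  | smul c x _ hx => exact Submodule.smul_mem _ c hx

theorem CF_evalM {κ : Type} [Fintype κ] [DecidableEq κ] (c : (κ → Fin G ⊕ Fin G) → ℂ) :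
    CF (evalM c) = c := by
  funext I
  change evalF c (fun k => Pi.single (I k) 1) = _
  exact evalF_single c I

/-- **Descent.** -/
theorem mem_MS {m : ℕ} {c : (Fin m × Fin 2 → Fin G ⊕ Fin G) → ℚ}
    (h : evalM (cst ℂ c) ∈ NP (KB Z) (Fin m × Fin 2)) : c ∈ MS (DZ Z) m := by
  refine span_descent_k (Ω := ℂ) (MG Z m) c ?_
  have h1 := np_coef h
  rw [CF_evalM] at h1
  exact h1

/-- The Lie algebra kills the rational forms killed by the complex structure. -/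
theorem kills_of_isH {κ : Type} [Fintype κ] [DecidableEq κ] {c : (κ → Fin G ⊕ Fin G) → ℚ}
    (hc : IsH (DZ Z) c) {X : Matrix (Fin G ⊕ Fin G) (Fin G ⊕ Fin G) ℂ} (hX : X ∈ LZ Z) :
    Kills (ph (Fin G ⊕ Fin G) X) (evalM (cst ℂ c)) := by
  have h1 : X ∈ lieM (DZ Z) ℂ := by
    refine LA_le_lieM ?_ hX
    intro d hd
    rw [Set.mem_singleton_iff.1 hd]
    exact D_mem _
  refine kills_of_act ?_
  rw [CF_evalM]
  exact lieM_kills _ h1 hc

/-- Hodge classes in all codimensions. -/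
theorem ms_nondeg (hZ : PM Z) (hs : Gd Z (Set.range (DS Z)))
    {M : Matrix (Fin G ⊕ Fin G) (Fin G ⊕ Fin G) ℚ} (k : CG Z M) (nd : NdZ Z M) {m : ℕ}
    {c : (Fin m × Fin 2 → Fin G ⊕ Fin G) → ℚ} (hc : IsH (DZ Z) c) : c ∈ MS (DZ Z) m := by
  refine mem_MS (kill_NP (td_self hZ) hZ hs k nd _ ?_)
  rintro _ ⟨σ, rfl⟩
  exact kills_of_isH hc (DS_mem σ)

/-- Hodge classes in low codimension. -/
theorem ms_low (hZ : PM Z) (hs : Gd Z (Set.range (DS Z))) {N : ℕ}
    (hl : ∀ U : Submodule ℂ (Fin G ⊕ Fin G → ℂ), IrS (LZ Z) U → LgU Z N U) {m : ℕ}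
    (hm : 2 * m < N) {c : (Fin m × Fin 2 → Fin G ⊕ Fin G) → ℚ} (hc : IsH (DZ Z) c) :
    c ∈ MS (DZ Z) m := by
  refine mem_MS (kill_LP (td_self hZ) hZ hs hl hm _ ?_)
  rintro _ ⟨σ, rfl⟩
  exact kills_of_isH hc (DS_mem σ)

end

end Pool.Agent.K9h17.H
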