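import Mathlib
import Pool.Agent.K9h17.H.Fin
import Pool.Agent.K9h17.E.Alt

/-!
# The components of a Hodge class on a power
-/

set_option linter.unusedSectionVars false

namespace Pool.Agent.K9h17.H

open Equiv Module Pool.Agent.Y90 Pool.Agent.H204R3.CM Pool.Agent.N183.U5 Pool.Agent.K9h17.E

noncomputable section

variable {X : AV} {a : Module.End ℚ X.H} {d n m : ℕ}

/-- The products of Hodge tensors of degree two and of Weil classes with endomorphisms. -/
def GX (X : AV) (a : Module.End ℚ X.H) (d : ℕ) (κ : Type) : Set ((κ → X.H) → ℚ) :=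
  {G | ∃ (r s : ℕ) (e : (Fin r × Fin 2) ⊕ (Fin s × Fin d) ≃ κ)
    (β : Fin r → MultilinearMap ℚ (fun _ : Fin 2 => X.H) ℚ)
    (w : Fin s → X.H [⋀^Fin d]→ₗ[ℚ] ℚ) (h : Fin s → Fin d → Module.End ℚ X.H),
    (∀ l, IsHodgeTensor X.per (β l)) ∧
    (∀ j, IsWeilClass X a (w j)) ∧ (∀ j k, IsHom X X (h j k)) ∧
    G = PP e (fun l v => β l v) (fun j v => w j (fun k => h j k (v k)))}

theorem comp_hodge {κ : Type} {f : (Fin n → X.H) [⋀^κ]→ₗ[ℚ] ℚ}
    (hf : IsHodge (X.per.compLeft (Fin n)) f) (ι : κ → Fin n) :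
    IsHodgeTensor X.per (comp f.toMultilinearMap ι) := by
  obtain ⟨ψ, h1, h2⟩ := hf
  refine ⟨comp ψ ι, fun v => ?_, fun z hz u => ?_⟩
  · change ψ (fun l => Pi.single (ι l) (X.per (v l))) =
      ((f (fun l => Pi.single (ι l) (v l)) : ℚ) : ℝ)
    rw [← h1]
    congr 1
    funext l i
    change _ = X.per ((Pi.single (ι l) (v l) : Fin n → X.H) i)
    by_cases hi : i = ι l
    · subst hi
      rw [Pi.single_eq_same, Pi.single_eq_same]
    · rw [Pi.single_eq_of_ne hi, Pi.single_eq_of_ne hi, map_zero]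
  · change ψ (fun l => Pi.single (ι l) (z • u l)) = ψ (fun l => Pi.single (ι l) (u l))
    refine Eq.trans ?_ (h2 z hz fun l => Pi.single (ι l) (u l))
    congr 1
    funext l i
    change _ = z • (Pi.single (ι l) (u l) : Fin n → X.T) i
    by_cases hi : i = ι l
    · subst hi
      rw [Pi.single_eq_same, Pi.single_eq_same]
    · rw [Pi.single_eq_of_ne hi, Pi.single_eq_of_ne hi, smul_zero]

/-- If all Hodge tensors on `X` are combinations of products then all Hodge classes on `X ^ n` are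
in the span. -/
theorem weilSpan_of_tensors
    (hall : ∀ r : MultilinearMap ℚ (fun _ : Fin m × Fin 2 => X.H) ℚ, IsHodgeTensor X.per r →
      (fun v => r v) ∈ Submodule.span ℚ (GX X a d (Fin m × Fin 2)))
    (f : (Fin n → X.H) [⋀^Fin m × Fin 2]→ₗ[ℚ] ℚ) (hf : IsHodge (X.per.compLeft (Fin n)) f) :
    f ∈ weilSpan X a d n m := by
  refine mem_weilSpan f ?_
  have h1 : (fun v => f v) = ∑ ι : Fin m × Fin 2 → Fin n,
      fun v : Fin m × Fin 2 → Fin n → X.H => comp f.toMultilinearMap ι (fun l => v l (ι l)) := by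
    funext v
    rw [Finset.sum_apply]
    exact sum_comp f.toMultilinearMap v
  rw [h1]
  refine Submodule.sum_mem _ fun ι _ => ?_
  let L : (((Fin m × Fin 2) → X.H) → ℚ) →ₗ[ℚ] (((Fin m × Fin 2) → Fin n → X.H) → ℚ) :=
    { toFun := fun g v => g (fun l => v l (ι l))
      map_add' := fun _ _ => rfl
      map_smul' := fun _ _ => rfl }
  have h2 : L (fun v => comp f.toMultilinearMap ι v) ∈
      (Submodule.span ℚ (GX X a d (Fin m × Fin 2))).map L :=
    Submodule.mem_map_of_mem (hall _ (comp_hodge hf ι))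
  rw [Submodule.map_span] at h2
  refine Submodule.span_mono ?_ h2
  rintro _ ⟨_, ⟨r, s, e, β, w, h, h3, h4, h5, rfl⟩, rfl⟩
  refine ⟨r, s, e, fun l => pull (β l) (fun ε => ι (e (Sum.inl (l, ε)))), w,
    fun j k => (h j k).comp (LinearMap.proj (ι (e (Sum.inr (j, k))))), fun l => ?_, h4,
    fun j k => ?_, rfl⟩
  · exact isHodge_alt (h3 l) _
  · obtain ⟨Ψ, hΨ⟩ := h5 j k
    exact ⟨Ψ.comp (LinearMap.proj (ι (e (Sum.inr (j, k))))), fun v => hΨ _⟩

end

end Pool.Agent.K9h17.H
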