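import Mathlib
import Pool.Agent.K9h17.H.Comp

/-!
# The complex span of the products is closed under products
-/

set_option linter.unusedSectionVars false

namespace Pool.Agent.K9h17.H

open Equiv Module Pool.Agent.Y90 Pool.Agent.H204R3.CM Pool.Agent.N183.U5

noncomputable section

variable {X : AV} {a : Module.End ℚ X.H} {d : ℕ}

/-- The products with arbitrary finite index types. -/
theorem gx_of {κ : Type} {A A' : Type} [Fintype A] [Fintype A']
    (e : (A × Fin 2) ⊕ (A' × Fin d) ≃ κ)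
    (β : A → MultilinearMap ℚ (fun _ : Fin 2 => X.H) ℚ)
    (w : A' → X.H [⋀^Fin d]→ₗ[ℚ] ℚ) (h : A' → Fin d → Module.End ℚ X.H)
    (h1 : ∀ l, IsHodgeTensor X.per (β l)) (h2 : ∀ j, IsWeilClass X a (w j))
    (h3 : ∀ j k, IsHom X X (h j k)) :
    PP e (fun l v => β l v) (fun j v => w j (fun k => h j k (v k))) ∈ GX X a d κ := by
  let f := Fintype.equivFin A
  let f' := Fintype.equivFin A'
  let e' : (Fin (Fintype.card A) × Fin 2) ⊕ (Fin (Fintype.card A') × Fin d) ≃ κ :=
    (Equiv.sumCongr (Equiv.prodCongr f.symm (Equiv.refl (Fin 2)))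
      (Equiv.prodCongr f'.symm (Equiv.refl (Fin d)))).trans e
  refine ⟨_, _, e', fun l => β (f.symm l), fun j => w (f'.symm j), fun j => h (f'.symm j),
    fun l => h1 _, fun j => h2 _, fun j => h3 _, ?_⟩
  funext v
  change (∏ l, β l (fun ε => v (e (Sum.inl (l, ε))))) *
    (∏ j, w j (fun k => h j k (v (e (Sum.inr (j, k)))))) =
    (∏ l, β (f.symm l) (fun ε => v (e (Sum.inl (f.symm l, ε))))) *
    (∏ j, w (f'.symm j) (fun k => h (f'.symm j) k (v (e (Sum.inr (f'.symm j, k))))))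
  rw [Equiv.prod_comp f.symm (fun l => β l (fun ε => v (e (Sum.inl (l, ε))))),
    Equiv.prod_comp f'.symm (fun j => w j (fun k => h j k (v (e (Sum.inr (j, k))))))]

/-- Products of products. -/
theorem gx_mul {κ κ' κ'' : Type} (e₀ : κ ⊕ κ' ≃ κ'') {F : (κ → X.H) → ℚ} {F' : (κ' → X.H) → ℚ}
    (hF : F ∈ GX X a d κ) (hF' : F' ∈ GX X a d κ') :
    (fun v : κ'' → X.H => F (fun k => v (e₀ (Sum.inl k))) * F' (fun k => v (e₀ (Sum.inr k)))) ∈
      GX X a d κ'' := by
  obtain ⟨r, s, e, β, w, h, h1, h2, h3, rfl⟩ := hF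
  obtain ⟨r', s', e', β', w', h', h1', h2', h3', rfl⟩ := hF'
  have h4 := gx_of (X := X) (a := a) (d := d) (κ := κ'') (A := Fin r ⊕ Fin r')
    (A' := Fin s ⊕ Fin s')
    ((Equiv.sumCongr (Equiv.sumProdDistrib (Fin r) (Fin r') (Fin 2))
      (Equiv.sumProdDistrib (Fin s) (Fin s') (Fin d))).trans
      ((Equiv.sumSumSumComm (Fin r × Fin 2) (Fin r' × Fin 2) (Fin s × Fin d)
        (Fin s' × Fin d)).trans ((Equiv.sumCongr e e').trans e₀)))
    (Sum.elim β β') (Sum.elim w w') (Sum.elim h h')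
    (by rintro (l | l); exacts [h1 l, h1' l]) (by rintro (j | j); exacts [h2 j, h2' j])
    (by rintro (j | j); exacts [h3 j, h3' j])
  refine (congrArg (· ∈ GX X a d κ'') ?_).mp h4
  funext v
  change (∏ l : Fin r ⊕ Fin r', _) * (∏ j : Fin s ⊕ Fin s', _) = _
  rw [Fintype.prod_sum_type, Fintype.prod_sum_type]
  change ((∏ l, β l (fun ε => v (e₀ (Sum.inl (e (Sum.inl (l, ε))))))) *
      (∏ l, β' l (fun ε => v (e₀ (Sum.inr (e' (Sum.inl (l, ε)))))))) *
    ((∏ j, w j (fun k => h j k (v (e₀ (Sum.inl (e (Sum.inr (j, k)))))))) *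
      (∏ j, w' j (fun k => h' j k (v (e₀ (Sum.inr (e' (Sum.inr (j, k))))))))) =
    ((∏ l, β l (fun ε => v (e₀ (Sum.inl (e (Sum.inl (l, ε))))))) *
      (∏ j, w j (fun k => h j k (v (e₀ (Sum.inl (e (Sum.inr (j, k))))))))) *
    ((∏ l, β' l (fun ε => v (e₀ (Sum.inr (e' (Sum.inl (l, ε))))))) *
      (∏ j, w' j (fun k => h' j k (v (e₀ (Sum.inr (e' (Sum.inr (j, k)))))))))
  ring

/-- The complex span. -/
def SC (X : AV) (a : Module.End ℚ X.H) (d : ℕ) (κ : Type) : Submodule ℂ ((κ → X.H) → ℂ) :=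
  Submodule.span ℂ {g | ∃ F ∈ GX X a d κ, g = fun v => algebraMap ℚ ℂ (F v)}

theorem sc_of {κ : Type} {F : (κ → X.H) → ℚ} (hF : F ∈ GX X a d κ) :
    (fun v => algebraMap ℚ ℂ (F v)) ∈ SC X a d κ := Submodule.subset_span ⟨F, hF, rfl⟩

theorem sc_mul {κ κ' κ'' : Type} (e₀ : κ ⊕ κ' ≃ κ'') {g : (κ → X.H) → ℂ} {g' : (κ' → X.H) → ℂ}
    (hg : g ∈ SC X a d κ) (hg' : g' ∈ SC X a d κ') :
    (fun v : κ'' → X.H => g (fun k => v (e₀ (Sum.inl k))) * g' (fun k => v (e₀ (Sum.inr k)))) ∈
      SC X a d κ'' := by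
  unfold SC at hg hg'
  induction hg using Submodule.span_induction with
  | mem g hg =>
    obtain ⟨F, hF, rfl⟩ := hg
    induction hg' using Submodule.span_induction with
    | mem g' hg' =>
      obtain ⟨F', hF', rfl⟩ := hg'
      have h1 := sc_of (gx_mul e₀ hF hF')
      simpa only [map_mul] using h1
    | zero =>
      have h1 : (fun v : κ'' → X.H => algebraMap ℚ ℂ (F (fun k => v (e₀ (Sum.inl k)))) *
          (0 : (κ' → X.H) → ℂ) (fun k => v (e₀ (Sum.inr k)))) = 0 := by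
        funext v
        simp
      rw [h1]
      exact Submodule.zero_mem _
    | add x y _ _ hx hy =>
      have h1 : (fun v : κ'' → X.H => algebraMap ℚ ℂ (F (fun k => v (e₀ (Sum.inl k)))) *
          (x + y) (fun k => v (e₀ (Sum.inr k)))) =
          (fun v => algebraMap ℚ ℂ (F (fun k => v (e₀ (Sum.inl k)))) *
            x (fun k => v (e₀ (Sum.inr k)))) +
          fun v => algebraMap ℚ ℂ (F (fun k => v (e₀ (Sum.inl k)))) *
            y (fun k => v (e₀ (Sum.inr k))) := by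
        funext v
        simp only [Pi.add_apply, mul_add]
      rw [h1]
      exact Submodule.add_mem _ hx hy
    | smul c x _ hx =>
      have h1 : (fun v : κ'' → X.H => algebraMap ℚ ℂ (F (fun k => v (e₀ (Sum.inl k)))) *
          (c • x) (fun k => v (e₀ (Sum.inr k)))) =
          c • fun v => algebraMap ℚ ℂ (F (fun k => v (e₀ (Sum.inl k)))) *
            x (fun k => v (e₀ (Sum.inr k))) := by
        funext v
        simp only [Pi.smul_apply, smul_eq_mul]
        ring
      rw [h1]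
      exact Submodule.smul_mem _ c hx
  | zero =>
    have h1 : (fun v : κ'' → X.H => (0 : (κ → X.H) → ℂ) (fun k => v (e₀ (Sum.inl k))) *
        g' (fun k => v (e₀ (Sum.inr k)))) = 0 := by
      funext v
      simp
    rw [h1]
    exact Submodule.zero_mem _
  | add x y _ _ hx hy =>
    have h1 : (fun v : κ'' → X.H => (x + y) (fun k => v (e₀ (Sum.inl k))) *
        g' (fun k => v (e₀ (Sum.inr k)))) =
        (fun v => x (fun k => v (e₀ (Sum.inl k))) * g' (fun k => v (e₀ (Sum.inr k)))) +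
        fun v => y (fun k => v (e₀ (Sum.inl k))) * g' (fun k => v (e₀ (Sum.inr k))) := by
      funext v
      simp only [Pi.add_apply, add_mul]
    rw [h1]
    exact Submodule.add_mem _ hx hy
  | smul c x _ hx =>
    have h1 : (fun v : κ'' → X.H => (c • x) (fun k => v (e₀ (Sum.inl k))) *
        g' (fun k => v (e₀ (Sum.inr k)))) =
        c • fun v => x (fun k => v (e₀ (Sum.inl k))) * g' (fun k => v (e₀ (Sum.inr k))) := by
      funext v
      simp only [Pi.smul_apply, smul_eq_mul]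
      ring
    rw [h1]
    exact Submodule.smul_mem _ c hx

theorem sc_const {κ : Type} [IsEmpty κ] (g : (κ → X.H) → ℂ) : g ∈ SC X a d κ := by
  have h1 := gx_of (X := X) (a := a) (d := d) (κ := κ) (A := Empty) (A' := Empty)
    (Equiv.equivOfIsEmpty _ _) Empty.elim Empty.elim Empty.elim (fun l => l.elim)
    (fun l => l.elim) (fun l => l.elim)
  have h2 := Submodule.smul_mem _ (g (fun k => isEmptyElim k)) (sc_of h1)
  refine (congrArg (· ∈ SC X a d κ) ?_).mp h2
  funext v
  have h3 : v = fun k => isEmptyElim k := Subsingleton.elim _ _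
  change g (fun k => isEmptyElim k) * algebraMap ℚ ℂ ((∏ l : Empty, _) * (∏ j : Empty, _)) = g v
  rw [h3, Finset.univ_eq_empty, Finset.prod_empty, Finset.prod_empty, mul_one, map_one, mul_one]

/-- Bilinear Hodge tensors. -/
theorem sc_pair {r : MultilinearMap ℚ (fun _ : Fin 2 => X.H) ℚ} (hr : IsHodgeTensor X.per r) :
    (fun v => algebraMap ℚ ℂ (r v)) ∈ SC X a d (Fin 2) := by
  have h1 := gx_of (X := X) (a := a) (d := d) (κ := Fin 2) (A := Unit) (A' := Empty)
    ((Equiv.sumEmpty (Unit × Fin 2) (Empty × Fin d)).trans (Equiv.punitProd (Fin 2)))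
    (fun _ => r) Empty.elim Empty.elim (fun _ => hr) (fun l => l.elim) (fun l => l.elim)
  refine (congrArg (· ∈ SC X a d (Fin 2)) ?_).mp (sc_of h1)
  funext v
  change algebraMap ℚ ℂ ((∏ l : Unit, _) * (∏ j : Empty, _)) = _
  rw [Fintype.prod_unique, Fintype.prod_empty, mul_one]
  rfl

/-- Weil classes. -/
theorem sc_weil {κ : Type} (e : Fin d ≃ κ) {w : X.H [⋀^Fin d]→ₗ[ℚ] ℚ} (hw : IsWeilClass X a w)
    (h : Fin d → Module.End ℚ X.H) (hh : ∀ k, IsHom X X (h k)) :
    (fun v : κ → X.H => algebraMap ℚ ℂ (w (fun k => h k (v (e k))))) ∈ SC X a d κ := by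
  have h1 := gx_of (X := X) (a := a) (d := d) (κ := κ) (A := Empty) (A' := Unit)
    (((Equiv.emptySum (Empty × Fin 2) (Unit × Fin d)).trans (Equiv.punitProd (Fin d))).trans e)
    Empty.elim (fun _ => w) (fun _ => h) (fun l => l.elim) (fun _ => hw) (fun _ => hh)
  refine (congrArg (· ∈ SC X a d κ) ?_).mp (sc_of h1)
  funext v
  change algebraMap ℚ ℂ ((∏ l : Empty, _) * (∏ j : Unit, _)) = _
  rw [Fintype.prod_empty, one_mul, Fintype.prod_unique]
  rfl

end

end Pool.Agent.K9h17.H
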