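import Mathlib
import Pool.Agent.K9h17.H.Sys
import Pool.Agent.K9h17.H.Ms
import Pool.Agent.N183.U5.Cls

/-!
# The determinants of the eigenspaces and Weil classes
-/

set_option linter.unusedSectionVars false

namespace Pool.Agent.K9h17.H

open Matrix Module Pool.Agent.W437.HC Pool.Agent.W437.HD Pool.Agent.TH504.CB Pool.Agent.Y90
open Pool.Agent.W548.Odd hiding cv
open Pool.Agent.H204R3.CM (IsHodge)
open Pool.Agent.W437.HP (cK cK_mul cK_one)
open Pool.Agent.R915 (VE mem_VE VE_cj VE_stab hom_iff)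
open Pool.Agent.N183.TS Pool.Agent.N183.U5 Pool.Agent.Y224.TS

noncomputable section

variable {G : ℕ} {Z : Matrix (Fin G) (Fin G) ℂ}

/-- An eigenspace of the endomorphism `M` with a projector, with balanced multiplicities. -/
structure EP (Z : Matrix (Fin G) (Fin G) ℂ) (M : Matrix (Fin G ⊕ Fin G) (Fin G ⊕ Fin G) ℚ) (s : ℂ)
    (U : Submodule ℂ (Fin G ⊕ Fin G → ℂ)) (P : Matrix (Fin G ⊕ Fin G) (Fin G ⊕ Fin G) ℂ) :
    Prop where
  irr : IrS (LZ Z) U
  mem : ∀ v, P *ᵥ v ∈ U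
  id : ∀ v ∈ U, P *ᵥ v = v
  comm : ∀ X ∈ LZ Z, X * P = P * X
  eg : ∀ v ∈ U, qm M *ᵥ v = s • v
  cM : qm M * P = P * qm M
  bal : ∀ τ : ℂ ≃+* ℂ, tr Z (cjS τ U) = 0

variable {M : Matrix (Fin G ⊕ Fin G) (Fin G ⊕ Fin G) ℚ} {s : ℂ}
  {U : Submodule ℂ (Fin G ⊕ Fin G → ℂ)} {P : Matrix (Fin G ⊕ Fin G) (Fin G ⊕ Fin G) ℂ}

/-- The projection. -/
def EP.pU (h : EP Z M s U P) : (Fin G ⊕ Fin G → ℂ) →ₗ[ℂ] U := (mulVecLin P).codRestrict U h.mem

theorem EP.pU_coe (h : EP Z M s U P) (v : Fin G ⊕ Fin G → ℂ) :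
    (h.pU v : Fin G ⊕ Fin G → ℂ) = P *ᵥ v := rfl

theorem EP.pU_phi (h : EP Z M s U P) (v : Fin G ⊕ Fin G → ℂ) :
    h.pU (qm M *ᵥ v) = s • h.pU v := by
  apply Subtype.ext
  change P *ᵥ (qm M *ᵥ v) = s • (P *ᵥ v)
  rw [mulVec_mulVec, ← h.cM, ← mulVec_mulVec, h.eg _ (h.mem v)]

theorem EP.pU_X (h : EP Z M s U P) {X : Matrix (Fin G ⊕ Fin G) (Fin G ⊕ Fin G) ℂ} (hX : X ∈ LZ Z)
    (v : Fin G ⊕ Fin G → ℂ) : (h.pU (X *ᵥ v) : Fin G ⊕ Fin G → ℂ) = X *ᵥ (h.pU v) := by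
  change P *ᵥ (X *ᵥ v) = X *ᵥ (P *ᵥ v)
  rw [mulVec_mulVec, ← h.comm X hX, mulVec_mulVec]

variable {ι : Type} [Fintype ι] [DecidableEq ι]

/-- The determinant form. -/
def EP.dl (h : EP Z M s U P) (f : Basis ι ℂ U) : (Fin G ⊕ Fin G → ℂ) [⋀^ι]→ₗ[ℂ] ℂ :=
  f.det.compLinearMap h.pU

theorem EP.dl_apply (h : EP Z M s U P) (f : Basis ι ℂ U) (v : ι → Fin G ⊕ Fin G → ℂ) :
    h.dl f v = f.det (fun y => h.pU (v y)) := rfl

theorem EP.dl_phi (h : EP Z M s U P) (f : Basis ι ℂ U) (v : ι → Fin G ⊕ Fin G → ℂ) (y : ι) :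
    h.dl f (Function.update v y (qm M *ᵥ v y)) = s * h.dl f v := by
  rw [h.dl_apply, h.dl_apply]
  have h1 : (fun k => h.pU (Function.update v y (qm M *ᵥ v y) k)) =
      Function.update (fun k => h.pU (v k)) y (s • h.pU (v y)) := by
    funext k
    by_cases hk : k = y
    · subst hk
      rw [Function.update_self, Function.update_self, h.pU_phi]
    · rw [Function.update_of_ne hk, Function.update_of_ne hk]
  rw [h1, AlternatingMap.map_update_smul, Function.update_eq_self, smul_eq_mul]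

theorem EP.dl_tor (hZ : PM Z) (h : EP Z M s U P) (f : Basis ι ℂ U) (σ : ℂ ≃+* ℂ)
    (v : ι → Fin G ⊕ Fin G → ℂ) :
    h.dl f (fun y => torE (ph _ (DS Z σ)) two (v y)) = h.dl f v := by
  have hst := rz_stable hZ h.irr.2.1 (gs hZ σ)
  have h0 : h.dl f (fun y => torE (ph _ (DS Z σ)) two (v y)) =
      (2 : ℂ) ^ tr Z (cjS σ.symm U) * h.dl f v := by
    rw [h.dl_apply, h.dl_apply, ← det_gs hZ h.irr.2.1 σ hst, ← Basis.det_comp]
    congr 1
    funext y
    apply Subtype.ext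
    change (h.pU (torE (ph _ (DS Z σ)) two (v y)) : Fin G ⊕ Fin G → ℂ) =
      torE (ph _ (DS Z σ)) two (h.pU (v y))
    rw [torE_two, torE_two, map_add, map_smul, map_smul]
    change (5 / 4 : ℂ) • (h.pU (v y) : Fin G ⊕ Fin G → ℂ) +
      (3 / 4 : ℂ) • (h.pU (DS Z σ *ᵥ v y) : Fin G ⊕ Fin G → ℂ) = _
    rw [h.pU_X (DS_mem σ)]
    rfl
  rw [h0, h.bal, zpow_zero, one_mul]

/-- The determinant is killed by the Lie algebra. -/
theorem EP.kill (hZ : PM Z) (h : EP Z M s U P) (f : Basis ι ℂ U) :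
    ∀ X ∈ LZ Z, act X (CF (h.dl f).toMultilinearMap) = 0 := by
  have h1 : LZ Z ≤ killL (h.dl f).toMultilinearMap :=
    LZ_le (fun σ => kill_of_inv (DS_sq hZ.det σ) fun v => h.dl_tor hZ f σ v)
      (fun A hA C hC => act_bracket hA hC)
  exact fun X hX => h1 hX

/-- The rational parts of the determinant. -/
def EP.wl (h : EP Z M s U P) (f : Basis ι ℂ U) (l : ℂ →ₗ[ℚ] ℚ) :
    (Fin G ⊕ Fin G → ℚ) [⋀^ι]→ₗ[ℚ] ℚ :=
  { evalM (fun I => l (CF (h.dl f).toMultilinearMap I)) with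
    map_eq_zero_of_eq' := fun v i j hv hij => by
      change evalF (fun I => l (CF (h.dl f).toMultilinearMap I)) v = 0
      rw [← lam_eval]
      have h1 : (h.dl f).toMultilinearMap (fun k => cv (v k)) = 0 :=
        (h.dl f).map_eq_zero_of_eq _ (by rw [hv]) hij
      rw [h1, map_zero] }

theorem EP.wl_apply (h : EP Z M s U P) (f : Basis ι ℂ U) (l : ℂ →ₗ[ℚ] ℚ)
    (v : ι → Fin G ⊕ Fin G → ℚ) : h.wl f l v = l (h.dl f (fun k => cv (v k))) :=
  (lam_eval (h.dl f).toMultilinearMap l v).symm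

variable {d : ℕ}

/-- The rational parts of the determinant are Weil classes. -/
theorem EP.weil (hZ : PM Z) (h : EP Z M s U P) (f : Basis (Fin d) ℂ U) (l : ℂ →ₗ[ℚ] ℚ)
    {a : Module.End ℚ (AVZ hZ).H} (ha : ∀ v, a v = M *ᵥ v) :
    IsWeilClass (AVZ hZ) a (h.wl f l) := by
  constructor
  · have h1 := hodge_tenrat hZ.cht gal_LZ (DJ_JR ▸ DZ_mem) (h.kill hZ f) l
    exact h1
  · intro v k l'
    change h.wl f l (Function.update v k (a (v k))) = h.wl f l (Function.update v l' (a (v l')))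
    rw [h.wl_apply, h.wl_apply]
    have h1 : ∀ k : Fin d, h.dl f (fun i => cv (Function.update v k (a (v k)) i)) =
        s * h.dl f (fun i => cv (v i)) := by
      intro k
      rw [← h.dl_phi f (fun i => cv (v i)) k]
      congr 1
      funext i
      by_cases hi : i = k
      · subst hi
        rw [Function.update_self, Function.update_self, ha, cv_mulVec']
      · rw [Function.update_of_ne hi, Function.update_of_ne hi]
    rw [h1, h1]

/-- The determinant with endomorphisms of the variables. -/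
theorem EP.sc (hZ : PM Z) (h : EP Z M s U P) (f : Basis (Fin d) ℂ U)
    {a : Module.End ℚ (AVZ hZ).H} (ha : ∀ v, a v = M *ᵥ v)
    (Q : Fin d → Matrix (Fin G ⊕ Fin G) (Fin G ⊕ Fin G) ℂ)
    (hQ : ∀ k, ∀ X ∈ LZ Z, Q k * X = X * Q k) :
    (fun v : Fin d → (AVZ hZ).H => h.dl f (fun k => Q k *ᵥ cv (v k))) ∈
      SC (AVZ hZ) a d (Fin d) := by
  classical
  choose m c R hR hQR using fun k => commutant_expand gal_LZ (hQ k)
  obtain ⟨N, c', l, hl⟩ := rat_expand (h.dl f).toMultilinearMap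
  have h1 : (fun v : Fin d → (AVZ hZ).H => h.dl f (fun k => Q k *ᵥ cv (v k))) =
      ∑ p ∈ Fintype.piFinset (fun k : Fin d => (Finset.univ : Finset (Fin (m k)))),
        (∏ k, c k (p k)) • ∑ j, c' j • fun v : Fin d → (AVZ hZ).H =>
          algebraMap ℚ ℂ (h.wl f (l j) (fun k => R k (p k) *ᵥ v k)) := by
    funext v
    have h2 : (fun k => Q k *ᵥ cv (v k)) =
        fun k => ∑ j, c k j • cv (R k j *ᵥ v k) := by
      funext k
      conv_lhs => rw [hQR k]
      rw [Matrix.sum_mulVec]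
      refine Finset.sum_congr rfl fun j _ => ?_
      rw [smul_mulVec, cv_mulVec']
    change (h.dl f).toMultilinearMap (fun k => Q k *ᵥ cv (v k)) = _
    rw [h2, MultilinearMap.map_sum_finset (h.dl f).toMultilinearMap
      (fun k j => c k j • cv (R k j *ᵥ v k)) (fun k => Finset.univ), Finset.sum_apply]
    refine Finset.sum_congr rfl fun p _ => ?_
    rw [MultilinearMap.map_smul_univ, Pi.smul_apply, hl, Finset.sum_apply]
    congr 1
    refine Finset.sum_congr rfl fun j _ => ?_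
    rw [Pi.smul_apply, smul_eq_mul, h.wl_apply]
    rfl
  rw [h1]
  refine Submodule.sum_mem _ fun p _ => Submodule.smul_mem _ _ (Submodule.sum_mem _ fun j _ =>
    Submodule.smul_mem _ _ ?_)
  exact sc_weil (Equiv.refl (Fin d)) (h.weil hZ f (l j) ha)
    (fun k => Matrix.toLin' (R k (p k))) fun k => (hom_iff hZ _).2 (hR k (p k) _ DZ_mem)

end

end Pool.Agent.K9h17.H
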