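import Mathlib
import Pool.Agent.K9h17.H.Det
import Pool.Agent.K9h17.F.Loc

/-!
# The Hodge tensors are generated by bilinear tensors and Weil classes
-/

set_option linter.unusedSectionVars false

namespace Pool.Agent.K9h17.H

open Matrix Module Pool.Agent.W437.HC Pool.Agent.W437.HD Pool.Agent.TH504.CB Pool.Agent.Y90
open Pool.Agent.W548.Odd hiding cv
open Pool.Agent.H204R3.CM (IsHodge)
open Pool.Agent.H204R3.SP Pool.Agent.H204R3.GP Pool.Agent.W522.U
open Pool.Agent.W437.HP (cK cK_mul cK_one)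
open Pool.Agent.R915 (VE mem_VE VE_cj VE_stab hom_iff exists_spec root_conj)
open Pool.Agent.N183.TS Pool.Agent.N183.U5 Pool.Agent.Y224.TS Pool.Agent.K9h17.G
open Polynomial

noncomputable section

variable {G : ℕ} {Z : Matrix (Fin G) (Fin G) ℂ}

section sc

variable {X : AV} {a : Module.End ℚ X.H} {d : ℕ}

theorem sc_reindex {κ κ' : Type} (e : κ ≃ κ') {g : (κ → X.H) → ℂ} (hg : g ∈ SC X a d κ) :
    (fun v : κ' → X.H => g (fun k => v (e k))) ∈ SC X a d κ' := by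
  have h1 := sc_mul ((Equiv.sumEmpty κ Empty).trans e) hg
    (sc_const (κ := Empty) (X := X) (a := a) (d := d) fun _ => 1)
  have h2 : (fun v : κ' → X.H => g (fun k => v (e k))) = fun v : κ' → X.H =>
      g (fun k => v (((Equiv.sumEmpty κ Empty).trans e) (Sum.inl k))) * 1 := by
    funext v
    rw [mul_one]
    rfl
  rw [h2]
  exact h1

end sc

section local_

variable (hZ : PM Z) (hs : IsSimpleAV Z) (hg : 0 < G)
  {M : Matrix (Fin G ⊕ Fin G) (Fin G ⊕ Fin G) ℚ} (k : MF Z M) {p : ℕ}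
  (hp : ∀ s : ℂ, aeval s (minpoly ℚ M) = 0 → pd Z (VE M s) = p)
  (hq : ∀ s : ℂ, aeval s (minpoly ℚ M) = 0 → qd Z (VE M s) = p)
include hZ hs hg k hp hq

/-- The eigenspaces. -/
theorem exists_EP {s : ℂ} (hs0 : aeval s (minpoly ℚ M) = 0) (hne : VE M s ≠ ⊥) :
    ∃ P, EP Z M s (VE M s) P := by
  obtain ⟨P, h1, h2, h3, h4⟩ := exists_spec hZ hs k.comm hne
  refine ⟨P, k.irr hZ hs hne, h1, h2, h3, fun v hv => mem_VE.1 hv, h4, fun τ => ?_⟩
  rw [VE_cj]
  unfold Pool.Agent.Y90.tr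
  rw [hp _ (root_conj hs0 τ), hq _ (root_conj hs0 τ), sub_self]

/-- The determinants of irreducible submodules. -/
theorem det_sc {U : Submodule ℂ (Fin G ⊕ Fin G → ℂ)} (hU : IrS (LZ Z) U)
    {a : Module.End ℚ (AVZ hZ).H} (ha : ∀ v, a v = M *ᵥ v) {ι : Type} [Fintype ι] [DecidableEq ι]
    (f : Basis ι ℂ U) (q : ι → (Fin G ⊕ Fin G → ℂ) →ₗ[ℂ] U)
    (hq' : ∀ y, ∀ X ∈ LZ Z, ∀ v, (q y (X *ᵥ v) : Fin G ⊕ Fin G → ℂ) = X *ᵥ (q y v)) :
    (fun v : ι → (AVZ hZ).H => f.det (fun y => q y (cv (v y)))) ∈ SC (AVZ hZ) a (2 * p) ι := by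
  classical
  obtain ⟨s, T, hs0, hne, hT, hi, hTU⟩ := k.proj hZ hs hg hU
  obtain ⟨P, hP⟩ := exists_EP hZ hs hg k hp hq hs0 hne
  have hmem : ∀ u : U, T u ∈ VE M s := fun u => hTU ▸ Submodule.mem_map_of_mem u.2
  let T' : U →ₗ[ℂ] VE M s := (T.domRestrict U).codRestrict (VE M s) hmem
  have hT' : ∀ u : U, (T' u : Fin G ⊕ Fin G → ℂ) = T u := fun u => rfl
  have hinj : Function.Injective T' := by
    rw [injective_iff_map_eq_zero]
    intro u hu
    apply Subtype.ext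
    refine hi u u.2 ?_
    rw [← hT', hu]
    rfl
  have hsurj : Function.Surjective T' := by
    rintro ⟨w, hw⟩
    rw [← hTU] at hw
    obtain ⟨u, hu, rfl⟩ := hw
    exact ⟨⟨u, hu⟩, rfl⟩
  let θ : U ≃ₗ[ℂ] VE M s := LinearEquiv.ofBijective T' ⟨hinj, hsurj⟩
  have hdim : Fintype.card ι = 2 * p := by
    rw [← finrank_eq_card_basis f, θ.finrank_eq, ← pd_add_qd hZ (VE_stab k.comm s), hp _ hs0,
      hq _ hs0]
    ring
  let e : Fin (2 * p) ≃ ι := (Fintype.equivFinOfCardEq hdim).symm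
  let f' : Basis (Fin (2 * p)) ℂ (VE M s) := (f.map θ).reindex e.symm
  let Q : Fin (2 * p) → Matrix (Fin G ⊕ Fin G) (Fin G ⊕ Fin G) ℂ := fun i =>
    LinearMap.toMatrix' (T.comp (U.subtype.comp (q (e i))))
  have hQ : ∀ i v, Q i *ᵥ v = T (q (e i) v) := fun i v => by
    rw [← Matrix.toLin'_apply, Matrix.toLin'_toMatrix']
    rfl
  have hQc : ∀ i, ∀ X ∈ LZ Z, Q i * X = X * Q i := by
    intro i X hX
    apply Matrix.toLin'.injective
    refine LinearMap.ext fun v => ?_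
    rw [Matrix.toLin'_apply, Matrix.toLin'_apply, ← mulVec_mulVec, ← mulVec_mulVec, hQ, hQ,
      hq' _ X hX, hT X hX _ (q (e i) v).2]
  have h1 := sc_reindex e (hP.sc hZ f' ha Q hQc)
  refine (congrArg (· ∈ SC (AVZ hZ) a (2 * p) ι) ?_).mp h1
  funext v
  have h2 : (fun i => hP.pU (Q i *ᵥ cv (v (e i)))) =
      (fun y => θ (q y (cv (v y)))) ∘ e := by
    funext i
    apply Subtype.ext
    change P *ᵥ (Q i *ᵥ cv (v (e i))) = T (q (e i) (cv (v (e i))))
    rw [hQ, hP.id _ (hmem _)]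
  change f'.det (fun i => hP.pU (Q i *ᵥ cv (v (e i)))) = _
  rw [h2, Basis.det_reindex, Function.comp_assoc, Equiv.self_comp_symm, Function.comp_id,
    Basis.det_map]
  congr 1
  funext y
  exact θ.symm_apply_apply _

end local_

/-- The restriction of a form to the rational vectors. -/
def rst (G : ℕ) (κ : Type) : MultilinearMap ℂ (fun _ : κ => Fin G ⊕ Fin G → ℂ) ℂ →ₗ[ℂ]
    ((κ → (Fin G ⊕ Fin G → ℚ)) → ℂ) where
  toFun φ := fun v => φ (fun k => cv (v k))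
  map_add' _ _ := rfl
  map_smul' _ _ := rfl

/-- The system of the forms whose restriction to the rational vectors is in the span. -/
def NW (hZ : PM Z) (a : Module.End ℚ (AVZ hZ).H) (d : ℕ) (κ : Type) [Finite κ] :
    Submodule ℂ (MultilinearMap ℂ (fun _ : κ => Fin G ⊕ Fin G → ℂ) ℂ) :=
  Submodule.comap (rst G κ) (SC (AVZ hZ) a d κ)

theorem mem_NW {hZ : PM Z} {a : Module.End ℚ (AVZ hZ).H} {d : ℕ} {κ : Type} [Finite κ]
    {φ : MultilinearMap ℂ (fun _ : κ => Fin G ⊕ Fin G → ℂ) ℂ} : φ ∈ NW hZ a d κ ↔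
      (fun v : κ → (AVZ hZ).H => φ (fun k => cv (v k))) ∈ SC (AVZ hZ) a d κ := Iff.rfl

theorem clo_NW (hZ : PM Z) (a : Module.End ℚ (AVZ hZ).H) (d : ℕ) : Clo (NW hZ a d) := by
  constructor
  · intro κ _ _ φ
    rw [mem_NW]
    exact sc_const _
  · intro κ κ' κ'' _ _ _ e φ φ' ψ hφ hφ' hψ
    rw [mem_NW] at hφ hφ' ⊢
    have h1 := sc_mul e hφ hφ'
    refine (congrArg (· ∈ SC (AVZ hZ) a d κ'') ?_).mp h1
    funext v
    exact (hψ fun k => cv (v k)).symm

section main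

variable (hZ : PM Z) (hs : IsSimpleAV Z) (hg : 0 < G)
  {M : Matrix (Fin G ⊕ Fin G) (Fin G ⊕ Fin G) ℚ} (k : MF Z M) {p : ℕ}
  (hp : ∀ s : ℂ, aeval s (minpoly ℚ M) = 0 → pd Z (VE M s) = p)
  (hq : ∀ s : ℂ, aeval s (minpoly ℚ M) = 0 → qd Z (VE M s) = p)
  (hGd : Gd Z (Set.range (DS Z)))
include hZ hs hg k hp hq hGd

/-- Invariant forms. -/
theorem inv_NW {a : Module.End ℚ (AVZ hZ).H} (ha : ∀ v, a v = M *ᵥ v) {m : ℕ}
    (φ : MultilinearMap ℂ (fun _ : Fin m × Fin 2 => Fin G ⊕ Fin G → ℂ) ℂ)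
    (hφ : ∀ X ∈ LZ Z, Kills (ph (Fin G ⊕ Fin G) X) φ) : φ ∈ NW hZ a (2 * p) (Fin m × Fin 2) := by
  classical
  have h : TD Z (Set.range (DS Z)) := td_self hZ
  have hinv : ∀ (g : Gam (GG (Y224.TS.LT (Set.range (DS Z))))) v,
      φ (fun k => RG (GG (Y224.TS.LT (Set.range (DS Z)))) g (v k)) = φ v := by
    intro g v
    refine inv_gam φ (fun D hD _ => ?_) g v
    obtain ⟨X, hX, rfl⟩ := exists_GG hD
    rw [LT_self] at hX
    exact hφ X hX
  have hSI : ∀ {U}, W522.U.SI (RG (GG (Y224.TS.LT (Set.range (DS Z))))) U ↔ IrS (LZ Z) U :=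
    fun {U} => h.si hZ
  have hpr := gz_proj h.genI h.cr
  obtain ⟨s, W, hW, hWW, hall⟩ := exists_reps hpr
  obtain ⟨st, hst, hDu, hDu'⟩ := exists_st (χ := 1) hpr (om G) om_nd (h.om' hZ) W hW hWW hall
  refine R915.forms_mem' (χ := 1) (fun Δ hΔ => fi_top Δ hΔ) (om G) om_nd (h.om' hZ) ?_ ?_ ?_ hpr
    W hW hWW hall st hst hDu hDu' (NW hZ a (2 * p)) (clo_NW hZ a (2 * p)) ?_ ?_ φ ?_
  · intro U hU hn
    exact (hGd.r _ (hSI.1 hU) hn).unip h
  · intro U hU hn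
    exact h.line hZ (hSI.1 hU) hn
  · intro U U' hU hU' hn _ ψ hT
    exact hGd.t U U' (hSI.1 hU) (hSI.1 hU') hn ψ hT
  · intro b hb
    have hKB : KB Z b := by
      refine (h.bil b (fun X hX => hZ.om_sp hX)).1 (fun X hX u v => ?_)
      exact (gz_bil h.genI stab_top stab_top b).1 (fun g u _ v _ => by
        rw [hb, MonoidHom.one_apply, one_mul]) X hX u trivial v trivial
    have h1 := expand_ten (F := bil2 b) hZ.cht gal_LZ (DJ_JR ▸ DZ_mem) (fun X hX =>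
      act_of_kills fun v => by
        rw [Fin.sum_univ_two, bil2_apply, bil2_apply, Function.update_self, Function.update_self,
          Function.update_of_ne (by decide), Function.update_of_ne (by decide)]
        exact hKB X hX (v 0) (v 1))
    rw [mem_NW]
    refine Submodule.span_le.2 ?_ h1
    rintro g ⟨r, hr, rfl⟩
    exact sc_pair (X := AVZ hZ) (a := a) (d := 2 * p) hr
  · intro c hc hcg ι _ _ f q hq' ψ hψ
    have hW' : ∀ i, IrS (LZ Z) (W i) := fun i => hSI.1 (hW i)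
    refine (clo_NW hZ a (2 * p)).fam_prod (A := Σ i, Fin (c i).toNat) ι
      (fun j => ((f j).det.toMultilinearMap.compLinearMap (q j))) (fun j => ?_)
      (Equiv.refl _) ψ fun v => ?_
    · rw [mem_NW]
      refine det_sc hZ hs hg k hp hq (hW' j.1) ha (f j) (q j) fun y X hX v => ?_
      have h1 := (gz_equiv h.genI stab_top ((W j.1).subtype.comp (q j y))).1
        (fun g u _ => hq' j y g u)
      exact (h.eqv ((W j.1).subtype.comp (q j y))).1 (fun X hX w => h1 X hX w trivial) X hX v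
    · rw [hψ]
      rfl
  · refine ⟨⊤, inferInstance, fun g _ v => ?_⟩
    rw [MonoidHom.one_apply, one_pow, one_mul]
    exact hinv g v

end main

end

end Pool.Agent.K9h17.H
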