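import Mathlib
import Pool.Agent.K9h17.H.Glob
import Pool.Agent.K9h17.H.BR
import Pool.Agent.Y90.Loc

/-!
# The determinants of irreducible submodules and the ring
-/

set_option linter.unusedSectionVars false

namespace Pool.Agent.K9h17.H

open Matrix Module Pool.Agent.W437.HC Pool.Agent.W437.HD Pool.Agent.TH504.CB Pool.Agent.Y90
open Pool.Agent.W548.Odd hiding cv
open Pool.Agent.H204R3.CM (IsHodge altFun)
open Pool.Agent.H204R3.SP Pool.Agent.H204R3.GP Pool.Agent.W522.U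
open Pool.Agent.W437.HP (cK cK_mul cK_one)
open Pool.Agent.R915 (IsSimple VE mem_VE VE_cj VE_stab hom_iff exists_spec root_conj)
open Pool.Agent.N183.TS Pool.Agent.N183.U5 Pool.Agent.Y224.TS Pool.Agent.K9h17.G
open Polynomial

noncomputable section

theorem cv_rect {m n : Type*} [Fintype n] (φ : Matrix m n ℚ) (v : n → ℚ) :
    Y90.cv (φ *ᵥ v) = cK ℂ φ *ᵥ Y90.cv v := by
  funext i
  simp [Y90.cv, mulVec, dotProduct, cK]

theorem qm_cK {n : Type} (φ : Matrix n n ℚ) : qm φ = cK ℂ φ := by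
  ext i j
  simp [qm, cK]

variable {G : ℕ} {Z : Matrix (Fin G) (Fin G) ℂ} (hZ : PM Z) {r : ℕ} {Z' : Matrix (Fin r) (Fin r) ℂ}
  {E : Matrix (Fin G ⊕ Fin G) (Fin r ⊕ Fin r) ℚ} {F : Matrix (Fin r ⊕ Fin r) (Fin G ⊕ Fin G) ℚ}
  (hf : Fac Z Z' E F) (h' : PM Z') (hs' : IsSimpleAV Z') (hr : 0 < r) (hX : IsSimple (AVZ h'))
  (hIV : IsTypeIV (AVZ h'))
  {a : Module.End ℚ (AVZ h').H} (ha : MaxField (AVZ h') a) {p : ℕ}
  (hp : ∀ s : ℂ, aeval s (minpoly ℚ (LinearMap.toMatrix' a)) = 0 →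
    pd Z' (VE (LinearMap.toMatrix' a) s) = p)
  (hq : ∀ s : ℂ, aeval s (minpoly ℚ (LinearMap.toMatrix' a)) = 0 →
    qd Z' (VE (LinearMap.toMatrix' a) s) = p)
  (hd : (minpoly ℚ a).natDegree * (2 * p) = finrank ℚ (AVZ h').H)
  {U : Submodule ℂ (Fin G ⊕ Fin G → ℂ)} (hU : IrS (LZ Z) U) (h0 : ∃ u ∈ U, ml F u ≠ 0)
include hf hs' hr hX hIV ha hp hq hd hU h0

/-- The determinants of irreducible submodules. -/
theorem det_NB {ι : Type} [iF : Fintype ι] [iD : DecidableEq ι] (f : Basis ι ℂ U)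
    (q : ι → (Fin G ⊕ Fin G → ℂ) →ₗ[ℂ] U)
    (hq' : ∀ y, ∀ X ∈ LZ Z, ∀ v, (q y (X *ᵥ v) : Fin G ⊕ Fin G → ℂ) = X *ᵥ (q y v)) :
    f.det.toMultilinearMap.compLinearMap q ∈ NB hZ ι := by
  classical
  have hinj := hf.inj hU h0
  have hU' := hf.irr hU h0
  have k := ha.mf h'
  obtain ⟨s, T, hs0, hne, hT, hi, hTU⟩ := k.proj h' hs' hr hU'
  obtain ⟨P, hP⟩ := exists_EP h' hs' hr k hp hq hs0 hne
  have hmem : ∀ u : U, T (ml F u) ∈ VE (LinearMap.toMatrix' a) s := fun u =>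
    hTU ▸ Submodule.mem_map_of_mem ⟨u, u.2, rfl⟩
  let T' : U →ₗ[ℂ] VE (LinearMap.toMatrix' a) s :=
    ((T.comp (ml F)).domRestrict U).codRestrict (VE (LinearMap.toMatrix' a) s) hmem
  have hT' : ∀ u : U, (T' u : Fin r ⊕ Fin r → ℂ) = T (ml F u) := fun u => rfl
  have hinj' : Function.Injective T' := by
    rw [injective_iff_map_eq_zero]
    intro u hu
    apply Subtype.ext
    refine hinj u u.2 (hi _ ⟨u, u.2, rfl⟩ ?_)
    rw [← hT', hu]
    rfl
  have hsurj : Function.Surjective T' := by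
    rintro ⟨w, hw⟩
    rw [← hTU] at hw
    obtain ⟨_, ⟨u, hu, rfl⟩, rfl⟩ := hw
    exact ⟨⟨u, hu⟩, rfl⟩
  let θ : U ≃ₗ[ℂ] VE (LinearMap.toMatrix' a) s := LinearEquiv.ofBijective T' ⟨hinj', hsurj⟩
  have hdim : Fintype.card ι = 2 * p := by
    rw [← finrank_eq_card_basis f, θ.finrank_eq, ← pd_add_qd h' (VE_stab k.comm s), hp _ hs0,
      hq _ hs0]
    ring
  let e : Fin (2 * p) ≃ ι := (Fintype.equivFinOfCardEq hdim).symm
  let f' : Basis (Fin (2 * p)) ℂ (VE (LinearMap.toMatrix' a) s) := (f.map θ).reindex e.symm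
  let Q : ι → Matrix (Fin G ⊕ Fin G) (Fin G ⊕ Fin G) ℂ := fun y =>
    LinearMap.toMatrix' ((ml E).comp (T.comp ((ml F).comp (U.subtype.comp (q y)))))
  have hQ : ∀ y v, Q y *ᵥ v = ml E (T (ml F (q y v))) := fun y v => by
    rw [← Matrix.toLin'_apply, Matrix.toLin'_toMatrix']
    rfl
  have hFQ : ∀ y v, T (ml F (q y v)) = ml F (Q y *ᵥ v) := fun y v => by
    rw [hQ]
    change _ = cK ℂ F *ᵥ (cK ℂ E *ᵥ T (ml F (q y v)))
    rw [mulVec_mulVec, hf.fe', one_mulVec]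
  have hQc : ∀ y, ∀ X ∈ LZ Z, Q y * X = X * Q y := by
    intro y X hX
    apply Matrix.toLin'.injective
    refine LinearMap.ext fun v => ?_
    rw [Matrix.toLin'_apply, Matrix.toLin'_apply, ← mulVec_mulVec, ← mulVec_mulVec, hQ, hQ,
      hq' _ X hX, hf.act hX, hT _ (hf.comp hX).1 _ ⟨q y v, (q y v).2, rfl⟩, ml_apply E, ml_apply E,
      mulVec_mulVec, mulVec_mulVec, (hf.comp hX).2.1]
  choose m c R hR hQR using fun y => commutant_expand gal_LZ (hQc y)
  obtain ⟨N, c', l, hl⟩ := rat_expand (hP.dl f').toMultilinearMap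
  -- the homomorphisms
  have hhom : ∀ (y : ι) (j : Fin (m y)),
      IsHom (AVZ hZ) (AVZ h') (Matrix.toLin' (F * R y j)) := by
    intro y j
    obtain ⟨Ψ, hΨ⟩ := hZ.cht.hom h'.cht (R := F * R y j) (by
      rw [DJ_JR, DJ_JR, cK_mul, Matrix.mul_assoc, ← Matrix.mul_assoc _ (cK ℂ F), ← hf.fd,
        Matrix.mul_assoc]
      congr 1
      exact hR y j _ DZ_mem)
    exact ⟨Ψ, fun v => hΨ v⟩
  have hg : (fun v : ι → (AVZ hZ).H =>
      f.det.toMultilinearMap.compLinearMap q (fun y => Y90.cv (v y))) =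
      ∑ t ∈ Fintype.piFinset (fun k : Fin (2 * p) => (Finset.univ : Finset (Fin (m (e k))))),
        (∏ k, c (e k) (t k)) • ∑ j, c' j • fun v : ι → (AVZ hZ).H =>
          ((hP.wl f' (l j) (fun k => Matrix.toLin' (F * R (e k) (t k)) (v (e k))) : ℚ) : ℂ) := by
    funext v
    have h2 : (fun k : Fin (2 * p) => T (ml F (q (e k) (Y90.cv (v (e k)))))) =
        fun k => ∑ j, c (e k) j • Y90.cv ((F * R (e k) j) *ᵥ v (e k)) := by
      funext k
      rw [hFQ]
      conv_lhs => rw [hQR (e k)]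
      rw [Matrix.sum_mulVec, map_sum]
      refine Finset.sum_congr rfl fun j _ => ?_
      rw [smul_mulVec, map_smul, cv_rect, cK_mul, ← mulVec_mulVec, ← qm_cK (R (e k) j)]
      rfl
    have h3 : f.det.toMultilinearMap.compLinearMap q (fun y => Y90.cv (v y)) =
        (hP.dl f').toMultilinearMap (fun k => T (ml F (q (e k) (Y90.cv (v (e k)))))) := by
      change f.det (fun y => q y (Y90.cv (v y))) = f'.det (fun k =>
        hP.pU (T (ml F (q (e k) (Y90.cv (v (e k)))))))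
      have h4 : (fun k => hP.pU (T (ml F (q (e k) (Y90.cv (v (e k))))))) =
          (fun y => θ (q y (Y90.cv (v y)))) ∘ e := by
        funext k
        apply Subtype.ext
        change P *ᵥ (T (ml F (q (e k) (Y90.cv (v (e k)))))) = T (ml F (q (e k) (Y90.cv (v (e k)))))
        rw [hP.id _ (hmem _)]
      rw [h4, Basis.det_reindex, Function.comp_assoc, Equiv.self_comp_symm, Function.comp_id,
        Basis.det_map]
      congr 1
      funext y
      exact (θ.symm_apply_apply _).symm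
    rw [h3, h2, MultilinearMap.map_sum_finset (hP.dl f').toMultilinearMap
      (fun k j => c (e k) j • Y90.cv ((F * R (e k) j) *ᵥ v (e k))) (fun k => Finset.univ),
      Finset.sum_apply]
    refine Finset.sum_congr rfl fun t _ => ?_
    rw [MultilinearMap.map_smul_univ, Pi.smul_apply, hl, Finset.sum_apply]
    congr 1
    refine Finset.sum_congr rfl fun j _ => ?_
    rw [Pi.smul_apply, smul_eq_mul, hP.wl_apply]
    rfl
  refine NB_of hZ ?_
  rw [hg]
  refine Submodule.sum_mem _ fun t _ => Submodule.smul_mem _ _ (Submodule.sum_mem _ fun j _ =>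
    Submodule.smul_mem _ _ (Submodule.subset_span ?_))
  exact ⟨AVZ h', a, 2 * p, hP.wl f' (l j), e, fun k => Matrix.toLin' (F * R (e k) (t k)), hX, hIV, ha, hd,
    hP.weil h' f' (l j) (fun v => by
      rw [← Matrix.toLin'_apply, Matrix.toLin'_toMatrix']), fun k => hhom _ _, rfl⟩

end

end Pool.Agent.K9h17.H
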