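import Mathlib
import Pool.Agent.K9h17.H.Ms
import Pool.Agent.K9h17.F.Mt
import Pool.Agent.W437.HK.Main

/-!
# Hodge classes on the powers of abelian varieties
-/

set_option linter.unusedSectionVars false

namespace Pool.Agent.K9h17.H

open Matrix Module Pool.Agent.W437.HC Pool.Agent.W437.HD Pool.Agent.W548.Odd
open Pool.Agent.H204R3.SP Pool.Agent.H204R3.GP Pool.Agent.Y90 Pool.Agent.Y224.TS
open Pool.Agent.H204R3.CM (IsHodge)
open Pool.Agent.H194R3.CM (divisorial)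
open Pool.Agent.W437.HP (cK cK_mul cK_one)
open Pool.Agent.R915 (RealMax QuadMult HasCMult IsFactor Sys Unbalanced IsOfType EndQuad VE VE_stab)
open Pool.Agent.N183.TS Pool.Agent.N183.U5 Pool.Agent.K9h17.S Pool.Agent.K9h17.G
open Pool.Agent.K9h17.T Pool.Agent.K9h17.C Pool.Agent.K9h17.F

noncomputable section

/-- The classes of simple factors. -/
def Cls (Y : AV) : Prop :=
  (finrank ℚ Y.H ≤ 6 ∨ HasCMult Y ∨ QuadMult Y ∨ RealOdd Y) ∨ UnbalancedMult Y ∨ BalancedIV Y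

/-- The transport from the period matrix. -/
theorem transport {X : AV} {a : ℕ} {Z : Matrix (Fin a) (Fin a) ℂ} (hZ : PM Z)
    (b : Basis (Fin a ⊕ Fin a) ℚ X.H)
    (hC : Cht (X.per.comp b.equivFun.symm.toLinearMap.toAddMonoidHom) (JR Z)) {n m : ℕ}
    (hall : ∀ f : (Fin n → Fin a ⊕ Fin a → ℚ) [⋀^Fin m × Fin 2]→ₗ[ℚ] ℚ,
      IsHodge (perPow Z n) f → f ∈ divisorial (perPow Z n) m)
    (f : (Fin n → X.H) [⋀^Fin m × Fin 2]→ₗ[ℚ] ℚ) (hf : IsHodge (X.per.compLeft (Fin n)) f) :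
    f ∈ divisorial (X.per.compLeft (Fin n)) m := by
  obtain ⟨Ψ₂, h₂⟩ := hC.hom hZ.cht (R := 1) (by rw [cK_one, Matrix.one_mul, Matrix.mul_one])
  obtain ⟨Ψ₁, h₁⟩ := hZ.cht.hom hC (R := 1) (by rw [cK_one, Matrix.one_mul, Matrix.mul_one])
  have e₂ : ∀ v, Ψ₂ (X.per v) = perOne Z (b.equivFun v) := fun v => by
    have h3 := h₂ (b.equivFun v)
    have h4 : (X.per.comp b.equivFun.symm.toLinearMap.toAddMonoidHom) (b.equivFun v) = X.per v := by
      change X.per (b.equivFun.symm (b.equivFun v)) = X.per v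
      rw [LinearEquiv.symm_apply_apply]
    rwa [h4, one_mulVec] at h3
  have e₁ : ∀ w, Ψ₁ (perOne Z w) = X.per (b.equivFun.symm w) := fun w => by
    have h3 := h₁ w
    rw [one_mulVec] at h3
    exact h3
  let φ : (Fin n → Fin a ⊕ Fin a → ℚ) →ₗ[ℚ] (Fin n → X.H) :=
    LinearMap.pi fun j => b.equivFun.symm.toLinearMap ∘ₗ LinearMap.proj j
  let Φ : (Fin n → Fin a → ℂ) →ₗ[ℂ] (Fin n → X.T) := LinearMap.pi fun j => Ψ₁ ∘ₗ LinearMap.proj j
  let φ' : (Fin n → X.H) →ₗ[ℚ] (Fin n → Fin a ⊕ Fin a → ℚ) :=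
    LinearMap.pi fun j => b.equivFun.toLinearMap ∘ₗ LinearMap.proj j
  let Φ' : (Fin n → X.T) →ₗ[ℂ] (Fin n → Fin a → ℂ) := LinearMap.pi fun j => Ψ₂ ∘ₗ LinearMap.proj j
  have g1 : ∀ w, X.per.compLeft (Fin n) (φ w) = Φ (perPow Z n w) := by
    intro w
    funext j
    exact (e₁ (w j)).symm
  have g2 : ∀ w, perPow Z n (φ' w) = Φ' (X.per.compLeft (Fin n) w) := by
    intro w
    funext j
    exact (e₂ (w j)).symm
  have h1 := hall _ (W437.HK.isHodge_pullback g1 hf)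
  have h2 := W437.HK.divisorial_pullback g2 h1
  have h3 : (f.compLinearMap φ).compLinearMap φ' = f := by
    ext v
    change f (fun k => φ (φ' (v k))) = f v
    congr 1
    funext k j
    exact b.equivFun.symm_apply_apply (v k j)
  rwa [h3] at h2

/-- The data of the period matrix. -/
theorem setup (X : AV) (hX : ∀ Y, IsFactor Y X → Cls Y) {n : ℂ → ℕ}
    (hn : IsCentreMult X n) (hs : IsSeparated n) :
    ∃ (a : ℕ) (Z : Matrix (Fin a) (Fin a) ℂ) (_ : PM Z) (b : Basis (Fin a ⊕ Fin a) ℚ X.H)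
      (M : Matrix (Fin a ⊕ Fin a) (Fin a ⊕ Fin a) ℚ),
      Cht (X.per.comp b.equivFun.symm.toLinearMap.toAddMonoidHom) (JR Z) ∧
        Gd Z (Set.range (DS Z)) ∧ CG Z M ∧ (∀ s, pd Z (VE M s) = n s) ∧
        ∀ (a' : ℕ) (Z' : Matrix (Fin a') (Fin a') ℂ)
          (E' : Matrix (Fin a ⊕ Fin a) (Fin a' ⊕ Fin a') ℚ)
          (F' : Matrix (Fin a' ⊕ Fin a') (Fin a ⊕ Fin a) ℚ), Fac Z Z' E' F' → ∀ h' : PM Z',
          IsSimpleAV Z' → 0 < a' → IsFactor (AVZ h') X := by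
  classical
  obtain ⟨E, hE⟩ := (AV.isAV X).2.2.2.2
  obtain ⟨a, Z, hZ, b, hC, hb⟩ := exists_ppav' (AV.isAV X) hE
  have hTD : TD Z (Set.range (DS Z)) := td_self hZ
  obtain ⟨M, hM, hMn⟩ := hn.cg hZ hC
  have hfn : (fun s => pd Z (VE M s)) = n := funext hMn
  have hinc : ∀ (a' : ℕ) (Z' : Matrix (Fin a') (Fin a') ℂ)
      (E' : Matrix (Fin a ⊕ Fin a) (Fin a' ⊕ Fin a') ℚ)
      (F' : Matrix (Fin a' ⊕ Fin a') (Fin a ⊕ Fin a) ℚ), Fac Z Z' E' F' → ∀ h' : PM Z',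
      IsSimpleAV Z' → 0 < a' → IsFactor (AVZ h') X := by
    intro a' Z' E' F' hfac h' hsim ha
    have hs := R915.simple_of a' h' hsim ha
    obtain ⟨Ψ₁, h₁⟩ := h'.cht.hom hC (R := E') (by
      rw [DJ_JR, DJ_JR]
      exact hfac.de.symm)
    have hi : IsHom (AVZ h') X (inc h' b E') := ⟨Ψ₁, fun v => h₁ v⟩
    refine ⟨hs, inc h' b E', hi, ?_⟩
    intro x y hxy
    have h2 : E' *ᵥ x = E' *ᵥ y := b.equivFun.symm.injective hxy
    have h3 := congrArg (fun v => F' *ᵥ v) h2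
    beta_reduce at h3
    rw [mulVec_mulVec, mulVec_mulVec, hfac.fe, one_mulVec, one_mulVec] at h3
    exact h3
  refine ⟨a, Z, hZ, b, M, hC, gd_of hTD hZ ?_ hM (by rw [hfn]; exact hs.sep), hM, hMn, hinc⟩
  intro a' Z' E' F' hfac h' hsim ha U hU hn
  have hs := R915.simple_of a' h' hsim ha
  have hfa := hinc a' Z' E' F' hfac h' hsim ha
  have hT' := tdF hfac hTD hZ h'
  rcases hX _ hfa with k | k | k
  · exact (cls_all h' hT' hs ha k hU hn).1
  · exact UnbalancedMult.cls h' hT' (R915.simple_AVZ h' hs) ha k hU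
  · exact BalancedIV.cls hT' h' (R915.simple_AVZ h' hs) ha k hU

/-- **Hodge classes of low codimension.** -/
theorem hodge_low (X : AV) {N : ℕ} (hX : ∀ Y, IsFactor Y X → Cls Y ∧ IsLarge N Y) {c : ℂ → ℕ}
    (hc : IsCentreMult X c) (hs : IsSeparated c) {m : ℕ} (hm : 2 * m < N) {n : ℕ}
    (f : (Fin n → X.H) [⋀^Fin m × Fin 2]→ₗ[ℚ] ℚ) (hf : IsHodge (X.per.compLeft (Fin n)) f) :
    f ∈ divisorial (X.per.compLeft (Fin n)) m := by
  classical
  obtain ⟨a, Z, hZ, b, M, hC, hGd, hM, hMn, hinc⟩ := setup X (fun Y hY => (hX Y hY).1) hc hs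
  refine transport hZ b hC (fun f hf => mem_divisorial_of_MS hZ.det (fun c hc => ?_) f hf) f hf
  refine ms_low hZ hGd (N := N) (fun U hU => ?_) hm hc
  obtain ⟨a', Z', E', F', hf, h', hs', ha, h0⟩ := exists_fac hZ hU.1
  have hs := R915.simple_of a' h' hs' ha
  have hfa := hinc a' Z' E' F' hf h' hs' ha
  exact LgU.of_fac hf hU h0 (IsLarge.lg h' (R915.simple_AVZ h' hs) ha (hX _ hfa).2 (hf.irr hU h0))

/-- **Hodge classes, nondegenerate multiplicities.** -/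
theorem hodge_nondeg (X : AV) (hX : ∀ Y, IsFactor Y X → Cls Y) {c : ℂ → ℕ}
    (hc : IsCentreMult X c) (hs : IsSeparated c) (hnd : IsNondegenerate c) {m n : ℕ}
    (f : (Fin n → X.H) [⋀^Fin m × Fin 2]→ₗ[ℚ] ℚ) (hf : IsHodge (X.per.compLeft (Fin n)) f) :
    f ∈ divisorial (X.per.compLeft (Fin n)) m := by
  classical
  obtain ⟨a, Z, hZ, b, M, hC, hGd, hM, hMn, hinc⟩ := setup X hX hc hs
  have hfn : (fun s => pd Z (VE M s)) = c := funext hMn
  refine transport hZ b hC (fun f hf => mem_divisorial_of_MS hZ.det (fun c hc => ?_) f hf) f hf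
  rw [← hfn] at hnd
  exact ms_nondeg hZ hGd hM hnd hc

end

end Pool.Agent.K9h17.H
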