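import Mathlib
import Pool.Agent.K9h17.H.Glob
import Pool.Agent.K9h17.H.Hod

/-!
# Hodge classes are generated by classes of degree two and Weil classes
-/

set_option linter.unusedSectionVars false

namespace Pool.Agent.K9h17.H

open Matrix Module Pool.Agent.W437.HC Pool.Agent.W437.HD Pool.Agent.TH504.CB Pool.Agent.Y90
open Pool.Agent.W548.Odd hiding cv
open Pool.Agent.H204R3.CM (IsHodge)
open Pool.Agent.H204R3.SP Pool.Agent.H204R3.GP Pool.Agent.W522.U
open Pool.Agent.W437.HP (cK cK_mul cK_one)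
open Pool.Agent.R915 (IsSimple IsFactor VE mem_VE VE_cj VE_stab hom_iff)
open Pool.Agent.N183.TS Pool.Agent.N183.U5 Pool.Agent.Y224.TS Pool.Agent.K9h17.G
open Pool.Agent.K9h17.F
open Polynomial

noncomputable section

/-- Isogenies preserve simple abelian varieties. -/
theorem simple_iso {X Y : AV} {e : X.H ≃ₗ[ℚ] Y.H} (he : IsHom X Y e.toLinearMap)
    (hY : IsSimple Y) : IsSimple X := by
  obtain ⟨⟨v, hv⟩, hY⟩ := hY
  obtain ⟨Φ, hΦ⟩ := he
  refine ⟨⟨e.symm v, fun h => hv ?_⟩, fun U hU => ?_⟩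
  · rw [← e.apply_symm_apply v, h, map_zero]
  have h1 : Submodule.span ℝ (Y.per '' ((U.map e.toLinearMap : Submodule ℚ Y.H) : Set Y.H)) =
      (Submodule.span ℝ (X.per '' (U : Set X.H))).map (Φ.restrictScalars ℝ) := by
    rw [Submodule.map_span]
    congr 1
    ext y
    constructor
    · rintro ⟨_, ⟨u, hu, rfl⟩, rfl⟩
      exact ⟨X.per u, ⟨u, hu, rfl⟩, hΦ u⟩
    · rintro ⟨_, ⟨u, hu, rfl⟩, rfl⟩
      exact ⟨e u, ⟨u, hu, rfl⟩, (hΦ u).symm⟩
  have h2 : IsSub Y (U.map e.toLinearMap) := by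
    intro x hx
    rw [h1] at hx ⊢
    obtain ⟨y, hy, rfl⟩ := hx
    refine ⟨Complex.I • y, hU y hy, ?_⟩
    exact Φ.map_smul Complex.I y
  rcases hY _ h2 with h3 | h3
  · left
    rw [eq_bot_iff]
    intro u hu
    have h4 : e u ∈ U.map e.toLinearMap := ⟨u, hu, rfl⟩
    rw [h3, Submodule.mem_bot] at h4
    rw [Submodule.mem_bot]
    exact e.map_eq_zero_iff.1 h4
  · right
    rw [eq_top_iff]
    intro u _
    have h4 : e u ∈ U.map e.toLinearMap := by
      rw [h3]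
      trivial
    obtain ⟨u', hu', h5⟩ := h4
    rw [← e.injective h5]
    exact hu'

section ten

variable {B : Type*} [Fintype B] [DecidableEq B] {κ : Type*} [Fintype κ] [DecidableEq κ]
  {T : Type*} [AddCommGroup T] [Module ℂ T] {per : (B → ℚ) →+ T} {J : Matrix B B ℝ}

/-- Hodge tensors are killed by the complex structure. -/
theorem isH_ten (h : Cht per J) {f : MultilinearMap ℚ (fun _ : κ => B → ℚ) ℚ}
    (hf : IsHodgeTensor per f) : IsH (DJ J) (CF f) := by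
  obtain ⟨P, I, hP1, hP2, -, -⟩ := h.ex
  obtain ⟨ψ, hψ1, hψ2⟩ := hf
  rw [act_real (J := J) (D := DJ J) rfl]
  have h1 : ∀ x : κ → B → ℝ, ψ (fun k => P (x k)) = evalF (cst ℝ (CF f)) x := by
    intro x
    rw [show ψ (fun k => P (x k)) = ψ.compLinearMap (fun _ => P) x from rfl, multi_eq]
    congr 1
    funext I
    change ψ (fun k => P (Pi.single (I k) 1)) = ((f (fun k => Pi.single (I k) 1) : ℚ) : ℝ)
    rw [← hψ1]
    congr 1
    funext k
    rw [← hP1, single_castR]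
  apply act_of_rotate
  intro θ x
  rw [← h1, ← h1]
  refine Eq.trans ?_ (hψ2 (Complex.cos θ + Complex.sin θ * Complex.I) (by
    rw [← Complex.exp_mul_I, Complex.norm_exp_ofReal_mul_I]) _)
  congr 1
  funext k
  rw [map_add, map_smul, map_smul, hP2, smul_rot, Complex.ofReal_cos, Complex.ofReal_sin]

end ten

variable {G : ℕ} {Z : Matrix (Fin G) (Fin G) ℂ}

section main

variable (hZ : PM Z) (hs : IsSimpleAV Z) (hg : 0 < G)
  {M : Matrix (Fin G ⊕ Fin G) (Fin G ⊕ Fin G) ℚ} (k : MF Z M) {p : ℕ}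
  (hp : ∀ s : ℂ, aeval s (minpoly ℚ M) = 0 → pd Z (VE M s) = p)
  (hq : ∀ s : ℂ, aeval s (minpoly ℚ M) = 0 → qd Z (VE M s) = p)
  (hGd : Gd Z (Set.range (DS Z)))
include hZ hs hg k hp hq hGd

/-- Hodge tensors are combinations of products. -/
theorem tensors_Z {a : Module.End ℚ (AVZ hZ).H} (ha : ∀ v, a v = M *ᵥ v) {m : ℕ}
    (r : MultilinearMap ℚ (fun _ : Fin m × Fin 2 => (AVZ hZ).H) ℚ)
    (hr : IsHodgeTensor (AVZ hZ).per r) :
    (fun v => r v) ∈ Submodule.span ℚ (GX (AVZ hZ) a (2 * p) (Fin m × Fin 2)) := by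
  classical
  have h1 : IsH (DZ Z) (CF r) := isH_ten hZ.cht hr
  have h2 := inv_NW hZ hs hg k hp hq hGd ha (evalM (cst ℂ (CF r)))
    fun X hX => kills_of_isH h1 hX
  rw [mem_NW] at h2
  refine span_descent_k (Ω := ℂ) (GX (AVZ hZ) a (2 * p) (Fin m × Fin 2)) _ ?_
  refine (congrArg (· ∈ SC (AVZ hZ) a (2 * p) (Fin m × Fin 2)) ?_).mp h2
  funext v
  change evalF (cst ℂ (CF r)) (fun k => cv (v k)) = ((r v : ℚ) : ℂ)
  rw [CF_eval r v, evalF_castK]
  rfl

end main

end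

end Pool.Agent.K9h17.H
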