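import Mathlib
import Pool.Agent.K9h17.H.Ring

/-!
# Transport of the span along an isomorphism
-/

set_option linter.unusedSectionVars false

namespace Pool.Agent.K9h17.H

open Module Pool.Agent.Y90 Pool.Agent.K9h17.G
open Pool.Agent.H204R3.CM (IsHodge)
open Pool.Agent.R915 (hom_symm)

noncomputable section

variable {X Y : AV} {n m d : ℕ}

/-- The power of a linear map. -/
def pw (n : ℕ) {H H' : Type} [AddCommGroup H] [Module ℚ H] [AddCommGroup H'] [Module ℚ H']
    (e : H →ₗ[ℚ] H') : (Fin n → H) →ₗ[ℚ] (Fin n → H') :=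
  LinearMap.pi fun j => e ∘ₗ LinearMap.proj j

theorem pw_apply {H H' : Type} [AddCommGroup H] [Module ℚ H] [AddCommGroup H'] [Module ℚ H']
    (e : H →ₗ[ℚ] H') (v : Fin n → H) (j : Fin n) : pw n e v j = e (v j) := rfl

/-- Pull-back along an isomorphism. -/
theorem weilSpan_pull (e : X.H ≃ₗ[ℚ] Y.H) (he : IsHom X Y e.toLinearMap)
    {a : Module.End ℚ X.H} {a' : Module.End ℚ Y.H} (ha : ∀ v, e (a v) = a' (e v))
    {f : (Fin n → Y.H) [⋀^Fin m × Fin 2]→ₗ[ℚ] ℚ} (hf : f ∈ weilSpan Y a' d n m) :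
    f.compLinearMap (pw n e.toLinearMap) ∈ weilSpan X a d n m := by
  obtain ⟨Ψ', hΨ'⟩ := hom_symm e he
  obtain ⟨Ψ, hΨ⟩ := he
  let Ψn : (Fin n → X.T) →ₗ[ℂ] (Fin n → Y.T) := LinearMap.pi fun j => Ψ ∘ₗ LinearMap.proj j
  have hn : ∀ w, (Y.per.compLeft (Fin n)) (pw n e.toLinearMap w) =
      Ψn (X.per.compLeft (Fin n) w) := by
    intro w
    funext j
    exact (hΨ (w j)).symm
  unfold weilSpan at hf
  induction hf using Submodule.span_induction with
  | mem g hg =>
    obtain ⟨r, s, e₀, B, w, h, h1, h2, h3⟩ := hg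
    refine Submodule.subset_span ⟨r, s, e₀, fun l => (B l).compLinearMap (pw n e.toLinearMap),
      fun j => (w j).compLinearMap e.toLinearMap,
      fun j => e.symm.toLinearMap.comp ((h j).comp (pw n e.toLinearMap)),
      fun l => W437.HK.isHodge_pullback hn (h1 l), fun j => ⟨⟨?_, ?_⟩, ?_⟩, fun v => ?_⟩
    · exact W437.HK.isHodge_pullback (fun w => (hΨ w).symm) (h2 j).1.1
    · intro v k l
      have h4 : ∀ k : Fin d, (w j).compLinearMap e.toLinearMap (Function.update v k (a (v k))) =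
          w j (Function.update (fun i => e (v i)) k (a' (e (v k)))) := by
        intro k
        change w j (fun i => e (Function.update v k (a (v k)) i)) = _
        congr 1
        funext i
        by_cases hi : i = k
        · subst hi
          rw [Function.update_self, Function.update_self, ha]
        · rw [Function.update_of_ne hi, Function.update_of_ne hi]
      rw [h4, h4]
      exact (h2 j).1.2 (fun i => e (v i)) k l
    · obtain ⟨Θ, hΘ⟩ := (h2 j).2
      refine ⟨Ψ'.comp (Θ.comp Ψn), fun v => ?_⟩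
      change Ψ' (Θ (Ψn (X.per.compLeft (Fin n) v))) = X.per (e.symm (h j (pw n e.toLinearMap v)))
      rw [← hn, hΘ]
      exact hΨ' _
    · change g (fun k => pw n e.toLinearMap (v k)) = _
      rw [h3]
      refine Finset.sum_congr rfl fun σ _ => ?_
      congr 2
      refine Finset.prod_congr rfl fun j _ => ?_
      change _ = w j (fun k => e (e.symm (h j (pw n e.toLinearMap (v (σ (e₀ (Sum.inr (j, k)))))))))
      congr 1
      funext k
      rw [e.apply_symm_apply]
  | zero => exact Submodule.zero_mem _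
  | add f g _ _ hf hg => exact Submodule.add_mem _ hf hg
  | smul c f _ hf => exact Submodule.smul_mem _ c hf

/-- Transport. -/
theorem weilSpan_iso (e : X.H ≃ₗ[ℚ] Y.H) (he : IsHom X Y e.toLinearMap)
    {a : Module.End ℚ X.H} {a' : Module.End ℚ Y.H} (ha : ∀ v, e (a v) = a' (e v))
    (hall : ∀ f : (Fin n → Y.H) [⋀^Fin m × Fin 2]→ₗ[ℚ] ℚ,
      IsHodge (Y.per.compLeft (Fin n)) f → f ∈ weilSpan Y a' d n m)
    (f : (Fin n → X.H) [⋀^Fin m × Fin 2]→ₗ[ℚ] ℚ) (hf : IsHodge (X.per.compLeft (Fin n)) f) :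
    f ∈ weilSpan X a d n m := by
  obtain ⟨Ψ', hΨ'⟩ := hom_symm e he
  let Ψn : (Fin n → Y.T) →ₗ[ℂ] (Fin n → X.T) := LinearMap.pi fun j => Ψ' ∘ₗ LinearMap.proj j
  have hn : ∀ w, (X.per.compLeft (Fin n)) (pw n e.symm.toLinearMap w) =
      Ψn (Y.per.compLeft (Fin n) w) := by
    intro w
    funext j
    exact (hΨ' (w j)).symm
  have h1 := hall _ (W437.HK.isHodge_pullback hn hf)
  have h2 := weilSpan_pull e he ha h1
  have h3 : (f.compLinearMap (pw n e.symm.toLinearMap)).compLinearMap (pw n e.toLinearMap) = f := by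
    ext v
    change f (fun k => pw n e.symm.toLinearMap (pw n e.toLinearMap (v k))) = f v
    congr 1
    funext k j
    exact e.symm_apply_apply (v k j)
  rwa [h3] at h2

end

end Pool.Agent.K9h17.H
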