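import Mathlib
import Pool.Agent.K9h17.H.Iso
import Pool.Agent.K9h17.E.Ten
import Pool.Agent.K9h17.E.Alt
import Pool.Agent.K9h17.E.Mix

/-!
# Hodge classes and Tate classes are generated by classes of degree two and Weil classes
-/

set_option linter.unusedSectionVars false

namespace Pool.Agent.K9h17.H

open Matrix Module Pool.Agent.Y90 Pool.Agent.R915 Pool.Agent.N183.U5 Polynomial TensorProduct
open Pool.Agent.K9h17.S Pool.Agent.K9h17.T Pool.Agent.K9h17.C Pool.Agent.K9h17.G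
open Pool.Agent.K9h17.D Pool.Agent.K9h17.E
open Pool.Agent.H204R3.CM (IsHodge)
open Pool.Agent.H204R3.GP (IsTateClass)
open Pool.Agent.Y224.TS.St (IsTateModule)
open Pool.Agent.W437.HP (cK cK_mul cK_one)

noncomputable section

variable {X : AV} (hX : IsSimple X) {a : Module.End ℚ X.H} (ha : MaxField X a)
  {Ψ : Module.End ℂ X.T} (hΨ : ∀ v, Ψ (X.per v) = X.per (a v)) {p : ℕ}
  (hbal : ∀ s : ℂ, aeval s (minpoly ℚ a) = 0 → finrank ℂ (Ψ.eigenspace s) = p)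
  (hdim : (minpoly ℚ a).natDegree * (2 * p) = finrank ℚ X.H) (hodd : Odd p)
  {φ : Module.End ℚ X.H} (hφ : CentreGen X φ)
  (hIV : ∀ s : ℂ, aeval s (minpoly ℚ φ) = 0 → s.im ≠ 0)
include hX ha hΨ hbal hdim hodd hφ hIV

theorem balanced_cls : F.BalancedIV X :=
  ⟨a, Ψ, p, ha, hΨ, hodd, hbal, by rw [← two_mul]; exact hdim, φ, hφ, hIV⟩

/-- **The Hodge ring.** -/
theorem hodge_ring {n m : ℕ} (f : (Fin n → X.H) [⋀^Fin m × Fin 2]→ₗ[ℚ] ℚ)
    (hf : IsHodge (X.per.compLeft (Fin n)) f) : f ∈ weilSpan X a (2 * p) n m := by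
  have hb : F.BalancedIV X := balanced_cls hX ha hΨ hbal hdim hodd hφ hIV
  obtain ⟨Φ, hΦ⟩ := hφ.1
  have hpos : ∀ s : ℂ, aeval s (minpoly ℚ a) = 0 → 0 < finrank ℂ (Ψ.eigenspace s) :=
    fun s hs => by rw [hbal s hs]; exact hodd.pos
  obtain ⟨G, Z, hZ, b, M', hC, hGd, -, -, -⟩ := setup X (fun Y hY => by
    obtain ⟨e, he⟩ := factor_simple hX hY
    exact Or.inr (Or.inr (F.balancedIV_iso he hb)))
    (n := fun s => finrank ℂ (Module.End.eigenspace (Φ : Module.End ℂ X.T) s))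
    ⟨φ, Φ, hφ, hΦ, fun _ => rfl⟩ (sep_simple ha hφ hΨ (Φ := Φ) hΦ hpos)
  -- the isomorphism
  obtain ⟨Ψ₁, h₁⟩ := hZ.cht.hom hC (R := 1) (by rw [cK_one, Matrix.one_mul, Matrix.mul_one])
  let e : (AVZ hZ).H ≃ₗ[ℚ] X.H := b.equivFun.symm
  have he : IsHom (AVZ hZ) X e.toLinearMap := ⟨Ψ₁, fun w => by
    have h3 := h₁ w
    rw [one_mulVec] at h3
    exact h3⟩
  have hs : IsSimple (AVZ hZ) := simple_iso he hX
  have hs' := simple_AVZ hZ hs
  have hg : 0 < G := by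
    rcases Nat.eq_zero_or_pos G with h0 | h0
    · exfalso
      obtain ⟨v, hv⟩ := hs.1
      subst h0
      apply hv
      funext i
      rcases i with i | i <;> exact i.elim0
    · exact h0
  obtain ⟨Ψ', h1, h2⟩ := exists_tan he hΨ
  have k := maxField_iso he ha
  have hpd : ∀ s : ℂ, aeval s (minpoly ℚ (LinearMap.toMatrix' (cjg e a))) = 0 →
      pd Z (VE (LinearMap.toMatrix' (cjg e a)) s) = p := by
    intro s hs0
    rw [minpoly_mat, minpoly_cjg] at hs0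
    rw [pd_mult hZ k h1 s, h2, hbal s hs0]
  have hdeg : 0 < (minpoly ℚ (LinearMap.toMatrix' (cjg e a))).natDegree := by
    rw [Nat.pos_iff_ne_zero]
    intro h5
    rw [minpoly_mat, minpoly_cjg] at h5
    rw [h5, zero_mul] at hdim
    have h6 := e.finrank_eq
    rw [← hdim, finrank_AVZ] at h6
    omega
  have hqd : ∀ s : ℂ, aeval s (minpoly ℚ (LinearMap.toMatrix' (cjg e a))) = 0 →
      qd Z (VE (LinearMap.toMatrix' (cjg e a)) s) = p := by
    intro s hs0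
    have h3 := (k.mf hZ).dim hZ hs' hg (VE_ne_of_root hs0)
    have h6 : (minpoly ℚ (LinearMap.toMatrix' (cjg e a))).natDegree * (2 * p) = 2 * G := by
      rw [minpoly_mat, minpoly_cjg, hdim, ← e.finrank_eq, finrank_AVZ]
    rw [← h6] at h3
    have h4 := Nat.eq_of_mul_eq_mul_left hdeg h3
    have h7 := pd_add_qd hZ (VE_stab (k.mf hZ).comm s)
    rw [h4, hpd s hs0] at h7
    omega
  refine weilSpan_iso e.symm (hom_symm e he) (a' := cjg e a) (fun v => ?_) (fun f' hf' => ?_) f hf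
  · rw [cjg_apply]
    change e.symm (a v) = e.symm (a (e (e.symm v)))
    rw [e.apply_symm_apply]
  · refine weilSpan_of_tensors (fun r hr => ?_) f' hf'
    refine tensors_Z hZ hs' hg (k.mf hZ) hpd hqd hGd (fun v => ?_) r hr
    rw [← Matrix.toLin'_apply, Matrix.toLin'_toMatrix']

variable {K : Type} [Field K] [CharZero K] [Algebra K ℂ] [Algebra.IsAlgebraic K ℂ]
  {Γ : Type} [Group Γ]
  {E : X.H → X.H → ℚ} (hE : Pool.Agent.Y90.St.IsPolarization X.per E)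
  {ρ : Representation K Γ (K ⊗[ℚ] X.H)} {χ : Γ →* K} (hρ : IsTateModule X.per E ρ χ)
include hE hρ

/-- **The ring of Tate classes.** -/
theorem tate_ring {n m : ℕ} (f : (Fin n → K ⊗[ℚ] X.H) [⋀^Fin m × Fin 2]→ₗ[K] K)
    (hf : IsTateClass ρ χ m f) :
    ∃ (N : ℕ) (c : Fin N → K) (g : Fin N → (Fin n → X.H) [⋀^Fin m × Fin 2]→ₗ[ℚ] ℚ),
      (∀ j, g j ∈ weilSpan X a (2 * p) n m) ∧ ∀ v : Fin m × Fin 2 → Fin n → X.H,
        f (fun l i => (1 : K) ⊗ₜ[ℚ] v l i) = ∑ j, c j * ((g j v : ℚ) : K) := by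
  have hb : F.BalancedIV X := balanced_cls hX ha hΨ hbal hdim hodd hφ hIV
  obtain ⟨Φ, hΦ⟩ := hφ.1
  have hpos : ∀ s : ℂ, aeval s (minpoly ℚ a) = 0 → 0 < finrank ℂ (Ψ.eigenspace s) :=
    fun s hs => by rw [hbal s hs]; exact hodd.pos
  have h1 := tateIsHodge_of (tensor_all X hE (fun Y hY => by
    obtain ⟨e, he⟩ := factor_simple hX hY
    exact Or.inr (Or.inr (Or.inr (F.balancedIV_iso he hb))))
    (n := fun s => finrank ℂ (Module.End.eigenspace (Φ : Module.End ℂ X.T) s))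
    ⟨φ, Φ, hφ, hΦ, fun _ => rfl⟩ (sep_simple ha hφ hΨ (Φ := Φ) hΦ hpos) hρ)
  obtain ⟨N, c, g, h2, h3⟩ := h1 n m f hf
  exact ⟨N, c, g, fun j => hodge_ring hX ha hΨ hbal hdim hodd hφ hIV (g j) (h2 j), h3⟩

end

end Pool.Agent.K9h17.H
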