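import Mathlib
import Pool.Agent.K9h17.H.BDet
import Pool.Agent.K9h17.H.Main

/-!
# Invariant forms and the ring
-/

set_option linter.unusedSectionVars false

namespace Pool.Agent.K9h17.H

open Matrix Module Pool.Agent.W437.HC Pool.Agent.W437.HD Pool.Agent.TH504.CB Pool.Agent.Y90
open Pool.Agent.W548.Odd hiding cv
open Pool.Agent.H204R3.CM (IsHodge altFun)
open Pool.Agent.H204R3.SP Pool.Agent.H204R3.GP Pool.Agent.W522.U
open Pool.Agent.W437.HP (cK cK_mul cK_one)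
open Pool.Agent.R915 (IsSimple VE mem_VE VE_cj VE_stab hom_iff exists_spec root_conj finrank_AVZ
  simple_of)
open Pool.Agent.N183.TS Pool.Agent.N183.U5 Pool.Agent.Y224.TS Pool.Agent.K9h17.G
open Polynomial

noncomputable section

/-- The multiplicities in terms of the period matrix. -/
theorem IsBalanced.dims {G : ℕ} {Z : Matrix (Fin G) (Fin G) ℂ} (hZ : PM Z) (hs : IsSimpleAV Z)
    (hg : 0 < G) (h : IsBalanced (AVZ hZ)) : ∃ (a : Module.End ℚ (AVZ hZ).H) (p : ℕ),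
    MaxField (AVZ hZ) a ∧ 0 < p ∧ (minpoly ℚ a).natDegree * (2 * p) = finrank ℚ (AVZ hZ).H ∧
    (∀ s : ℂ, aeval s (minpoly ℚ (LinearMap.toMatrix' a)) = 0 →
      pd Z (VE (LinearMap.toMatrix' a) s) = p) ∧
    (∀ s : ℂ, aeval s (minpoly ℚ (LinearMap.toMatrix' a)) = 0 →
      qd Z (VE (LinearMap.toMatrix' a) s) = p) := by
  obtain ⟨a, Ψ, p, k, hΨ, hc, hbal, hdim, -⟩ := h
  have hp0 : 0 < p := by
    rcases hc with h1 | h1
    · exact h1.pos
    · omega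
  have hpd : ∀ s : ℂ, aeval s (minpoly ℚ (LinearMap.toMatrix' a)) = 0 →
      pd Z (VE (LinearMap.toMatrix' a) s) = p := by
    intro s hs0
    rw [minpoly_mat] at hs0
    rw [pd_mult hZ k hΨ s, hbal s hs0]
  have hdeg : 0 < (minpoly ℚ (LinearMap.toMatrix' a)).natDegree := by
    rw [Nat.pos_iff_ne_zero]
    intro h5
    rw [minpoly_mat] at h5
    rw [h5, zero_mul, finrank_AVZ] at hdim
    omega
  refine ⟨a, p, k, hp0, hdim, hpd, fun s hs0 => ?_⟩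
  have h3 := (k.mf hZ).dim hZ hs hg (VE_ne_of_root hs0)
  have h6 : (minpoly ℚ (LinearMap.toMatrix' a)).natDegree * (2 * p) = 2 * G := by
    rw [minpoly_mat, hdim, finrank_AVZ]
  rw [← h6] at h3
  have h4 := Nat.eq_of_mul_eq_mul_left hdeg h3
  have h7 := pd_add_qd hZ (VE_stab (k.mf hZ).comm s)
  rw [h4, hpd s hs0] at h7
  omega

/-- Self-dual submodules of a factor. -/
theorem sdu_fac {G r : ℕ} {Z : Matrix (Fin G) (Fin G) ℂ} {Z' : Matrix (Fin r) (Fin r) ℂ}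
    {E : Matrix (Fin G ⊕ Fin G) (Fin r ⊕ Fin r) ℚ} {F : Matrix (Fin r ⊕ Fin r) (Fin G ⊕ Fin G) ℚ}
    (hf : Fac Z Z' E F) {U : Submodule ℂ (Fin G ⊕ Fin G → ℂ)} (h : SDu Z' (U.map (ml F))) :
    SDu Z U := by
  obtain ⟨b, ⟨_, ⟨u, hu, rfl⟩, _, ⟨v, hv, rfl⟩, huv⟩, hb⟩ := h
  refine ⟨b.compl₁₂ (ml F) (ml F), ⟨u, hu, v, hv, huv⟩, fun X hX u hu v hv => ?_⟩
  rw [LinearMap.compl₁₂_apply, LinearMap.compl₁₂_apply, hf.act hX, hf.act hX]
  exact hb _ (hf.comp hX).1 _ ⟨u, hu, rfl⟩ _ ⟨v, hv, rfl⟩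

/-- If an irreducible submodule is not self-dual then the simple factor is of type IV. -/
theorem IsBalanced.typeIV {G : ℕ} {Z : Matrix (Fin G) (Fin G) ℂ} (hZ : PM Z) (hs : IsSimpleAV Z)
    (hg : 0 < G) (h : IsBalanced (AVZ hZ)) {U : Submodule ℂ (Fin G ⊕ Fin G → ℂ)}
    (hU : IrS (LZ Z) U) (hn : ¬SDu Z U) : IsTypeIV (AVZ hZ) := by
  obtain ⟨a, Ψ, p, k, hΨ, hodd, hbal, hdim, hr | hIV⟩ := h
  · have h1 : R915.RealMax (AVZ hZ) a := ⟨k.1, hr, k.2⟩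
    exact absurd ((h1.rf hZ).sdu hZ hs hg hU) hn
  · exact hIV

section inv

variable {G : ℕ} {Z : Matrix (Fin G) (Fin G) ℂ} (hZ : PM Z)
  (hB : ∀ (a' : ℕ) (Z' : Matrix (Fin a') (Fin a') ℂ)
      (E' : Matrix (Fin G ⊕ Fin G) (Fin a' ⊕ Fin a') ℚ)
      (F' : Matrix (Fin a' ⊕ Fin a') (Fin G ⊕ Fin G) ℚ), Fac Z Z' E' F' → ∀ h' : PM Z',
      IsSimpleAV Z' → 0 < a' → IsBalanced (AVZ h'))
include hZ hB

/-- The determinants. -/
theorem det_mem_NB {U : Submodule ℂ (Fin G ⊕ Fin G → ℂ)} (hU : IrS (LZ Z) U)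
    {ι : Type} [Fintype ι] [DecidableEq ι] (f : Basis ι ℂ U)
    (q : ι → (Fin G ⊕ Fin G → ℂ) →ₗ[ℂ] U)
    (hq' : ∀ y, ∀ X ∈ LZ Z, ∀ v, (q y (X *ᵥ v) : Fin G ⊕ Fin G → ℂ) = X *ᵥ (q y v))
    (hn : ¬SDu Z U) : f.det.toMultilinearMap.compLinearMap q ∈ NB hZ ι := by
  obtain ⟨r, Z', E, F, hf, h', hs', hr, h0⟩ := exists_fac hZ hU.1
  have hIV := (hB r Z' E F hf h' hs' hr).typeIV h' hs' hr (hf.irr hU h0)
    (fun h1 => hn (sdu_fac hf h1))
  obtain ⟨a, p, ha, -, hd, hp, hq⟩ := (hB r Z' E F hf h' hs' hr).dims h' hs' hr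
  exact det_NB hZ hf h' hs' hr (simple_of r h' hs' hr) hIV ha hp hq hd hU h0 f q hq'

/-- The multiplicities of irreducible submodules. -/
theorem irr_dims {U : Submodule ℂ (Fin G ⊕ Fin G → ℂ)} (hU : IrS (LZ Z) U) :
    ∃ p : ℕ, 0 < p ∧ pd Z U = p ∧ qd Z U = p := by
  obtain ⟨r, Z', E, F, hf, h', hs', hr, h0⟩ := exists_fac hZ hU.1
  obtain ⟨a, p, ha, hp0, hd, hp, hq⟩ := (hB r Z' E F hf h' hs' hr).dims h' hs' hr
  have hinj := hf.inj hU h0
  have hU' := hf.irr hU h0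
  have k := ha.mf h'
  obtain ⟨s, T, hs0, hne, hT, hi, hTU⟩ := k.proj h' hs' hr hU'
  have h1 := hf.tr_map hinj hU.2.1
  have h2 : pd Z' (VE (LinearMap.toMatrix' a) s) = pd Z' (U.map (ml F)) :=
    pd_iso hT hi hU'.2.1 hTU
  have h3 := pd_add_qd h' hU'.2.1
  have h4 := pd_add_qd h' (VE_stab k.comm s)
  have h5 := pd_add_qd hZ hU.2.1
  have h6 : finrank ℂ (U.map (ml F)) = finrank ℂ U := finrank_ml hinj
  have h7 : finrank ℂ (VE (LinearMap.toMatrix' a) s) = finrank ℂ (U.map (ml F)) := by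
    rw [← hTU]
    exact finrank_map_of_inj hi
  have h8 := hp s hs0
  have h9 := hq s hs0
  unfold Pool.Agent.Y90.tr at h1
  refine ⟨p, hp0, ?_, ?_⟩ <;> omega

variable {S : Set (Matrix (Fin G ⊕ Fin G) (Fin G ⊕ Fin G) ℂ)} (h : TD Z S) (hGd : Gd Z S)
include h hGd

/-- Invariant forms. -/
theorem inv_NB {m : ℕ}
    (φ : MultilinearMap ℂ (fun _ : Fin m × Fin 2 => Fin G ⊕ Fin G → ℂ) ℂ)
    (hφ : ∀ D ∈ S, Kills (ph (Fin G ⊕ Fin G) D) φ) : φ ∈ NB hZ (Fin m × Fin 2) := by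
  classical
  have hinv : ∀ (g : Gam (GG (Y224.TS.LT S))) v,
      φ (fun k => RG (GG (Y224.TS.LT S)) g (v k)) = φ v := by
    intro g v
    refine inv_gam φ (fun D hD _ => ?_) g v
    obtain ⟨X, hX, rfl⟩ := exists_GG hD
    exact kills_LT hφ hX
  have hSI : ∀ {U}, W522.U.SI (RG (GG (Y224.TS.LT S))) U ↔ IrS (LZ Z) U := fun {U} => h.si hZ
  have hpr := gz_proj h.genI h.cr
  obtain ⟨s, W, hW, hWW, hall⟩ := exists_reps hpr
  obtain ⟨st, hst, hDu, hDu'⟩ := exists_st (χ := 1) hpr (om G) om_nd (h.om' hZ) W hW hWW hall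
  refine R915.forms_mem' (χ := 1) (fun Δ hΔ => fi_top Δ hΔ) (om G) om_nd (h.om' hZ) ?_ ?_ ?_ hpr
    W hW hWW hall st hst hDu hDu' (NB hZ) (clo_NB hZ) ?_ ?_ φ ?_
  · intro U hU hn
    exact (hGd.r _ (hSI.1 hU) hn).unip h
  · intro U hU hn
    exact h.line hZ (hSI.1 hU) hn
  · intro U U' hU hU' hn _ ψ hT
    exact hGd.t U U' (hSI.1 hU) (hSI.1 hU') hn ψ hT
  · intro b hb
    have hKB : KB Z b := by
      refine (h.bil b (fun X hX => hZ.om_sp hX)).1 (fun X hX u v => ?_)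
      exact (gz_bil h.genI stab_top stab_top b).1 (fun g u _ v _ => by
        rw [hb, MonoidHom.one_apply, one_mul]) X hX u trivial v trivial
    exact pair_NB hZ hKB
  · intro c hc hcg ι _ _ f q hq' ψ hψ
    have hW' : ∀ i, IrS (LZ Z) (W i) := fun i => hSI.1 (hW i)
    refine (clo_NB hZ).fam_prod (A := Σ i, Fin (c i).toNat) ι
      (fun j => ((f j).det.toMultilinearMap.compLinearMap (q j))) (fun j => ?_)
      (Equiv.refl _) ψ fun v => ?_
    · refine det_mem_NB hZ hB (hW' j.1) (f j) (q j) (fun y X hX v => ?_) ?_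
      · have h1 := (gz_equiv h.genI stab_top ((W j.1).subtype.comp (q j y))).1
          (fun g u _ => hq' j y g u)
        exact (h.eqv ((W j.1).subtype.comp (q j y))).1 (fun X hX w => h1 X hX w trivial) X hX v
      · intro hsd
        have h1 : Du (RG (GG (Y224.TS.LT S))) 1 (W j.1) (W j.1) :=
          (h.du hZ (hW' j.1).2.1 (hW' j.1).2.1).2 ((rz_du hZ (hW' j.1).2.1 (hW' j.1).2.1).2 hsd)
        have h2 : j.1 = st j.1 := hDu' _ _ h1
        have h3 : c j.1 = 0 := by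
          have h4 := hc j.1
          rw [← h2] at h4
          omega
        have h5 := j.2.isLt
        omega
    · rw [hψ]
      rfl
  · refine ⟨⊤, inferInstance, fun g _ v => ?_⟩
    rw [MonoidHom.one_apply, one_pow, one_mul]
    exact hinv g v

end inv

end

end Pool.Agent.K9h17.H
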