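import Mathlib
import Pool.Agent.K9h17.H.BInv

/-!
# The centre of the endomorphism algebra is generated by one element
-/

set_option linter.unusedSectionVars false

namespace Pool.Agent.K9h17.H

open Matrix Module Pool.Agent.W437.HC Pool.Agent.W437.HD Pool.Agent.W548.Odd
open Pool.Agent.H204R3.SP Pool.Agent.H204R3.GP Pool.Agent.Y90 Pool.Agent.Y224.TS
open Pool.Agent.W437.HP (cK cK_mul cK_one)
open Pool.Agent.R915 (CentM commL_of aeval_eig aeval_eigC)
open Pool.Agent.N183.TS Pool.Agent.N183.U5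
open Polynomial

noncomputable section

variable {G : ℕ} {Z : Matrix (Fin G) (Fin G) ℂ}

/-- Irreducible submodules exist. -/
theorem exists_irr_le (n : ℕ) : ∀ {V : Submodule ℂ (Fin G ⊕ Fin G → ℂ)}, finrank ℂ V = n →
    Stab (LZ Z) V → V ≠ ⊥ → ∃ U ≤ V, IrS (LZ Z) U := by
  induction n using Nat.strong_induction_on with
  | _ n ih =>
    intro V hn hV h0
    by_cases h : IrS (LZ Z) V
    · exact ⟨V, le_rfl, h⟩
    · have h1 : ∃ W ≤ V, Stab (LZ Z) W ∧ W ≠ ⊥ ∧ W ≠ V := by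
        by_contra hcon
        push Not at hcon
        exact h ⟨h0, hV, fun W hW hs => by
          by_cases h2 : W = ⊥
          · exact Or.inl h2
          · exact Or.inr (hcon W hW hs h2)⟩
      obtain ⟨W, hW, hWs, hW0, hWV⟩ := h1
      have h2 : finrank ℂ W < n := by
        rw [← hn]
        exact Submodule.finrank_lt_finrank_of_lt (lt_of_le_of_ne hW hWV)
      obtain ⟨U, hU, hU'⟩ := ih _ h2 rfl hWs hW0
      exact ⟨U, hU.trans hW, hU'⟩

/-- A matrix which commutes with the Lie algebra and kills all irreducible submodules is zero. -/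
theorem zero_of_irr (h : PM Z) {T : Matrix (Fin G ⊕ Fin G) (Fin G ⊕ Fin G) ℂ}
    (hT : ∀ X ∈ LZ Z, X * T = T * X)
    (h0 : ∀ U, IrS (LZ Z) U → ∀ u ∈ U, T *ᵥ u = 0) : T = 0 := by
  let K : Submodule ℂ (Fin G ⊕ Fin G → ℂ) := LinearMap.ker (mulVecLin T)
  have hK : ∀ {u}, u ∈ K ↔ T *ᵥ u = 0 := by
    intro u
    change mulVecLin T u = 0 ↔ _
    rw [mulVecLin_apply]
  have hKs : Stab (LZ Z) K := by
    intro X hX u hu
    rw [hK] at hu ⊢
    rw [mulVec_mulVec, ← hT X hX, ← mulVec_mulVec, hu, mulVec_zero]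
  obtain ⟨π, h1, h2, h3⟩ := h.cred K hKs
  let K' : Submodule ℂ (Fin G ⊕ Fin G → ℂ) := LinearMap.ker π
  have hK's : Stab (LZ Z) K' := by
    intro X hX u hu
    have hu' : π u = 0 := hu
    change π (X *ᵥ u) = 0
    rw [h1 X hX, hu', mulVec_zero]
  have h4 : K' = ⊥ := by
    by_contra h5
    obtain ⟨U, hU, hU'⟩ := exists_irr_le (Z := Z) _ rfl hK's h5
    obtain ⟨u, hu, hu0⟩ := Submodule.exists_mem_ne_zero_of_ne_bot hU'.1
    apply hu0
    have h6 : π u = u := h3 u (hK.2 (h0 U hU' u hu))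
    rw [← h6]
    exact hU hu
  have h5 : ∀ w, w ∈ K := by
    intro w
    have h6 : w - π w ∈ K' := by
      change π (w - π w) = 0
      rw [map_sub, h3 _ (h2 w), sub_self]
    rw [h4, Submodule.mem_bot, sub_eq_zero] at h6
    rw [h6]
    exact h2 w
  ext i j
  have h6 := congrFun (hK.1 (h5 (Pi.single j 1))) i
  rw [mulVec_single_one] at h6
  exact h6

theorem qm_add' {B : Type*} (M N : Matrix B B ℚ) : qm (M + N) = qm M + qm N := by
  ext i j
  simp [qm]

theorem qm_mul' {B : Type*} [Fintype B] (M N : Matrix B B ℚ) : qm (M * N) = qm M * qm N := by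
  ext i j
  simp [qm, Matrix.mul_apply]

/-- Combinations of central matrices are central. -/
theorem cent_add_smul {C B : Matrix (Fin G ⊕ Fin G) (Fin G ⊕ Fin G) ℚ} (hC : CentM Z C)
    (hB : CentM Z B) (t : ℚ) : CentM Z (C + t • B) := by
  refine ⟨?_, fun R hR => ?_⟩
  · rw [qm_add', qm_smul, Matrix.add_mul, Matrix.mul_add, Matrix.smul_mul, Matrix.mul_smul, hC.1,
      hB.1]
  · rw [Matrix.add_mul, Matrix.mul_add, Matrix.smul_mul, Matrix.mul_smul, hC.2 R hR, hB.2 R hR]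

/-- The scalars of a central matrix on the irreducible submodules. -/
def spc (Z : Matrix (Fin G) (Fin G) ℂ) (C : Matrix (Fin G ⊕ Fin G) (Fin G ⊕ Fin G) ℚ) : Set ℂ :=
  {z | ∃ U, IrS (LZ Z) U ∧ ∀ u ∈ U, qm C *ᵥ u = z • u}

theorem spc_sub (C : Matrix (Fin G ⊕ Fin G) (Fin G ⊕ Fin G) ℚ) :
    spc Z C ⊆ ((qm C).charpoly.roots.toFinset : Set ℂ) := by
  rintro z ⟨U, hU, hz⟩
  obtain ⟨u, hu, hu0⟩ := Submodule.exists_mem_ne_zero_of_ne_bot hU.1
  have h1 : Module.End.HasEigenvalue (Matrix.toLin' (qm C)) z := by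
    refine Module.End.hasEigenvalue_of_hasEigenvector (x := u) ⟨?_, hu0⟩
    rw [Module.End.mem_eigenspace_iff, Matrix.toLin'_apply, hz u hu]
  have h2 := (Module.End.hasEigenvalue_iff_isRoot_charpoly _ _).1 h1
  rw [Matrix.charpoly_toLin'] at h2
  rw [Finset.mem_coe, Multiset.mem_toFinset, mem_roots (Matrix.charpoly_monic _).ne_zero]
  exact h2

theorem spc_fin (C : Matrix (Fin G ⊕ Fin G) (Fin G ⊕ Fin G) ℚ) : (spc Z C).Finite :=
  (Finset.finite_toSet _).subset (spc_sub C)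

theorem spc_card (C : Matrix (Fin G ⊕ Fin G) (Fin G ⊕ Fin G) ℚ) : (spc Z C).ncard ≤ G + G := by
  refine (Set.ncard_le_ncard (spc_sub C) (Finset.finite_toSet _)).trans ?_
  rw [Set.ncard_coe_finset]
  refine (Multiset.toFinset_card_le _).trans ?_
  refine (Polynomial.card_roots' _).trans ?_
  rw [Matrix.charpoly_natDegree_eq_dim, Fintype.card_sum, Fintype.card_fin]

/-- A rational matrix which is a complex polynomial in a rational matrix is a rational one. -/
theorem mem_adjoin_of_aeval {C B : Matrix (Fin G ⊕ Fin G) (Fin G ⊕ Fin G) ℚ} {p : ℂ[X]}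
    (h : qm B = aeval (qm C) p) : B ∈ Algebra.adjoin ℚ {C} := by
  obtain ⟨l, hl⟩ : ∃ l : ℂ →ₗ[ℚ] ℚ, l 1 = 1 := by
    obtain ⟨l, hl⟩ := LinearMap.exists_leftInverse_of_injective (Algebra.linearMap ℚ ℂ)
      (LinearMap.ker_eq_bot.2 (algebraMap ℚ ℂ).injective)
    refine ⟨l, ?_⟩
    have h1 := LinearMap.congr_fun hl 1
    simpa using h1
  have hlq : ∀ q : ℚ, l (q : ℂ) = q := by
    intro q
    have h1 : ((q : ℚ) : ℂ) = q • (1 : ℂ) := by rw [Rat.smul_def, mul_one]
    rw [h1, map_smul, hl, smul_eq_mul, mul_one]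
  have hpow : ∀ n : ℕ, qm C ^ n = qm (C ^ n) := by
    intro n
    induction n with
    | zero =>
      ext i j
      simp [qm, Matrix.one_apply, apply_ite]
    | succ n ih => rw [pow_succ, pow_succ, qm_mul', ih]
  have h1 : B = ∑ n ∈ Finset.range (p.natDegree + 1), l (p.coeff n) • C ^ n := by
    ext i j
    have h2 := congrFun (congrFun h i) j
    rw [aeval_eq_sum_range, Matrix.sum_apply] at h2
    have h3 := congrArg l h2
    rw [map_sum] at h3
    rw [Matrix.sum_apply]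
    have h4 : l (qm B i j) = B i j := hlq _
    rw [h4] at h3
    rw [h3]
    refine Finset.sum_congr rfl fun n _ => ?_
    rw [hpow, Matrix.smul_apply, Matrix.smul_apply, smul_eq_mul, smul_eq_mul]
    change l (p.coeff n * (((C ^ n) i j : ℚ) : ℂ)) = _
    rw [mul_comm, ← Rat.smul_def, map_smul, smul_eq_mul, mul_comm]
  rw [h1]
  exact Subalgebra.sum_mem _ fun n _ => Subalgebra.smul_mem _ (Subalgebra.pow_mem _
    (Algebra.self_mem_adjoin_singleton ℚ C) n) _

/-- **The centre** is generated by one element. -/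
theorem exists_CG (h : PM Z) : ∃ M, CG Z M := by
  classical
  -- a central matrix with the largest number of scalars
  obtain ⟨C, hC, hmax⟩ : ∃ C, CentM Z C ∧ ∀ B, CentM Z B → (spc Z B).ncard ≤ (spc Z C).ncard := by
    let P : ℕ → Prop := fun n => ∃ C, CentM Z C ∧ (spc Z C).ncard = n
    have hP0 : ∃ n, n ≤ G + G ∧ P n := by
      refine ⟨(spc Z (0 : Matrix (Fin G ⊕ Fin G) (Fin G ⊕ Fin G) ℚ)).ncard, spc_card _, 0, ⟨?_, ?_⟩,
        rfl⟩
      · have h1 : qm (0 : Matrix (Fin G ⊕ Fin G) (Fin G ⊕ Fin G) ℚ) = 0 := by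
          ext i j
          simp [qm]
        rw [h1, Matrix.zero_mul, Matrix.mul_zero]
      · intro R _
        rw [Matrix.zero_mul, Matrix.mul_zero]
    obtain ⟨n0, hn0, hPn0⟩ := hP0
    obtain ⟨C, hC, hCn⟩ : P (Nat.findGreatest P (G + G)) := Nat.findGreatest_spec hn0 hPn0
    refine ⟨C, hC, fun B hB => ?_⟩
    rw [hCn]
    exact Nat.le_findGreatest (spc_card B) ⟨B, hB, rfl⟩
  refine ⟨C, hC, fun B hB => ?_⟩
  choose zC hzC using fun U : {U // IrS (LZ Z) U} => cent_scalar h hC U.2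
  choose zB hzB using fun U : {U // IrS (LZ Z) U} => cent_scalar h hB U.2
  have huniq : ∀ (U : {U // IrS (LZ Z) U}) (A : Matrix (Fin G ⊕ Fin G) (Fin G ⊕ Fin G) ℂ) (z z' : ℂ),
      (∀ u ∈ U.1, A *ᵥ u = z • u) → (∀ u ∈ U.1, A *ᵥ u = z' • u) → z = z' := by
    intro U A z z' h1 h2
    obtain ⟨u, hu, hu0⟩ := Submodule.exists_mem_ne_zero_of_ne_bot U.2.1
    have h3 : (z - z') • u = 0 := by rw [sub_smul, ← h1 u hu, ← h2 u hu, sub_self]
    exact sub_eq_zero.1 ((smul_eq_zero.1 h3).resolve_right hu0)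
  have hspC : spc Z C = Set.range zC := by
    ext z
    constructor
    · rintro ⟨U, hU, hz⟩
      exact ⟨⟨U, hU⟩, huniq ⟨U, hU⟩ _ _ _ (hzC ⟨U, hU⟩) hz⟩
    · rintro ⟨U, rfl⟩
      exact ⟨U.1, U.2, hzC U⟩
  -- the scalars of `B` are determined by those of `C`
  have key : ∀ U U', zC U = zC U' → zB U = zB U' := by
    intro U₁ U₂ h12
    by_contra hne
    let J : Set (ℂ × ℂ) := Set.range fun U => (zC U, zB U)
    have hspB : spc Z B = Set.range zB := by
      ext z
      constructor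
      · rintro ⟨U, hU, hz⟩
        exact ⟨⟨U, hU⟩, huniq ⟨U, hU⟩ _ _ _ (hzB ⟨U, hU⟩) hz⟩
      · rintro ⟨U, rfl⟩
        exact ⟨U.1, U.2, hzB U⟩
    have hJf : J.Finite := by
      refine ((spc_fin (Z := Z) C).prod (spc_fin (Z := Z) B)).subset ?_
      rintro _ ⟨U, rfl⟩
      rw [hspC, hspB]
      exact ⟨⟨U, rfl⟩, ⟨U, rfl⟩⟩
    -- a good number
    obtain ⟨t, ht⟩ : ∃ t : ℚ, ∀ x ∈ J, ∀ y ∈ J, x.1 + (t : ℂ) * x.2 = y.1 + (t : ℂ) * y.2 →
        x = y := by
      let bad : Set ℚ := {t | ∃ x ∈ J, ∃ y ∈ J, x ≠ y ∧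
        x.1 + (t : ℂ) * x.2 = y.1 + (t : ℂ) * y.2}
      have hbad : bad.Finite := by
        refine Set.Finite.of_finite_image (f := fun t : ℚ => (t : ℂ)) ?_
          (fun a _ b _ h => Rat.cast_injective h)
        refine ((hJf.prod hJf).image
          fun q : (ℂ × ℂ) × (ℂ × ℂ) => (q.1.1 - q.2.1) / (q.2.2 - q.1.2)).subset ?_
        rintro _ ⟨t, ⟨x, hx, y, hy, hxy, h1⟩, rfl⟩
        refine ⟨(x, y), ⟨hx, hy⟩, ?_⟩
        have h2 : y.2 - x.2 ≠ 0 := by
          intro h3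
          apply hxy
          have h4 : x.2 = y.2 := (sub_eq_zero.1 h3).symm
          rw [h4] at h1
          exact Prod.ext (add_right_cancel h1) h4
        change (x.1 - y.1) / (y.2 - x.2) = (t : ℂ)
        rw [div_eq_iff h2]
        linear_combination h1
      obtain ⟨t, ht⟩ := hbad.infinite_compl.nonempty
      refine ⟨t, fun x hx y hy hxy => ?_⟩
      by_contra hne'
      exact ht ⟨x, hx, y, hy, hne', hxy⟩
    have hD : CentM Z (C + t • B) := cent_add_smul hC hB t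
    have hspD : spc Z (C + t • B) = (fun x : ℂ × ℂ => x.1 + (t : ℂ) * x.2) '' J := by
      have hz : ∀ U : {U // IrS (LZ Z) U}, ∀ u ∈ U.1,
          qm (C + t • B) *ᵥ u = (zC U + (t : ℂ) * zB U) • u := by
        intro U u hu
        rw [qm_add', qm_smul, add_mulVec, smul_mulVec, hzC U u hu, hzB U u hu, add_smul, smul_smul]
      ext z
      constructor
      · rintro ⟨U, hU, hzU⟩
        exact ⟨_, ⟨⟨U, hU⟩, rfl⟩, huniq ⟨U, hU⟩ _ _ _ (hz ⟨U, hU⟩) hzU⟩
      · rintro ⟨_, ⟨U, rfl⟩, rfl⟩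
        exact ⟨U.1, U.2, hz U⟩
    have h1 : (spc Z (C + t • B)).ncard = J.ncard := by
      rw [hspD]
      exact Set.ncard_image_of_injOn fun x hx y hy hxy => ht x hx y hy hxy
    have h2 : (spc Z C).ncard < J.ncard := by
      have h3 : spc Z C = Prod.fst '' J := by
        rw [hspC]
        ext z
        constructor
        · rintro ⟨U, rfl⟩
          exact ⟨_, ⟨U, rfl⟩, rfl⟩
        · rintro ⟨_, ⟨U, rfl⟩, rfl⟩
          exact ⟨U, rfl⟩
      rw [h3]
      refine lt_of_le_of_ne (Set.ncard_image_le hJf) fun h4 => ?_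
      have h5 : Set.InjOn Prod.fst J := Set.injOn_of_ncard_image_eq h4 hJf
      exact hne (congrArg Prod.snd (h5 ⟨U₁, rfl⟩ ⟨U₂, rfl⟩ h12))
    have h3 := hmax _ hD
    omega
  -- interpolation
  let s : Finset ℂ := (spc_fin (Z := Z) C).toFinset
  obtain ⟨r, hr⟩ : ∃ r : ℂ → ℂ, ∀ U, r (zC U) = zB U := by
    refine ⟨fun z => if hz : ∃ U, zC U = z then zB hz.choose else 0, fun U => ?_⟩
    have hz : ∃ U', zC U' = zC U := ⟨U, rfl⟩
    beta_reduce
    rw [dif_pos hz]
    exact key _ _ hz.choose_spec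
  let p : ℂ[X] := Lagrange.interpolate s id r
  have hp : ∀ U, p.eval (zC U) = zB U := by
    intro U
    have h1 : zC U ∈ s := by
      rw [Set.Finite.mem_toFinset, hspC]
      exact ⟨U, rfl⟩
    have h2 := Lagrange.eval_interpolate_at_node r (s := s) (v := id) (Set.injOn_id _) h1
    rw [← hr U]
    exact h2
  refine mem_adjoin_of_aeval (p := p) ?_
  rw [← sub_eq_zero]
  refine zero_of_irr h (fun X hX => ?_) fun U hU u hu => ?_
  · rw [Matrix.mul_sub, Matrix.sub_mul, commL_of hB.1 X hX, R915.aeval_comm (commL_of hC.1 X hX) p]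
  · rw [sub_mulVec, hzB ⟨U, hU⟩ u hu, aeval_eigC (hzC ⟨U, hU⟩ u hu), hp, sub_self]

end

end Pool.Agent.K9h17.H
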