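import Mathlib
import Pool.Agent.K9h17.H.Main
import Pool.Agent.K9h17.D.Mt
import Pool.Agent.K9h17.E.Thm

/-!
# Tate classes are generated by classes of degree two and Weil classes
-/

set_option linter.unusedSectionVars false

namespace Pool.Agent.K9h17.H

open Matrix Module Pool.Agent.W437.HC Pool.Agent.W437.HD Pool.Agent.TH504.CB Pool.Agent.Y90
open Pool.Agent.W548.Odd hiding cv
open Pool.Agent.H204R3.CM (IsHodge)
open Pool.Agent.H204R3.SP Pool.Agent.H204R3.GP Pool.Agent.W522.U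
open Pool.Agent.W437.HP (cK cK_mul cK_one)
open Pool.Agent.R915 (VE mem_VE VE_cj VE_stab hom_iff exists_spec root_conj)
open Pool.Agent.N183.TS Pool.Agent.N183.U5 Pool.Agent.Y224.TS Pool.Agent.K9h17.G
open Pool.Agent.K9h17.E Pool.Agent.K9h17.D
open Pool.Agent.Y224.TS.St (IsHodgeTate IsTateModule)
open Polynomial TensorProduct

noncomputable section

section inv

variable {G : ℕ} {Z : Matrix (Fin G) (Fin G) ℂ} (hZ : PM Z) (hs : IsSimpleAV Z) (hg : 0 < G)
  {M : Matrix (Fin G ⊕ Fin G) (Fin G ⊕ Fin G) ℚ} (k : MF Z M) {p : ℕ}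
  (hp : ∀ s : ℂ, aeval s (minpoly ℚ M) = 0 → pd Z (VE M s) = p)
  (hq : ∀ s : ℂ, aeval s (minpoly ℚ M) = 0 → qd Z (VE M s) = p)
  {S : Set (Matrix (Fin G ⊕ Fin G) (Fin G ⊕ Fin G) ℂ)} (h : TD Z S) (hGd : Gd Z S)
include hZ hs hg k hp hq h hGd

/-- Invariant forms. -/
theorem inv_NW' {a : Module.End ℚ (AVZ hZ).H} (ha : ∀ v, a v = M *ᵥ v) {m : ℕ}
    (φ : MultilinearMap ℂ (fun _ : Fin m × Fin 2 => Fin G ⊕ Fin G → ℂ) ℂ)
    (hφ : ∀ D ∈ S, Kills (ph (Fin G ⊕ Fin G) D) φ) : φ ∈ NW hZ a (2 * p) (Fin m × Fin 2) := by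
  classical
  have hinv : ∀ (g : Gam (GG (Y224.TS.LT S))) v,
      φ (fun k => RG (GG (Y224.TS.LT S)) g (v k)) = φ v := by
    intro g v
    refine inv_gam φ (fun D hD _ => ?_) g v
    obtain ⟨X, hX, rfl⟩ := exists_GG hD
    exact kills_LT hφ hX
  have hSI : ∀ {U}, W522.U.SI (RG (GG (Y224.TS.LT S))) U ↔ IrS (LZ Z) U := fun {U} => h.si hZ
  have hpr := gz_proj h.genI h.cr
  obtain ⟨s, W, hW, hWW, hall⟩ := exists_reps hpr
  obtain ⟨st, hst, hDu, hDu'⟩ := exists_st (χ := 1) hpr (om G) om_nd (h.om' hZ) W hW hWW hall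
  refine R915.forms_mem' (χ := 1) (fun Δ hΔ => fi_top Δ hΔ) (om G) om_nd (h.om' hZ) ?_ ?_ ?_ hpr
    W hW hWW hall st hst hDu hDu' (NW hZ a (2 * p)) (clo_NW hZ a (2 * p)) ?_ ?_ φ ?_
  · intro U hU hn
    exact (hGd.r _ (hSI.1 hU) hn).unip h
  · intro U hU hn
    exact h.line hZ (hSI.1 hU) hn
  · intro U U' hU hU' hn _ ψ hT
    exact hGd.t U U' (hSI.1 hU) (hSI.1 hU') hn ψ hT
  · intro b hb
    have hKB : KB Z b := by
      refine (h.bil b (fun X hX => hZ.om_sp hX)).1 (fun X hX u v => ?_)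
      exact (gz_bil h.genI stab_top stab_top b).1 (fun g u _ v _ => by
        rw [hb, MonoidHom.one_apply, one_mul]) X hX u trivial v trivial
    have h1 := expand_ten (F := bil2 b) hZ.cht gal_LZ (DJ_JR ▸ DZ_mem) (fun X hX =>
      act_of_kills fun v => by
        rw [Fin.sum_univ_two, bil2_apply, bil2_apply, Function.update_self, Function.update_self,
          Function.update_of_ne (by decide), Function.update_of_ne (by decide)]
        exact hKB X hX (v 0) (v 1))
    rw [mem_NW]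
    refine Submodule.span_le.2 ?_ h1
    rintro g ⟨r, hr, rfl⟩
    exact sc_pair (X := AVZ hZ) (a := a) (d := 2 * p) hr
  · intro c hc hcg ι _ _ f q hq' ψ hψ
    have hW' : ∀ i, IrS (LZ Z) (W i) := fun i => hSI.1 (hW i)
    refine (clo_NW hZ a (2 * p)).fam_prod (A := Σ i, Fin (c i).toNat) ι
      (fun j => ((f j).det.toMultilinearMap.compLinearMap (q j))) (fun j => ?_)
      (Equiv.refl _) ψ fun v => ?_
    · rw [mem_NW]
      refine det_sc hZ hs hg k hp hq (hW' j.1) ha (f j) (q j) fun y X hX v => ?_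
      have h1 := (gz_equiv h.genI stab_top ((W j.1).subtype.comp (q j y))).1
        (fun g u _ => hq' j y g u)
      exact (h.eqv ((W j.1).subtype.comp (q j y))).1 (fun X hX w => h1 X hX w trivial) X hX v
    · rw [hψ]
      rfl
  · refine ⟨⊤, inferInstance, fun g _ v => ?_⟩
    rw [MonoidHom.one_apply, one_pow, one_mul]
    exact hinv g v

end inv

/-- Rational functionals. -/
theorem lam_SC {X : AV} {a : Module.End ℚ X.H} {d : ℕ} {κ : Type} {g : (κ → X.H) → ℂ}
    (hg : g ∈ SC X a d κ) (l : ℂ →ₗ[ℚ] ℚ) :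
    (fun v => l (g v)) ∈ Submodule.span ℚ (GX X a d κ) := by
  unfold SC at hg
  induction hg using Submodule.span_induction generalizing l with
  | mem g hg =>
    obtain ⟨F, hF, rfl⟩ := hg
    have h1 : (fun v => l (algebraMap ℚ ℂ (F v))) = l 1 • F := by
      funext v
      rw [Algebra.algebraMap_eq_smul_one, map_smul, Pi.smul_apply, smul_eq_mul, smul_eq_mul,
        mul_comm]
    rw [h1]
    exact Submodule.smul_mem _ _ (Submodule.subset_span hF)
  | zero =>
    have h1 : (fun v : κ → X.H => l ((0 : (κ → X.H) → ℂ) v)) = 0 := by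
      funext v
      exact map_zero l
    rw [h1]
    exact Submodule.zero_mem _
  | add x y _ _ hx hy =>
    have h1 : (fun v : κ → X.H => l ((x + y) v)) = (fun v => l (x v)) + fun v => l (y v) := by
      funext v
      exact map_add l _ _
    rw [h1]
    exact Submodule.add_mem _ (hx l) (hy l)
  | smul c x _ hx =>
    have h1 := hx (l.comp (LinearMap.mulLeft ℚ c))
    exact h1

/-- If the components of a form are combinations of products then the form is in the span. -/
theorem weilSpan_of_comps {X : AV} {a : Module.End ℚ X.H} {d n m : ℕ}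
    (f : (Fin n → X.H) [⋀^Fin m × Fin 2]→ₗ[ℚ] ℚ)
    (hall : ∀ ι : Fin m × Fin 2 → Fin n, (fun v => E.comp f.toMultilinearMap ι v) ∈
      Submodule.span ℚ (GX X a d (Fin m × Fin 2))) :
    f ∈ weilSpan X a d n m := by
  refine mem_weilSpan f ?_
  have h1 : (fun v => f v) = ∑ ι : Fin m × Fin 2 → Fin n,
      fun v : Fin m × Fin 2 → Fin n → X.H => E.comp f.toMultilinearMap ι (fun l => v l (ι l)) := by
    funext v
    rw [Finset.sum_apply]
    exact sum_comp f.toMultilinearMap v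
  rw [h1]
  refine Submodule.sum_mem _ fun ι _ => ?_
  let L : (((Fin m × Fin 2) → X.H) → ℚ) →ₗ[ℚ] (((Fin m × Fin 2) → Fin n → X.H) → ℚ) :=
    { toFun := fun g v => g (fun l => v l (ι l))
      map_add' := fun _ _ => rfl
      map_smul' := fun _ _ => rfl }
  have h2 : L (fun v => E.comp f.toMultilinearMap ι v) ∈
      (Submodule.span ℚ (GX X a d (Fin m × Fin 2))).map L :=
    Submodule.mem_map_of_mem (hall ι)
  rw [Submodule.map_span] at h2
  refine Submodule.span_mono ?_ h2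
  rintro _ ⟨_, ⟨r, s, e, β, w, h, h3, h4, h5, rfl⟩, rfl⟩
  refine ⟨r, s, e, fun l => pull (β l) (fun ε => ι (e (Sum.inl (l, ε)))), w,
    fun j k => (h j k).comp (LinearMap.proj (ι (e (Sum.inr (j, k))))), fun l => ?_, h4,
    fun j k => ?_, rfl⟩
  · exact isHodge_alt (h3 l) _
  · obtain ⟨Ψ, hΨ⟩ := h5 j k
    exact ⟨Ψ.comp (LinearMap.proj (ι (e (Sum.inr (j, k))))), fun v => hΨ _⟩

/-- Rational expansions with functionals. -/
theorem exists_coord {K : Type} [Field K] [CharZero K] [Algebra K ℂ] {V : Type} (F : V → K)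
    {N : ℕ} (c : Fin N → K) (g : Fin N → V → ℚ) (h : ∀ v, F v = ∑ j, c j * ((g j v : ℚ) : K)) :
    ∃ (N' : ℕ) (w : Fin N' → K) (l : Fin N' → ℂ →ₗ[ℚ] ℚ) (q : Fin N' → Fin N → ℚ),
      (∀ v, F v = ∑ i, w i * ((l i (algebraMap K ℂ (F v)) : ℚ) : K)) ∧
      ∀ i v, l i (algebraMap K ℂ (F v)) = ∑ j, q i j * g j v := by
  classical
  let W : Submodule ℚ K := Submodule.span ℚ (Set.range c)
  have hc : ∀ j, c j ∈ W := fun j => Submodule.subset_span ⟨j, rfl⟩
  have _ : FiniteDimensional ℚ W := FiniteDimensional.span_of_finite ℚ (Set.finite_range c)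
  let w := Module.finBasis ℚ W
  let T : W →ₗ[ℚ] ℂ := ((Algebra.linearMap K ℂ).restrictScalars ℚ).comp W.subtype
  have hT : ∀ x : W, T x = algebraMap K ℂ x := fun x => rfl
  have hTi : LinearMap.ker T = ⊥ := by
    rw [LinearMap.ker_eq_bot]
    intro x y hxy
    exact Subtype.ext ((algebraMap K ℂ).injective hxy)
  obtain ⟨L, hL⟩ := T.exists_leftInverse_of_injective hTi
  have hL' : ∀ x : W, L (algebraMap K ℂ x) = x := fun x => LinearMap.congr_fun hL x
  have hx : ∀ v, ∃ x : W, (x : K) = F v ∧ ∀ i, w.repr x i = ∑ j, (w.repr ⟨c j, hc j⟩ i) * g j v := by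
    intro v
    refine ⟨∑ j, g j v • (⟨c j, hc j⟩ : W), ?_, fun i => ?_⟩
    · rw [h v, Submodule.coe_sum]
      refine Finset.sum_congr rfl fun j _ => ?_
      change g j v • c j = _
      rw [Algebra.smul_def, mul_comm]
      rfl
    · rw [map_sum, Finsupp.finset_sum_apply]
      refine Finset.sum_congr rfl fun j _ => ?_
      rw [map_smul, Finsupp.smul_apply, smul_eq_mul, mul_comm]
  refine ⟨_, fun i => (w i : K), fun i => (w.coord i).comp L,
    fun i j => w.repr ⟨c j, hc j⟩ i, fun v => ?_, fun i v => ?_⟩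
  · obtain ⟨x, h1, -⟩ := hx v
    have h2 : ∀ i, ((w.coord i).comp L) (algebraMap K ℂ (F v)) = w.repr x i := by
      intro i
      rw [← h1, LinearMap.comp_apply, hL']
      rfl
    rw [← h1] at h2 ⊢
    simp only [h2]
    have h3 := congrArg (fun y : W => (y : K)) (w.sum_repr x).symm
    beta_reduce at h3
    rw [Submodule.coe_sum] at h3
    refine h3.trans (Finset.sum_congr rfl fun i _ => ?_)
    change w.repr x i • (w i : K) = _
    rw [Algebra.smul_def, mul_comm]
    rfl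
  · obtain ⟨x, h1, h2⟩ := hx v
    rw [← h1, LinearMap.comp_apply, hL', Basis.coord_apply]
    exact h2 i

end

end Pool.Agent.K9h17.H
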