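import Mathlib
import Pool.Agent.K9h17.F.Loc
import Pool.Agent.N183.TS.Loc2

/-!
# Elements of rank one if all the signatures are `(p, p)` with `p` odd or two
-/

set_option linter.unusedSectionVars false

namespace Pool.Agent.K9h17.H

open Matrix Module Pool.Agent.W437.HC Pool.Agent.W437.HD Pool.Agent.W548.Odd Pool.Agent.W522.U
open Pool.Agent.H204R3.SP Pool.Agent.H204R3.GP Pool.Agent.Y90 Pool.Agent.Y224.TS
open Pool.Agent.W437.HP (cK cK_mul cK_one)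
open Pool.Agent.R915 (VE mem_VE VE_cj VE_main VE_stab eig_conj root_conj)
open Pool.Agent.N183.TS Pool.Agent.N183.U5 Pool.Agent.K9h17.C Pool.Agent.K9h17.F
open Polynomial

noncomputable section

variable {G : ℕ} {Z : Matrix (Fin G) (Fin G) ℂ}
  {S : Set (Matrix (Fin G ⊕ Fin G) (Fin G ⊕ Fin G) ℂ)}

variable (h : TD Z S) (hZ : PM Z) {U : Submodule ℂ (Fin G ⊕ Fin G → ℂ)}

/-- Elements of rank one for a maximal subfield. -/
theorem rk1T_bal (h : TD Z S) (hZ : PM Z) {U : Submodule ℂ (Fin G ⊕ Fin G → ℂ)}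
    (hU : IrS (LZ Z) U) (hs : IsSimpleAV Z) (hg : 0 < G)
    {M : Matrix (Fin G ⊕ Fin G) (Fin G ⊕ Fin G) ℚ} (k : MF Z M)
    {M' : Matrix (Fin G ⊕ Fin G) (Fin G ⊕ Fin G) ℚ} (k' : CG Z M')
    (him : ∀ s : ℂ, aeval s (minpoly ℚ M') = 0 → cc s ≠ s)
    {p : ℕ} (hp : ∀ s : ℂ, aeval s (minpoly ℚ M) = 0 → pd Z (VE M s) = p)
    (hq : ∀ s : ℂ, aeval s (minpoly ℚ M) = 0 → qd Z (VE M s) = p)
    (hodd : Odd p ∨ p = 2) : Rk1T S U := by
  obtain ⟨s, T, hs0, hne', hT, hi, hTU⟩ := k.proj hZ hs hg hU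
  refine Rk1T.of_map h hZ hU hT hi ?_
  rw [hTU]
  have hir := k.irr hZ hs hne'
  obtain ⟨D, hD, hσ⟩ := h.ex (RingEquiv.refl ℂ)
  obtain ⟨θ, hθ⟩ := k'.label hZ hir
  have hnf := no_form hZ k' hir hθ (him θ (by
    obtain ⟨v, hv, hv0⟩ := Submodule.exists_mem_ne_zero_of_ne_bot hne'
    have h1 := R915.aeval_eig (mem_VE.1 (hθ hv)) (minpoly ℚ M')
    rw [minpoly.aeval, qm_zero, zero_mulVec] at h1
    exact (smul_eq_zero.1 h1.symm).resolve_right hv0))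
  have hpd' : ∀ τ : ℂ ≃+* ℂ, pd Z (cjS τ (VE M s)) = p := fun τ => by
    rw [VE_cj]
    exact hp _ (root_conj hs0 τ)
  have hqd' : ∀ τ : ℂ ≃+* ℂ, qd Z (cjS τ (VE M s)) = p := fun τ => by
    rw [VE_cj]
    exact hq _ (root_conj hs0 τ)
  rcases hodd with hodd | rfl
  · exact (rk1_odd' h hZ hD hir hpd' hqd' hodd hnf).rk1T hD
  · exact (rk1_pair h hZ hD hir hσ (by rw [hpd']; norm_num) (by rw [hqd']; norm_num)
      (Or.inr ⟨Or.inl ⟨hpd' _, hqd' _⟩, fun τ => by rw [hpd', hqd'], hnf⟩)).rk1T hD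

/-- `Y` is of type IV and all its relative signatures are `(p, p)` with `p` odd or two. -/
def BalancedIV2 (Y : AV) : Prop :=
  ∃ (a : Module.End ℚ Y.H) (Ψ : Module.End ℂ Y.T) (p : ℕ), MaxField Y a ∧
    (∀ v, Ψ (Y.per v) = Y.per (a v)) ∧ (Odd p ∨ p = 2) ∧
    (∀ s : ℂ, aeval s (minpoly ℚ a) = 0 → finrank ℂ (Ψ.eigenspace s) = p) ∧
    (minpoly ℚ a).natDegree * (p + p) = finrank ℚ Y.H ∧
    ∃ φ : Module.End ℚ Y.H, CentreGen Y φ ∧ ∀ s : ℂ, aeval s (minpoly ℚ φ) = 0 → s.im ≠ 0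

/-- The balanced class. -/
theorem BalancedIV2.cls (h : TD Z S) (hZ : PM Z) (hs : IsSimpleAV Z) (hg : 0 < G)
    (k : BalancedIV2 (AVZ hZ)) {U : Submodule ℂ (Fin G ⊕ Fin G → ℂ)} (hU : IrS (LZ Z) U) :
    Rk1T S U := by
  obtain ⟨a, Ψ, p, k, hΨ, hodd, hp, hdim, φ, hφ, him⟩ := k
  have hpd := fun s' => pd_mult hZ k hΨ s'
  rw [← minpoly_mat, R915.finrank_AVZ] at hdim
  have hdeg : 0 < (minpoly ℚ (LinearMap.toMatrix' a)).natDegree := by
    rw [Nat.pos_iff_ne_zero]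
    intro h5
    rw [h5, zero_mul] at hdim
    omega
  have hall : ∀ s' : ℂ, aeval s' (minpoly ℚ (LinearMap.toMatrix' a)) = 0 →
      pd Z (VE (LinearMap.toMatrix' a) s') + qd Z (VE (LinearMap.toMatrix' a) s') = p + p := by
    intro s' hs'
    have h3 := (k.mf hZ).dim hZ hs hg (VE_ne_of_root hs')
    rw [← hdim] at h3
    have h4 := Nat.eq_of_mul_eq_mul_left hdeg h3
    rw [← h4]
    exact pd_add_qd hZ (VE_stab (k.mf hZ).comm s')
  have hp' : ∀ s : ℂ, aeval s (minpoly ℚ (LinearMap.toMatrix' a)) = 0 →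
      pd Z (VE (LinearMap.toMatrix' a) s) = p := by
    intro s hs
    rw [hpd]
    refine hp s ?_
    rw [← minpoly_mat]
    exact hs
  have hcg : CG Z (LinearMap.toMatrix (Pi.basisFun ℚ (Fin G ⊕ Fin G))
      (Pi.basisFun ℚ (Fin G ⊕ Fin G)) φ) := by
    refine CentreGen.cg (X := AVZ hZ) (b := Pi.basisFun ℚ (Fin G ⊕ Fin G)) ?_ hφ
    exact hZ.cht
  refine rk1T_bal h hZ hU hs hg (k.mf hZ) hcg (fun s hs => ?_) hp' (fun s hs => ?_) hodd
  · have h1 : aeval s (minpoly ℚ φ) = 0 := by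
      rw [← hs]
      congr 1
      exact (minpoly.algEquiv_eq (LinearMap.toMatrixAlgEquiv (Pi.basisFun ℚ (Fin G ⊕ Fin G)))
        φ).symm
    exact fun h2 => him s h1 (Complex.conj_eq_iff_im.1 h2)
  · have h1 := hall s hs
    have h2 := hp' s hs
    omega

end

end Pool.Agent.K9h17.H
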