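import Mathlib
import Pool.Agent.K9h17.H.BInv
import Pool.Agent.K9h17.H.Cen
import Pool.Agent.K9h17.H.Two
import Pool.Agent.K9h17.H.Gal

/-!
# Tate classes belong to the ring generated by classes of degree two and Weil classes
-/

set_option linter.unusedSectionVars false

namespace Pool.Agent.K9h17.H

open Matrix Module Pool.Agent.W437.HC Pool.Agent.W437.HD Pool.Agent.W548.Odd
open Pool.Agent.H204R3.SP Pool.Agent.H204R3.GP Pool.Agent.Y90 Pool.Agent.Y224.TS TensorProduct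
open Pool.Agent.H204R3.CM (IsHodge)
open Pool.Agent.Y224.TS.St (IsHodgeTate IsTateModule)
open Pool.Agent.W437.HP (cK cK_mul cK_one)
open Pool.Agent.R915 (IsSimple RealMax QuadMult HasCMult IsFactor VE VE_stab VE_cj)
open Pool.Agent.N183.TS Pool.Agent.N183.U5 Pool.Agent.K9h17.S Pool.Agent.K9h17.G
open Pool.Agent.K9h17.F Pool.Agent.K9h17.E
open Polynomial

noncomputable section

/-- Pull-backs. -/
theorem WeilGen.pull {X Y : AV} {κ : Type} {f : Y.H [⋀^κ]→ₗ[ℚ] ℚ} (hf : WeilGen Y κ f)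
    {e : X.H →ₗ[ℚ] Y.H} (he : IsHom X Y e) : WeilGen X κ (f.compLinearMap e) := by
  obtain ⟨Ψ, hΨ⟩ := he
  induction hf with
  | unit f => exact WeilGen.unit _
  | divisor hκ f hf => exact WeilGen.divisor hκ _ (W437.HK.isHodge_pullback (fun w => (hΨ w).symm) hf)
  | weil hY hIV a ha hd w hw h hh =>
    obtain ⟨Θ, hΘ⟩ := hh
    exact WeilGen.weil hY hIV a ha hd w hw (h ∘ₗ e) ⟨Θ ∘ₗ Ψ, fun v => by
      change Θ (Ψ (X.per v)) = _
      rw [hΨ, hΘ]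
      rfl⟩
  | zero κ => exact WeilGen.zero κ
  | add f g _ _ hf hg => exact WeilGen.add _ _ hf hg
  | smul c f _ hf => exact WeilGen.smul c _ hf
  | reindex e f _ hf => exact WeilGen.reindex e _ hf
  | cup f g _ _ h hh hf hg => exact WeilGen.cup _ _ hf hg _ fun v => hh _

/-- The classes. -/
theorem IsBalanced.cls {Y : AV} (hY : IsSimple Y) (h : IsBalanced Y) :
    RealOdd Y ∨ BalancedIV2 Y := by
  obtain ⟨a, Ψ, p, ha, hΨ, hodd, hbal, hdim, hr | ⟨φ, hφ, hIV⟩⟩ := h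
  · left
    rcases hodd with hodd | rfl
    · refine ⟨a, ⟨ha.1, hr, ha.2⟩, Or.inr ?_⟩
      obtain ⟨v, hv⟩ := hY.1
      have _ : Nontrivial Y.H := ⟨v, 0, hv⟩
      have h1 : 0 < (minpoly ℚ a).natDegree :=
        minpoly.natDegree_pos (Algebra.IsIntegral.isIntegral a)
      rw [← hdim, mul_comm 4]
      intro h2
      have h3 := Nat.dvd_of_mul_dvd_mul_left h1 h2
      obtain ⟨k, hk⟩ := hodd
      omega
    · refine ⟨a, ⟨ha.1, hr, ha.2⟩, Or.inl ?_⟩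
      rw [← hdim]
      omega
  · exact Or.inr ⟨a, Ψ, p, ha, hΨ, hodd, hbal, by rw [← two_mul]; exact hdim, φ, hφ, hIV⟩

section irr

variable {G : ℕ} {Z : Matrix (Fin G) (Fin G) ℂ}

/-- The multiplicities of the centre are mixed. -/
theorem mixedB (hZ : PM Z)
    (hB : ∀ (a' : ℕ) (Z' : Matrix (Fin a') (Fin a') ℂ)
      (E' : Matrix (Fin G ⊕ Fin G) (Fin a' ⊕ Fin a') ℚ)
      (F' : Matrix (Fin a' ⊕ Fin a') (Fin G ⊕ Fin G) ℚ), Fac Z Z' E' F' → ∀ h' : PM Z',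
      IsSimpleAV Z' → 0 < a' → IsBalanced (AVZ h'))
    {M : Matrix (Fin G ⊕ Fin G) (Fin G ⊕ Fin G) ℚ} (k : CG Z M) (s : ℂ)
    (hs : pd Z (VE M s) ≠ 0) : pd Z (VE M (starRingEnd ℂ s)) ≠ 0 := by
  have h0 : VE M s ≠ ⊥ := by
    intro h1
    apply hs
    rw [h1]
    unfold pd
    rw [bot_inf_eq, finrank_bot]
  obtain ⟨U, hU, hU'⟩ := exists_irr_le (Z := Z) _ rfl (VE_stab k.cent.1 s) h0
  obtain ⟨p, hp0, -, hq⟩ := irr_dims hZ hB hU'
  have h1 : pd Z (VE M (cc s)) = qd Z (VE M s) := by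
    rw [← VE_cj M s cc, pd_cc]
  have h2 : qd Z U ≤ qd Z (VE M s) := by
    unfold qd
    exact Submodule.finrank_mono (inf_le_inf_right _ hU)
  change pd Z (VE M (cc s)) ≠ 0
  omega

end irr

variable {K : Type} [Field K] [CharZero K] [Algebra K ℂ] {Γ : Type} [Group Γ]

/-- The data for the proof. -/
theorem setupB [Algebra.IsAlgebraic K ℂ] (X : AV) {E : X.H → X.H → ℚ}
    (hE : Pool.Agent.Y90.St.IsPolarization X.per E)
    {ρ : Representation K Γ (K ⊗[ℚ] X.H)} {χ : Γ →* K}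
    (hX : ∀ Y, IsFactor Y X → IsBalanced Y) (hρ : IsTateModule X.per E ρ χ) :
    ∃ (a : ℕ) (Z : Matrix (Fin a) (Fin a) ℂ) (_ : PM Z) (b : Basis (Fin a ⊕ Fin a) ℚ X.H),
      Cht (X.per.comp b.equivFun.symm.toLinearMap.toAddMonoidHom) (JR Z) ∧
        TD Z (SH X.per ρ χ b) ∧ Gd Z (SH X.per ρ χ b) ∧
          ∀ (a' : ℕ) (Z' : Matrix (Fin a') (Fin a') ℂ)
            (E' : Matrix (Fin a ⊕ Fin a) (Fin a' ⊕ Fin a') ℚ)
            (F' : Matrix (Fin a' ⊕ Fin a') (Fin a ⊕ Fin a) ℚ), Fac Z Z' E' F' → ∀ h' : PM Z',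
            IsSimpleAV Z' → 0 < a' → IsBalanced (AVZ h') := by
  classical
  obtain ⟨a, Z, hZ, b, hC, hb⟩ := exists_ppav' (AV.isAV X) hE
  have hTD : TD Z (SH X.per ρ χ b) := td_of b hb hC hρ
  obtain ⟨M, hM⟩ := exists_CG hZ
  have hinc : ∀ (a' : ℕ) (Z' : Matrix (Fin a') (Fin a') ℂ)
      (E' : Matrix (Fin a ⊕ Fin a) (Fin a' ⊕ Fin a') ℚ)
      (F' : Matrix (Fin a' ⊕ Fin a') (Fin a ⊕ Fin a) ℚ), Fac Z Z' E' F' → ∀ h' : PM Z',
      IsSimpleAV Z' → 0 < a' → IsFactor (AVZ h') X := by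
    intro a' Z' E' F' hfac h' hsim ha
    have hs := R915.simple_of a' h' hsim ha
    obtain ⟨Ψ₁, h₁⟩ := h'.cht.hom hC (R := E') (by
      rw [DJ_JR, DJ_JR]
      exact hfac.de.symm)
    have hi : IsHom (AVZ h') X (inc h' b E') := ⟨Ψ₁, fun v => h₁ v⟩
    refine ⟨hs, inc h' b E', hi, ?_⟩
    intro x y hxy
    have h2 : E' *ᵥ x = E' *ᵥ y := b.equivFun.symm.injective hxy
    have h3 := congrArg (fun v => F' *ᵥ v) h2
    beta_reduce at h3
    rw [mulVec_mulVec, mulVec_mulVec, hfac.fe, one_mulVec, one_mulVec] at h3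
    exact h3
  have hB : ∀ (a' : ℕ) (Z' : Matrix (Fin a') (Fin a') ℂ)
      (E' : Matrix (Fin a ⊕ Fin a) (Fin a' ⊕ Fin a') ℚ)
      (F' : Matrix (Fin a' ⊕ Fin a') (Fin a ⊕ Fin a) ℚ), Fac Z Z' E' F' → ∀ h' : PM Z',
      IsSimpleAV Z' → 0 < a' → IsBalanced (AVZ h') :=
    fun a' Z' E' F' hfac h' hsim ha => hX _ (hinc a' Z' E' F' hfac h' hsim ha)
  have hsep : IsSeparated fun s => pd Z (VE M s) := sep_of_mixed fun s hs => mixedB hZ hB hM s hs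
  refine ⟨a, Z, hZ, b, hC, hTD, gd_of hTD hZ ?_ hM hsep.sep, hB⟩
  intro a' Z' E' F' hfac h' hsim ha U hU hn
  have hs := R915.simple_of a' h' hsim ha
  have hT' := tdF hfac hTD hZ h'
  rcases (hB a' Z' E' F' hfac h' hsim ha).cls hs with k | k
  · exact (cls_all h' hT' hs ha (Or.inr (Or.inr (Or.inr k))) hU hn).1
  · exact BalancedIV2.cls hT' h' (R915.simple_AVZ h' hs) ha k hU

/-- **The ring of Tate classes** if all relative signatures of the simple factors are balanced. -/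
theorem balanced_ring [Algebra.IsAlgebraic K ℂ] (X : AV) {E : X.H → X.H → ℚ}
    (hE : Pool.Agent.Y90.St.IsPolarization X.per E)
    {ρ : Representation K Γ (K ⊗[ℚ] X.H)} {χ : Γ →* K}
    (hX : ∀ Y, IsFactor Y X → IsBalanced Y) (hρ : IsTateModule X.per E ρ χ) {m : ℕ}
    (f : (K ⊗[ℚ] X.H) [⋀^Fin m × Fin 2]→ₗ[K] K)
    (hf : ∃ Δ : Subgroup Γ, Δ.FiniteIndex ∧ ∀ g ∈ Δ, ∀ v : Fin m × Fin 2 → K ⊗[ℚ] X.H,
      f (fun k => ρ g (v k)) = χ g ^ m * f v) :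
    ∃ (N : ℕ) (c : Fin N → K) (g : Fin N → X.H [⋀^Fin m × Fin 2]→ₗ[ℚ] ℚ),
      (∀ j, WeilGen X (Fin m × Fin 2) (g j)) ∧ ∀ v : Fin m × Fin 2 → X.H,
        f (fun k => (1 : K) ⊗ₜ[ℚ] v k) = ∑ j, c j * ((g j v : ℚ) : K) := by
  classical
  obtain ⟨a, Z, hZ, b, hC, hTD, hGd, hB⟩ := setupB X hE hX hρ
  obtain ⟨Ψ₂, h₂⟩ := hC.hom hZ.cht (R := 1) (by rw [cK_one, Matrix.one_mul, Matrix.mul_one])
  have e₂ : ∀ v, Ψ₂ (X.per v) = perOne Z (b.equivFun v) := fun v => by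
    have h3 := h₂ (b.equivFun v)
    have h4 : (X.per.comp b.equivFun.symm.toLinearMap.toAddMonoidHom) (b.equivFun v) = X.per v := by
      change X.per (b.equivFun.symm (b.equivFun v)) = X.per v
      rw [LinearEquiv.symm_apply_apply]
    rwa [h4, one_mulVec] at h3
  have he : IsHom X (AVZ hZ) b.equivFun.toLinearMap := ⟨Ψ₂, e₂⟩
  have h0 := inv_NB hZ hB hTD hGd (FC b f.toMultilinearMap) (FC_kills b f.toMultilinearMap hf)
  have h1 : altQ (FC b f.toMultilinearMap) ∈ RB (AVZ hZ) (Fin m × Fin 2) := h0 _ _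
  have halt : ∀ (σ : Equiv.Perm (Fin m × Fin 2)) (v : Fin m × Fin 2 → K ⊗[ℚ] X.H),
      f.toMultilinearMap (fun k => v (σ k)) = ((Equiv.Perm.sign σ : ℤ) : K) *
        f.toMultilinearMap v := by
    intro σ v
    change f (v ∘ σ) = _ * f v
    rw [f.map_perm, Units.smul_def, zsmul_eq_mul]
  have hc : (Fintype.card (Equiv.Perm (Fin m × Fin 2)) : ℂ) ≠ 0 := by
    exact_mod_cast Fintype.card_ne_zero
  have h2 : (fun v : Fin m × Fin 2 → (AVZ hZ).H =>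
      algebraMap K ℂ (f (fun k => (1 : K) ⊗ₜ[ℚ] b.equivFun.symm (v k)))) ∈
        RB (AVZ hZ) (Fin m × Fin 2) := by
    have h3 := Submodule.smul_mem _ (Fintype.card (Equiv.Perm (Fin m × Fin 2)) : ℂ)⁻¹ h1
    refine (congrArg (· ∈ RB (AVZ hZ) (Fin m × Fin 2)) ?_).mp h3
    funext v
    rw [Pi.smul_apply, smul_eq_mul, FC_alt b f.toMultilinearMap halt v, ← mul_assoc,
      inv_mul_cancel₀ hc, one_mul]
    rfl
  -- descent
  let S : Set ((Fin m × Fin 2 → (AVZ hZ).H) → K) :=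
    {s | ∃ r : (AVZ hZ).H [⋀^Fin m × Fin 2]→ₗ[ℚ] ℚ,
      WeilGen (AVZ hZ) (Fin m × Fin 2) r ∧ s = fun v => ((r v : ℚ) : K)}
  have h3 : (fun v : Fin m × Fin 2 → (AVZ hZ).H =>
      f (fun k => (1 : K) ⊗ₜ[ℚ] b.equivFun.symm (v k))) ∈ Submodule.span K S := by
    refine span_descent_k (Ω := ℂ) S _ ?_
    refine Submodule.span_mono ?_ h2
    rintro g ⟨r, hr, rfl⟩
    refine ⟨_, ⟨r, hr, rfl⟩, ?_⟩
    funext v
    rw [map_ratCast]
  obtain ⟨n, c, s, hs'⟩ := Submodule.mem_span_set'.1 h3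
  choose r hr hr' using fun j => (s j).2
  refine ⟨n, c, fun j => (r j).compLinearMap b.equivFun.toLinearMap,
    fun j => (hr j).pull he, fun v => ?_⟩
  have h4 := congrFun hs' (fun k => b.equivFun (v k))
  beta_reduce at h4
  have h5 : (fun k => (1 : K) ⊗ₜ[ℚ] b.equivFun.symm (b.equivFun (v k))) =
      fun k => (1 : K) ⊗ₜ[ℚ] v k := by
    funext k
    rw [LinearEquiv.symm_apply_apply]
  rw [h5] at h4
  rw [← h4, Finset.sum_apply]
  refine Finset.sum_congr rfl fun j _ => ?_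
  rw [Pi.smul_apply, smul_eq_mul, hr' j]
  rfl

end

end Pool.Agent.K9h17.H
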