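import Mathlib
import Pool.Agent.K9h17.H.Gal

/-!
# Tate classes are generated by classes of degree two and Weil classes: unipotent elements
-/

set_option linter.unusedSectionVars false

namespace Pool.Agent.K9h17.H

open Matrix Module Pool.Agent.Y90 Pool.Agent.R915 Pool.Agent.N183.U5 Polynomial TensorProduct
open Pool.Agent.K9h17.S Pool.Agent.K9h17.T Pool.Agent.K9h17.C Pool.Agent.K9h17.G
open Pool.Agent.K9h17.D Pool.Agent.K9h17.E
open Pool.Agent.H204R3.CM (IsHodge)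
open Pool.Agent.H204R3.GP (IsTateClass)
open Pool.Agent.Y224.TS (FC FC_kills FC_rat)
open Pool.Agent.Y224.TS.St (IsTateModule)
open Pool.Agent.W437.HP (cK cK_mul cK_one)

noncomputable section

theorem alt_sum {V κ : Type} [AddCommGroup V] [Module ℚ V] {N : ℕ} (q : Fin N → ℚ)
    (g : Fin N → V [⋀^κ]→ₗ[ℚ] ℚ) (v : κ → V) : (∑ j, q j • g j) v = ∑ j, q j * g j v := by
  let ev : (V [⋀^κ]→ₗ[ℚ] ℚ) →ₗ[ℚ] ℚ :=
    { toFun := fun g => g v
      map_add' := fun _ _ => rfl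
      map_smul' := fun _ _ => rfl }
  change ev _ = _
  rw [map_sum]
  rfl

variable {K : Type} [Field K] [CharZero K] [Algebra K ℂ] [Algebra.IsAlgebraic K ℂ]
  {Γ : Type} [Group Γ] {X : AV} (hX : IsSimple X) {a : Module.End ℚ X.H} (ha : MaxField X a)
  {Ψ : Module.End ℂ X.T} (hΨ : ∀ v, Ψ (X.per v) = X.per (a v))
  {E : X.H → X.H → ℚ} (hE : Pool.Agent.Y90.St.IsPolarization X.per E)
  {ρ : Representation K Γ (K ⊗[ℚ] X.H)} {χ : Γ →* K} (hρ : IsTateModule X.per E ρ χ)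
  {p : ℕ} (hp0 : 0 < p)
  (hbal : ∀ s : ℂ, aeval s (minpoly ℚ a) = 0 → finrank ℂ (Ψ.eigenspace s) = p)
  (hdim : (minpoly ℚ a).natDegree * (2 * p) = finrank ℚ X.H)
  (hcls : ∀ Y, IsFactor Y X → Good X ρ Y ∨ NewGal X ρ Y)
include hX ha hΨ hE hρ hp0 hbal hdim hcls

/-- **The ring of Tate classes**, from elements of the Galois group. -/
theorem gal_ring {n m : ℕ} (f : (Fin n → K ⊗[ℚ] X.H) [⋀^Fin m × Fin 2]→ₗ[K] K)
    (hf : IsTateClass ρ χ m f) :
    ∃ (N : ℕ) (c : Fin N → K) (g : Fin N → (Fin n → X.H) [⋀^Fin m × Fin 2]→ₗ[ℚ] ℚ),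
      (∀ j, g j ∈ weilSpan X a (2 * p) n m) ∧ ∀ v : Fin m × Fin 2 → Fin n → X.H,
        f (fun l i => (1 : K) ⊗ₜ[ℚ] v l i) = ∑ j, c j * ((g j v : ℚ) : K) := by
  classical
  obtain ⟨φ, hφ⟩ := exists_centreGen hX ha
  obtain ⟨Φ, hΦ⟩ := hφ.1
  have hpos : ∀ s : ℂ, aeval s (minpoly ℚ a) = 0 → 0 < finrank ℂ (Ψ.eigenspace s) :=
    fun s hs => by rw [hbal s hs]; exact hp0
  have hn : IsCentreMult X fun s => finrank ℂ (Module.End.eigenspace (Φ : Module.End ℂ X.T) s) :=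
    ⟨φ, Φ, hφ, hΦ, fun _ => rfl⟩
  have hsep := sep_simple ha hφ hΨ (Φ := Φ) hΦ hpos
  -- a rational expansion
  have h1 : D.TateIsHodge X ρ χ := fun m φ' hφ' => gal_tensor X hE hcls hn hsep hρ φ' hφ'
  obtain ⟨N, c, g, -, h2⟩ := tateIsHodge_of h1 n m f hf
  obtain ⟨N', w, l, q, h3, h4⟩ := exists_coord
    (fun v : Fin m × Fin 2 → Fin n → X.H => f (fun l i => (1 : K) ⊗ₜ[ℚ] v l i)) c
    (fun j v => g j v) h2
  refine ⟨N', w, fun i => ∑ j, q i j • g j, fun i => ?_, fun v => ?_⟩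
  swap
  · refine (h3 v).trans (Finset.sum_congr rfl fun i _ => ?_)
    rw [h4 i v, alt_sum]
  change (∑ j, q i j • g j) ∈ _
  have h5 : ∀ v : Fin m × Fin 2 → Fin n → X.H, (∑ j, q i j • g j) v =
      l i (algebraMap K ℂ (f (fun l i => (1 : K) ⊗ₜ[ℚ] v l i))) := by
    intro v
    rw [h4 i v, alt_sum]
  generalize (∑ j, q i j • g j) = G at h5 ⊢
  -- the period matrix
  obtain ⟨r, Z, hZ, b, M', -, hC, hTD, hGd, -, -, -⟩ := setup_gal X hE hcls hn hsep hρ
  obtain ⟨Ψ₁, h₁⟩ := hZ.cht.hom hC (R := 1) (by rw [cK_one, Matrix.one_mul, Matrix.mul_one])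
  let e : (AVZ hZ).H ≃ₗ[ℚ] X.H := b.equivFun.symm
  have he : IsHom (AVZ hZ) X e.toLinearMap := ⟨Ψ₁, fun w => by
    have h3 := h₁ w
    rw [one_mulVec] at h3
    exact h3⟩
  have hs : IsSimple (AVZ hZ) := simple_iso he hX
  have hs' := simple_AVZ hZ hs
  have hg : 0 < r := by
    rcases Nat.eq_zero_or_pos r with h0 | h0
    · exfalso
      obtain ⟨v, hv⟩ := hs.1
      subst h0
      apply hv
      funext i
      rcases i with i | i <;> exact i.elim0
    · exact h0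
  obtain ⟨Ψ', h1', h2'⟩ := exists_tan he hΨ
  have k := maxField_iso he ha
  have hpd : ∀ s : ℂ, aeval s (minpoly ℚ (LinearMap.toMatrix' (cjg e a))) = 0 →
      pd Z (VE (LinearMap.toMatrix' (cjg e a)) s) = p := by
    intro s hs0
    rw [minpoly_mat, minpoly_cjg] at hs0
    rw [pd_mult hZ k h1' s, h2', hbal s hs0]
  have hdeg : 0 < (minpoly ℚ (LinearMap.toMatrix' (cjg e a))).natDegree := by
    rw [Nat.pos_iff_ne_zero]
    intro h5
    rw [minpoly_mat, minpoly_cjg] at h5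
    rw [h5, zero_mul] at hdim
    have h6 := e.finrank_eq
    rw [← hdim, finrank_AVZ] at h6
    omega
  have hqd : ∀ s : ℂ, aeval s (minpoly ℚ (LinearMap.toMatrix' (cjg e a))) = 0 →
      qd Z (VE (LinearMap.toMatrix' (cjg e a)) s) = p := by
    intro s hs0
    have h3 := (k.mf hZ).dim hZ hs' hg (VE_ne_of_root hs0)
    have h6 : (minpoly ℚ (LinearMap.toMatrix' (cjg e a))).natDegree * (2 * p) = 2 * r := by
      rw [minpoly_mat, minpoly_cjg, hdim, ← e.finrank_eq, finrank_AVZ]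
    rw [← h6] at h3
    have h4 := Nat.eq_of_mul_eq_mul_left hdeg h3
    have h7 := pd_add_qd hZ (VE_stab (k.mf hZ).comm s)
    rw [h4, hpd s hs0] at h7
    omega
  -- the components
  have h6 : G.compLinearMap (pw n e.toLinearMap) ∈ weilSpan (AVZ hZ) (cjg e a) (2 * p) n m := by
    refine weilSpan_of_comps _ fun ι => ?_
    have hφ' : D.IsTateTensor ρ χ (Pool.Agent.K9h17.E.comp f.toMultilinearMap ι) := by
      obtain ⟨Δ, hΔ, hf'⟩ := hf
      refine ⟨Δ, hΔ, fun g hg v => ?_⟩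
      have h1 := hf' g hg fun l => Pi.single (ι l) (v l)
      have h2 : (fun l i => ρ g ((Pi.single (ι l) (v l) : Fin n → K ⊗[ℚ] X.H) i)) =
          fun l => (Pi.single (ι l) (ρ g (v l)) : Fin n → K ⊗[ℚ] X.H) := by
        funext l i
        by_cases hi : i = ι l
        · subst hi
          rw [Pi.single_eq_same, Pi.single_eq_same]
        · rw [Pi.single_eq_of_ne hi, Pi.single_eq_of_ne hi, map_zero]
      rw [h2] at h1
      exact h1
    have h7 := inv_NW' hZ hs' hg (k.mf hZ) hpd hqd hTD hGd (a := cjg e a) (fun v => by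
      rw [← Matrix.toLin'_apply, Matrix.toLin'_toMatrix'])
      (FC b (Pool.Agent.K9h17.E.comp f.toMultilinearMap ι)) (FC_kills b _ hφ')
    rw [mem_NW] at h7
    have h8 := lam_SC h7 (l i)
    refine (congrArg (· ∈ Submodule.span ℚ (GX (AVZ hZ) (cjg e a) (2 * p) (Fin m × Fin 2)))
      ?_).mp h8
    funext v
    rw [FC_rat]
    change _ = G (fun k => pw n e.toLinearMap (Pi.single (ι k) (v k)))
    rw [h5]
    congr 2
    change f (fun k => Pi.single (ι k) ((1 : K) ⊗ₜ[ℚ] b.equivFun.symm (v k))) = _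
    congr 1
    funext k j
    rw [pw_apply]
    by_cases hj : j = ι k
    · subst hj
      rw [Pi.single_eq_same, Pi.single_eq_same]
      rfl
    · rw [Pi.single_eq_of_ne hj, Pi.single_eq_of_ne hj, map_zero, TensorProduct.tmul_zero]
  -- back
  have h7 := weilSpan_pull e.symm (hom_symm e he) (a := a) (a' := cjg e a) (fun v => by
    rw [cjg_apply]
    change e.symm (a v) = e.symm (a (e (e.symm v)))
    rw [e.apply_symm_apply]) h6
  refine (congrArg (· ∈ weilSpan X a (2 * p) n m) ?_).mp h7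
  ext v
  change G (fun k => pw n e.toLinearMap (pw n e.symm.toLinearMap (v k))) = G v
  congr 1
  funext k j
  exact e.apply_symm_apply (v k j)

omit hp0 hcls in
/-- **Unipotent elements of odd rank.** -/
theorem unipotent_ring (h : OddUnipotent ρ a) {n m : ℕ}
    (f : (Fin n → K ⊗[ℚ] X.H) [⋀^Fin m × Fin 2]→ₗ[K] K) (hf : IsTateClass ρ χ m f) :
    ∃ (N : ℕ) (c : Fin N → K) (g : Fin N → (Fin n → X.H) [⋀^Fin m × Fin 2]→ₗ[ℚ] ℚ),
      (∀ j, g j ∈ weilSpan X a (2 * p) n m) ∧ ∀ v : Fin m × Fin 2 → Fin n → X.H,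
        f (fun l i => (1 : K) ⊗ₜ[ℚ] v l i) = ∑ j, c j * ((g j v : ℚ) : K) := by
  have hp0 := pos_of_dim hX hdim
  have hu := unipotentGal_of hX ha hΨ hE hρ hp0 hbal hdim h
  refine gal_ring hX ha hΨ hE hρ hp0 hbal hdim (fun Y hY => ?_) f hf
  obtain ⟨e, he⟩ := factor_simple hX hY
  exact Or.inr (Or.inl (unipotentGal_iso he hu))

end

end Pool.Agent.K9h17.H
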